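import Pool.Agent.H20E7.Stm

/-! Project E7 (helper20), stub AP (helper59): the candidates with `p ∣ fm i w` form an AP. -/

set_option autoImplicit false

namespace Pool.Agent.H20E7

open Finset

/-- the number of `u` with `τ + M u < 2 W` -/
theorem AP_count {M W c : ℕ} (hM : 0 < M) (P : ℕ → Prop) [DecidablePred P]
    (hP : ∀ w, W ≤ w → w < 2 * W → (P w ↔ w ≡ c [MOD M])) :
    ∃ τ U : ℕ, W ≤ τ ∧ τ ≡ c [MOD M] ∧
      (Ico W (2 * W)).filter P = (range U).image (fun u => τ + M * u) ∧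
      |(U : ℝ) - W / M| ≤ 1 := by
  obtain ⟨τ, hτ⟩ : ∃ τ, τ = W + (c + (M - 1) * W) % M := ⟨_, rfl⟩
  have hWτ : W ≤ τ := by omega
  have hτM : τ < W + M := by
    have := Nat.mod_lt (c + (M - 1) * W) hM
    omega
  have hmod : τ ≡ c [MOD M] := by
    have h1 : τ ≡ W + (c + (M - 1) * W) [MOD M] := by
      rw [hτ]
      exact Nat.ModEq.add_left W (Nat.mod_modEq _ _)
    have h2 : W + (c + (M - 1) * W) = c + M * W := by
      obtain ⟨m, rfl⟩ : ∃ m, M = m + 1 := ⟨M - 1, by omega⟩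
      simp only [Nat.add_sub_cancel]
      ring
    rw [h2] at h1
    refine h1.trans ?_
    have h3 : M * W ≡ 0 [MOD M] := (Nat.modEq_zero_iff_dvd).2 (Dvd.intro _ rfl)
    simpa using Nat.ModEq.add_left c h3
  obtain ⟨x, hx⟩ : ∃ x, x = 2 * W - τ := ⟨_, rfl⟩
  obtain ⟨U, hU⟩ : ∃ U, U = (x + (M - 1)) / M := ⟨_, rfl⟩
  have key : ∀ u, u < U ↔ τ + M * u < 2 * W := by
    intro u
    rw [hU, Nat.lt_iff_add_one_le, Nat.le_div_iff_mul_le hM]
    have e1 : (u + 1) * M = M * u + M := by ring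
    rw [e1]
    omega
  have hUle : U * M ≤ x + (M - 1) := by rw [hU]; exact Nat.div_mul_le_self _ _
  have hUge : x ≤ U * M := by
    have h1 : x + (M - 1) < U * M + M := by
      rw [hU]
      have := Nat.lt_div_mul_add (a := x + (M - 1)) hM
      exact this
    omega
  refine ⟨τ, U, hWτ, hmod, ?_, ?_⟩
  · ext w
    simp only [mem_filter, mem_Ico, mem_image, mem_range]
    constructor
    · rintro ⟨⟨h1, h2⟩, h3⟩
      have h4 : w ≡ τ [MOD M] := ((hP w h1 h2).1 h3).trans hmod.symm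
      have h5 : τ ≤ w := by
        by_contra hlt
        push Not at hlt
        have h6 : M ∣ τ - w := (Nat.modEq_iff_dvd' hlt.le).1 h4
        have h7 := Nat.le_of_dvd (by omega) h6
        omega
      obtain ⟨u, hu⟩ := (Nat.modEq_iff_dvd' h5).1 h4.symm
      have h8 : τ + M * u = w := by omega
      exact ⟨u, (key u).2 (by omega), h8⟩
    · rintro ⟨u, hu, rfl⟩
      have h1 := (key u).1 hu
      have h0 : W ≤ τ + M * u := by omega
      refine ⟨⟨h0, h1⟩, (hP _ h0 h1).2 ?_⟩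
      have h3 : M * u ≡ 0 [MOD M] := (Nat.modEq_zero_iff_dvd).2 (Dvd.intro _ rfl)
      have h4 : τ + M * u ≡ c + 0 [MOD M] := Nat.ModEq.add hmod h3
      simpa using h4
  · have hM' : (0 : ℝ) < M := by exact_mod_cast hM
    have e1 : (U : ℝ) - W / M = ((U : ℝ) * M - W) / M := by field_simp
    rw [e1, abs_div, abs_of_pos hM', div_le_one hM', abs_le]
    have h1 : U * M ≤ W + M := by omega
    have h2 : W ≤ U * M + M := by omega
    have h1' : (U : ℝ) * M ≤ W + M := by exact_mod_cast h1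
    have h2' : (W : ℝ) ≤ U * M + M := by exact_mod_cast h2
    constructor <;> linarith

theorem fm_dvd_iff {p : ℕ} (i : Fin 4) {w : ℕ} (hw : 1 ≤ w) :
    p ∣ fm i w ↔ (p : ℤ) ∣ (![1, 6, 2, 3] i : ℤ) * w - (![0, 5, 1, 1] i : ℤ) := by
  rw [← Int.natCast_dvd_natCast]
  have h : ((fm i w : ℕ) : ℤ) = (![1, 6, 2, 3] i : ℤ) * w - (![0, 5, 1, 1] i : ℤ) := by
    fin_cases i
    · simp [fm]
    · simp only [fm]
      simp
      omega
    · simp only [fm]
      simp
      omega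
    · simp only [fm]
      simp
      omega
  rw [h]

theorem AP : S_AP := by
  intro P0 Q w0 hA W p hW hp hP0 i
  have hp7 : 7 < p := lt_of_le_of_lt hA.P0_ge hP0
  have hpQ : Nat.Coprime p Q := (Nat.Prime.coprime_iff_not_dvd hp).2 (hA.big p hp hP0)
  have hpZ : Prime (p : ℤ) := Nat.prime_iff_prime_int.1 hp
  -- a solution of the congruence mod p
  have hcop : IsCoprime (![1, 6, 2, 3] i : ℤ) (p : ℤ) := by
    have : IsCoprime (6 : ℤ) (p : ℤ) := by
      have h1 : Nat.Coprime 6 p := by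
        have h2 : Nat.Coprime 2 p := (Nat.coprime_primes Nat.prime_two hp).2 (by omega)
        have h3 : Nat.Coprime 3 p := (Nat.coprime_primes Nat.prime_three hp).2 (by omega)
        exact Nat.Coprime.mul_left h2 h3
      exact_mod_cast Nat.isCoprime_iff_coprime.2 h1
    fin_cases i
    · simpa using isCoprime_one_left
    · simpa using this
    · exact this.of_isCoprime_of_dvd_left (by norm_num)
    · exact this.of_isCoprime_of_dvd_left (by norm_num)
  obtain ⟨r, hr⟩ : ∃ r : ℕ, ∀ w : ℤ, (p : ℤ) ∣ (![1, 6, 2, 3] i : ℤ) * w - (![0, 5, 1, 1] i : ℤ) ↔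
      w ≡ r [ZMOD p] := by
    obtain ⟨s, t, hst⟩ := hcop
    obtain ⟨a, ha⟩ : ∃ a : ℤ, a = (![1, 6, 2, 3] i : ℤ) := ⟨_, rfl⟩
    obtain ⟨b, hb⟩ : ∃ b : ℤ, b = (![0, 5, 1, 1] i : ℤ) := ⟨_, rfl⟩
    rw [← ha] at hst ⊢
    rw [← hb]
    have hp0 : (0 : ℤ) < p := by exact_mod_cast hp.pos
    refine ⟨((s * b) % p).toNat, fun w => ?_⟩
    have e0 : (((s * b) % (p : ℤ)).toNat : ℤ) = (s * b) % p :=
      Int.toNat_of_nonneg (Int.emod_nonneg _ hp0.ne')
    rw [e0]
    have e1 : w ≡ (s * b) % p [ZMOD p] ↔ w ≡ s * b [ZMOD p] := by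
      constructor
      · intro h; exact h.trans (Int.mod_modEq _ _)
      · intro h; exact h.trans (Int.mod_modEq _ _).symm
    rw [e1]
    constructor
    · rintro ⟨k, hk⟩
      -- a w - b = p k; s a w - s b = p s k; w (1 - t p) - s b = p s k
      refine (Int.modEq_iff_dvd).2 ⟨-(s * k + t * w), ?_⟩
      linear_combination s * hk * (-1) + w * hst
    · intro h
      obtain ⟨k, hk⟩ := (Int.modEq_iff_dvd).1 h
      -- s b - w = p k; a w - b = a s b - a p k - b = - t p b - a p k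
      refine ⟨-(t * b + a * k), ?_⟩
      linear_combination (-a) * hk + b * hst
  obtain ⟨c, hc1, hc2⟩ := Nat.chineseRemainder hpQ r w0
  have hM : 0 < p * Q := Nat.mul_pos hp.pos hA.Q_pos
  have hiff : ∀ w : ℕ, 1 ≤ w → ((w % Q = w0 ∧ p ∣ fm i w) ↔ w ≡ c [MOD (p * Q)]) := by
    intro w hw
    rw [fm_dvd_iff i hw, hr, ← Nat.modEq_and_modEq_iff_modEq_mul hpQ]
    have e1 : ((w : ℤ) ≡ (r : ℤ) [ZMOD (p : ℤ)]) ↔ w ≡ r [MOD p] := Int.natCast_modEq_iff
    rw [e1]
    have e2 : w % Q = w0 ↔ w ≡ w0 [MOD Q] := by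
      unfold Nat.ModEq
      rw [Nat.mod_eq_of_lt hA.lt]
    rw [e2]
    constructor
    · rintro ⟨h1, h2⟩
      exact ⟨h2.trans hc1.symm, h1.trans hc2.symm⟩
    · rintro ⟨h1, h2⟩
      exact ⟨h2.trans hc2, h1.trans hc1⟩
  obtain ⟨τ, U, h1, h2, h3, h4⟩ := AP_count (W := W) (c := c) hM (fun w => w % Q = w0 ∧ p ∣ fm i w)
    (fun w hw _ => hiff w (le_trans hW hw))
  refine ⟨τ, U, h1, ?_, ?_, ?_⟩
  · rw [← h3, cand, filter_filter]
  · have e1 : ((p * Q : ℕ) : ℝ) = (p : ℝ) * Q := by push_cast; ring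
    rw [e1] at h4
    exact h4
  · intro hdvd
    have h5 : (p : ℤ) ∣ (![1, 6, 2, 3] i : ℤ) * τ - (![0, 5, 1, 1] i : ℤ) :=
      (fm_dvd_iff i (le_trans hW h1)).1 ((hiff τ (le_trans hW h1)).2 h2).2
    have hfin : (p : ℤ) ∣ 5 := by
      fin_cases i
      · have := (Dvd.dvd.mul_left h5 (12 : ℤ))
        have h6 := dvd_sub this hdvd
        simp at h6
        ring_nf at h6
        exact h6
      · have := (Dvd.dvd.mul_left h5 (2 : ℤ))
        have h6 := dvd_sub hdvd this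
        simp at h6
        ring_nf at h6
        exact h6
      · have := (Dvd.dvd.mul_left h5 (6 : ℤ))
        have h6 := dvd_sub hdvd this
        simp at h6
        ring_nf at h6
        exact h6.trans (one_dvd 5)
      · have := (Dvd.dvd.mul_left h5 (4 : ℤ))
        have h6 := dvd_sub this hdvd
        simp at h6
        ring_nf at h6
        exact h6.trans (one_dvd 5)
    have h7 := Int.le_of_dvd (by norm_num) hfin
    have : (7 : ℤ) < p := by exact_mod_cast hp7
    omega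

end Pool.Agent.H20E7
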