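import Pool.Agent.H20E7.Stm

/-!
# Stub CRIT: Kummer's criterion
-/

set_option autoImplicit false

namespace Pool.Agent.H20E7

open Finset

open Classical in
theorem CRIT : S_CRIT := by
  intro n h
  have hc0 : Nat.choose (n + n) n ≠ 0 := (Nat.choose_pos (Nat.le_add_left n n)).ne'
  have hm0 : ((n + 1) * (n + 2)) ^ 2 ≠ 0 := by positivity
  have hdvd : ((n + 1) * (n + 2)) ^ 2 ∣ Nat.choose (n + n) n := by
    refine (Nat.factorization_prime_le_iff_dvd hm0 hc0).1 fun p hp => ?_
    have h1 := h p hp
    have h2 : (((n + 1) * (n + 2)) ^ 2).factorization p =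
        2 * (padicValNat p (n + 1) + padicValNat p (n + 2)) := by
      rw [Nat.factorization_pow, Nat.factorization_mul (by omega) (by omega)]
      simp [Nat.factorization_def _ hp]
      ring
    have h3 : (Nat.choose (n + n) n).factorization p =
        #((Ico 1 (2 * n + 1)).filter (fun i => p ^ i ≤ n % p ^ i + n % p ^ i)) := by
      refine Nat.factorization_choose' hp ?_
      have := Nat.log_le_self p (n + n)
      omega
    rw [h2, h3]
    refine h1.trans (Finset.card_le_card ?_)
    intro j hj
    simp only [Finset.mem_filter, Finset.mem_Icc, Finset.mem_Ico] at hj ⊢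
    refine ⟨⟨hj.1.1, by omega⟩, by omega⟩
  have h4 : Nat.factorial (2 * n) = Nat.choose (n + n) n * Nat.factorial n * Nat.factorial n := by
    rw [two_mul]
    exact (Nat.add_choose_mul_factorial_mul_factorial n n).symm
  have h5 : Nat.factorial (n + 2) ^ 2 = ((n + 1) * (n + 2)) ^ 2 * (Nat.factorial n * Nat.factorial n) := by
    rw [Nat.factorial_succ, Nat.factorial_succ]
    ring
  rw [h4, h5, mul_assoc]
  exact mul_dvd_mul hdvd dvd_rfl

end Pool.Agent.H20E7
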