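import Pool.Agent.H20E7.Stm

set_option autoImplicit false

namespace Pool.Agent.H20E7

open Finset

namespace DECaux

theorem nn_succ (v : ℕ) : nn (v + 1) = v * (6 * v + 7) := by
  unfold nn
  have : 6 * (v + 1) + 1 = 6 * v + 7 := by ring
  rw [this, Nat.add_sub_cancel]

theorem fm0 (v : ℕ) : fm 0 (v + 1) = v + 1 := by simp [fm]
theorem fm1 (v : ℕ) : fm 1 (v + 1) = 6 * v + 1 := by
  have : fm 1 (v + 1) = 6 * (v + 1) - 5 := by simp [fm]
  rw [this]; omega
theorem fm2 (v : ℕ) : fm 2 (v + 1) = 2 * v + 1 := by
  have : fm 2 (v + 1) = 2 * (v + 1) - 1 := by simp [fm]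
  rw [this]; omega
theorem fm3 (v : ℕ) : fm 3 (v + 1) = 3 * v + 2 := by
  have : fm 3 (v + 1) = 3 * (v + 1) - 1 := by simp [fm]
  rw [this]; omega

theorem val_le_one {p a : ℕ} [Fact p.Prime] (ha : a ≠ 0) (h : ¬ p ^ 2 ∣ a) : padicValNat p a ≤ 1 := by
  by_contra h2
  push Not at h2
  exact h ((padicValNat_dvd_iff_le ha).mpr h2)

theorem not_both {p a b : ℕ} (hp : p.Prime) (h7 : 7 < p) (x y c : ℕ) (hc : 0 < c) (hc5 : c ≤ 5)
    (h : x * a = y * b + c ∨ y * b = x * a + c) (ha : p ∣ a) (hb : p ∣ b) : False := by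
  have hxa : p ∣ x * a := Dvd.dvd.mul_left ha x
  have hyb : p ∣ y * b := Dvd.dvd.mul_left hb y
  have hpc : p ∣ c := by
    rcases h with h | h
    · rw [h] at hxa
      exact (Nat.dvd_add_right hyb).mp hxa
    · rw [h] at hyb
      exact (Nat.dvd_add_right hxa).mp hyb
  have := Nat.le_of_dvd hc hpc
  omega

end DECaux

open DECaux in
theorem DEC : S_DEC := by
  intro hC P0 Q w0 hA w hw hwQ hneg
  by_contra hno
  apply hneg
  obtain ⟨v, rfl⟩ : ∃ v, w = v + 1 := ⟨w - 1, by omega⟩
  have hP0 := hA.P0_ge
  have h16 : (v + 1) % 16 = 5 := by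
    have h1 : (v + 1) % Q % 16 = (v + 1) % 16 := Nat.mod_mod_of_dvd _ hA.dvd16
    rw [hwQ, hA.mod16] at h1
    exact h1.symm
  have hn := nn_succ v
  have hn1 : nn (v + 1) + 1 = (v + 1) * (6 * v + 1) := by rw [hn]; ring
  have hn2 : nn (v + 1) + 2 = (2 * v + 1) * (3 * v + 2) := by rw [hn]; ring
  have hv4 : 4 ≤ v := by omega
  have hnbig : 12 ≤ nn (v + 1) := by
    rw [hn]
    nlinarith
  apply hC (nn (v + 1))
  intro p hp
  haveI : Fact p.Prime := ⟨hp⟩
  have hn10 : nn (v + 1) + 1 ≠ 0 := by omega
  have hn20 : nn (v + 1) + 2 ≠ 0 := by omega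
  rcases eq_or_ne p 2 with rfl | hp2
  · -- p = 2
    obtain ⟨m, hm⟩ : ∃ m, v = 16 * m + 4 := ⟨v / 16, by omega⟩
    have hn16 : nn (v + 1) = 16 * (96 * m ^ 2 + 55 * m + 7) + 12 := by
      rw [hn, hm]; ring
    have hv1 : padicValNat 2 (nn (v + 1) + 1) = 0 := by
      apply padicValNat.eq_zero_of_not_dvd
      omega
    have hv2 : padicValNat 2 (nn (v + 1) + 2) ≤ 1 := by
      apply val_le_one hn20
      norm_num
      omega
    have hsub : ({3, 4} : Finset ℕ) ⊆ (Icc 1 (2 * nn (v + 1))).filter
        (fun j => 2 ^ j ≤ 2 * (nn (v + 1) % 2 ^ j)) := by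
      intro j hj
      rw [Finset.mem_filter, Finset.mem_Icc]
      simp only [Finset.mem_insert, Finset.mem_singleton] at hj
      rcases hj with rfl | rfl
      · refine ⟨⟨by norm_num, by omega⟩, ?_⟩
        norm_num
        omega
      · refine ⟨⟨by norm_num, by omega⟩, ?_⟩
        norm_num
        omega
    have hcard := Finset.card_le_card hsub
    have h2 : #({3, 4} : Finset ℕ) = 2 := by decide
    rw [h2] at hcard
    rw [hv1]
    refine le_trans ?_ (le_trans hcard (le_of_eq ?_))
    · omega
    · rfl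
  · rcases le_or_gt p P0 with hle | hlt
    · -- p odd, p ≤ P0
      obtain ⟨hpQ, hp1⟩ := hA.odd p hp hp2 hle
      have h1 : (v + 1) % p = 1 := by
        have h1 : (v + 1) % Q % p = (v + 1) % p := Nat.mod_mod_of_dvd _ hpQ
        rw [hwQ, hp1] at h1
        exact h1.symm
      have hpv : p ∣ v := by
        have h2 : 1 ≡ v + 1 [MOD p] := by
          unfold Nat.ModEq
          rw [h1, Nat.mod_eq_of_lt hp.one_lt]
        have h3 := (Nat.modEq_iff_dvd' (by omega)).mp h2
        simpa using h3
      have hpn : p ∣ nn (v + 1) := by rw [hn]; exact Dvd.dvd.mul_right hpv _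
      have hv1 : padicValNat p (nn (v + 1) + 1) = 0 := by
        apply padicValNat.eq_zero_of_not_dvd
        intro h
        have := (Nat.dvd_add_right hpn).mp h
        exact hp.one_lt.ne' (Nat.dvd_one.mp this)
      have hv2 : padicValNat p (nn (v + 1) + 2) = 0 := by
        apply padicValNat.eq_zero_of_not_dvd
        intro h
        have h3 := (Nat.dvd_add_right hpn).mp h
        exact hp2 ((Nat.prime_dvd_prime_iff_eq hp Nat.prime_two).mp h3)
      rw [hv1, hv2]
      exact Nat.zero_le _
    · -- p > P0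
      have hall : ∀ i : Fin 4, ¬ p ^ 2 ∣ fm i (v + 1) := fun i h => hno ⟨p, hp, hlt, i, Or.inl h⟩
      have h7 : 7 < p := by omega
      have key : p ∣ (nn (v + 1) + 1) ∨ p ∣ (nn (v + 1) + 2) → ∀ i : Fin 4, p ∣ fm i (v + 1) →
          2 ≤ #((Icc 1 (2 * nn (v + 1))).filter (fun j => p ^ j ≤ 2 * (nn (v + 1) % p ^ j))) := by
        intro hd i hi
        have hj : ∃ j : ℕ, 2 ≤ j ∧ p ^ j ≤ 2 * (nn (v + 1) % p ^ j) := by
          by_contra hcon
          push Not at hcon
          exact hno ⟨p, hp, hlt, i, Or.inr ⟨hi, fun j hj => hcon j hj⟩⟩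
        obtain ⟨j, hj2, hj⟩ := hj
        have hjle : j ≤ 2 * nn (v + 1) := by
          by_contra hcon
          push Not at hcon
          have h1 : j < p ^ j := Nat.lt_pow_self hp.one_lt
          have h2 : nn (v + 1) % p ^ j = nn (v + 1) := Nat.mod_eq_of_lt (by omega)
          rw [h2] at hj
          omega
        have hone : p ^ 1 ≤ 2 * (nn (v + 1) % p ^ 1) := by
          rw [pow_one]
          have hmod := Nat.mod_add_div (nn (v + 1)) p
          have hlt2 := Nat.mod_lt (nn (v + 1)) hp.pos
          rcases hd with hd | hd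
          · obtain ⟨c, hc⟩ := hd
            have h1 : (nn (v + 1) + 1) % p = 0 := by rw [hc]; exact Nat.mul_mod_right p c
            rw [Nat.add_mod, Nat.mod_eq_of_lt (show 1 < p by omega)] at h1
            by_contra hcon
            push Not at hcon
            rw [Nat.mod_eq_of_lt (by omega)] at h1
            omega
          · obtain ⟨c, hc⟩ := hd
            have h1 : (nn (v + 1) + 2) % p = 0 := by rw [hc]; exact Nat.mul_mod_right p c
            rw [Nat.add_mod, Nat.mod_eq_of_lt (show 2 < p by omega)] at h1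
            by_contra hcon
            push Not at hcon
            rw [Nat.mod_eq_of_lt (by omega)] at h1
            omega
        have hsub : ({1, j} : Finset ℕ) ⊆ (Icc 1 (2 * nn (v + 1))).filter
            (fun j => p ^ j ≤ 2 * (nn (v + 1) % p ^ j)) := by
          intro k hk
          rw [Finset.mem_filter, Finset.mem_Icc]
          simp only [Finset.mem_insert, Finset.mem_singleton] at hk
          rcases hk with rfl | rfl
          · exact ⟨⟨le_refl _, by omega⟩, hone⟩
          · exact ⟨⟨by omega, hjle⟩, hj⟩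
        have hcard := Finset.card_le_card hsub
        have h2 : #({1, j} : Finset ℕ) = 2 := Finset.card_pair (by omega)
        rw [h2] at hcard
        exact hcard
      have a0 := hall 0
      have a1 := hall 1
      have a2 := hall 2
      have a3 := hall 3
      rw [fm0] at a0
      rw [fm1] at a1
      rw [fm2] at a2
      rw [fm3] at a3
      have b0 := val_le_one (p := p) (by omega) a0
      have b1 := val_le_one (p := p) (by omega) a1
      have b2 := val_le_one (p := p) (by omega) a2
      have b3 := val_le_one (p := p) (by omega) a3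
      by_cases hd1 : p ∣ nn (v + 1) + 1
      · have hd2 : ¬ p ∣ nn (v + 1) + 2 := fun h =>
          not_both hp h7 1 1 1 (by norm_num) (by norm_num) (Or.inr (by ring)) hd1 h
        rw [padicValNat.eq_zero_of_not_dvd hd2, hn1, padicValNat.mul (by omega) (by omega)]
        have hd1' := hd1
        rw [hn1] at hd1'
        rcases hp.dvd_mul.mp hd1' with h | h
        · have h' : ¬ p ∣ 6 * v + 1 := fun h2 =>
            not_both hp h7 6 1 5 (by norm_num) (by norm_num) (Or.inl (by ring)) h h2
          rw [padicValNat.eq_zero_of_not_dvd h']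
          refine le_trans ?_ (key (Or.inl hd1) 0 (by rw [fm0]; exact h))
          omega
        · have h' : ¬ p ∣ v + 1 := fun h2 =>
            not_both hp h7 6 1 5 (by norm_num) (by norm_num) (Or.inl (by ring)) h2 h
          rw [padicValNat.eq_zero_of_not_dvd h']
          refine le_trans ?_ (key (Or.inl hd1) 1 (by rw [fm1]; exact h))
          omega
      · by_cases hd2 : p ∣ nn (v + 1) + 2
        · rw [padicValNat.eq_zero_of_not_dvd hd1, hn2, padicValNat.mul (by omega) (by omega)]
          have hd2' := hd2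
          rw [hn2] at hd2'
          rcases hp.dvd_mul.mp hd2' with h | h
          · have h' : ¬ p ∣ 3 * v + 2 := fun h2 =>
              not_both hp h7 3 2 1 (by norm_num) (by norm_num) (Or.inr (by ring)) h h2
            rw [padicValNat.eq_zero_of_not_dvd h']
            refine le_trans ?_ (key (Or.inr hd2) 2 (by rw [fm2]; exact h))
            omega
          · have h' : ¬ p ∣ 2 * v + 1 := fun h2 =>
              not_both hp h7 3 2 1 (by norm_num) (by norm_num) (Or.inr (by ring)) h2 h
            rw [padicValNat.eq_zero_of_not_dvd h']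
            refine le_trans ?_ (key (Or.inr hd2) 3 (by rw [fm3]; exact h))
            omega
        · rw [padicValNat.eq_zero_of_not_dvd hd1, padicValNat.eq_zero_of_not_dvd hd2]
          exact Nat.zero_le _

end Pool.Agent.H20E7
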