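import Pool.Agent.H20E7.Stm

/-!
Project E7 (helper20): stub DET, the second digit for the forms `w`, `2w-1`, `3w-1`.
-/

set_option autoImplicit false

namespace Pool.Agent.H20E7

theorem det_key {N P K r : ℕ} (h : N = P * K + r) (hr : r < P) (h2 : P ≤ 2 * r) : ¬ (2 * (N % P) < P) := by
  rw [h, Nat.mul_add_mod, Nat.mod_eq_of_lt hr]
  omega

theorem nn_cast {w : ℕ} (hw : 1 ≤ w) : (nn w : ℤ) = 6 * (w : ℤ) ^ 2 - 5 * w - 1 := by
  unfold nn
  push_cast [Nat.cast_sub hw]
  ring

theorem DET : S_DET := by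
  intro p w hp hp7 hw h12 i hi hdvd
  unfold NC
  have hp0 : 0 < p := hp.pos
  have hN := nn_cast hw
  fin_cases i
  · -- the form `w`
    have hd : p ∣ w := by simpa [fm] using hdvd
    obtain ⟨v, rfl⟩ := hd
    have hv : 1 ≤ v := by
      rcases Nat.eq_zero_or_pos v with rfl | h
      · simp at hw
      · exact h
    have h1 : 12 * v ≤ p := by nlinarith
    have hpv : 7 ≤ p * v := by nlinarith
    obtain ⟨r, hr⟩ : ∃ r, p ^ 2 = r + (5 * (p * v) + 1) :=
      ⟨p ^ 2 - (5 * (p * v) + 1), by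
        have : 5 * (p * v) + 1 ≤ p ^ 2 := by nlinarith
        omega⟩
    obtain ⟨K, hK⟩ : ∃ K, 6 * v ^ 2 = K + 1 := ⟨6 * v ^ 2 - 1, by
      have : 1 ≤ v ^ 2 := Nat.one_le_pow _ _ hv
      omega⟩
    have hr' : (p : ℤ) ^ 2 = r + (5 * (p * v) + 1) := by exact_mod_cast hr
    have hK' : 6 * (v : ℤ) ^ 2 = K + 1 := by exact_mod_cast hK
    refine det_key (K := K) (r := r) ?_ ?_ ?_
    · have : (nn (p * v) : ℤ) = (p : ℤ) ^ 2 * K + r := by
        rw [hN]
        push_cast
        linear_combination (p : ℤ) ^ 2 * hK' + hr'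
      exact_mod_cast this
    · omega
    · nlinarith
  · exact absurd rfl hi
  · -- the form `2w-1`
    have hd : p ∣ 2 * w - 1 := by simpa [fm] using hdvd
    obtain ⟨m, hm⟩ := hd
    have hm' : 2 * (w : ℤ) - 1 = p * m := by
      have : 2 * w = p * m + 1 := by omega
      have h2 : 2 * (w : ℤ) = p * m + 1 := by exact_mod_cast this
      linarith
    have hodd : Odd (p * m) := ⟨w - 1, by omega⟩
    obtain ⟨hpo, hmo⟩ := Nat.odd_mul.1 hodd
    obtain ⟨t, ht⟩ := hpo
    obtain ⟨s, hs⟩ := hmo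
    have ht' : (p : ℤ) = 2 * t + 1 := by exact_mod_cast ht
    have hs' : (m : ℤ) = 2 * s + 1 := by exact_mod_cast hs
    have hmp : m < p := by
      by_contra hcon
      have h3 : p * p ≤ p * m := Nat.mul_le_mul_left _ (not_lt.1 hcon)
      nlinarith
    have hm1 : 1 ≤ m := by omega
    have hpm : 7 ≤ p * m := by nlinarith
    obtain ⟨r, hr⟩ : ∃ r, p * (t + s + 1) = r + 2 := ⟨p * (t + s + 1) - 2, by
      have : 7 ≤ p * (t + s + 1) := by nlinarith
      omega⟩
    have hr' : (p : ℤ) * (t + s + 1) = r + 2 := by exact_mod_cast hr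
    have h2r : 2 * r + 4 = p ^ 2 + p * m := by
      have : 2 * (r : ℤ) + 4 = (p : ℤ) ^ 2 + p * m := by
        rw [hs']
        linear_combination (-2 : ℤ) * hr' - (p : ℤ) * ht'
      exact_mod_cast this
    refine det_key (K := 6 * s ^ 2 + 6 * s + 1) (r := r) ?_ ?_ ?_
    · have : (nn w : ℤ) = (p : ℤ) ^ 2 * (6 * s ^ 2 + 6 * s + 1) + r := by
        have h5 : 2 * (nn w : ℤ) = 2 * ((p : ℤ) ^ 2 * (6 * s ^ 2 + 6 * s + 1) + r) := by
          have h6 : 2 * (r : ℤ) + 4 = (p : ℤ) ^ 2 + p * m := by exact_mod_cast h2r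
          have h7 : 2 * (nn w : ℤ) + 4 = 3 * (p * m) ^ 2 + p * m := by
            rw [hN, ← hm']
            ring
          have h8 : 3 * (m : ℤ) ^ 2 = 2 * (6 * s ^ 2 + 6 * s + 1) + 1 := by
            rw [hs']
            ring
          linear_combination h7 - h6 + (p : ℤ) ^ 2 * h8
        linarith
      exact_mod_cast this
    · have : p * m < p * p := Nat.mul_lt_mul_of_pos_left hmp hp0
      nlinarith
    · omega
  · -- the form `3w-1`
    have hd : p ∣ 3 * w - 1 := by simpa [fm] using hdvd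
    obtain ⟨m, hm⟩ := hd
    have hm0 : 3 * w = p * m + 1 := by omega
    have hm' : 3 * (w : ℤ) = p * m + 1 := by exact_mod_cast hm0
    have hm1 : 1 ≤ m := by
      rcases Nat.eq_zero_or_pos m with rfl | h
      · omega
      · exact h
    have hpm : 7 ≤ p * m := by nlinarith
    have h4 : 4 * (p * m) + 4 ≤ p ^ 2 := by omega
    have hmp : m ≤ p := by
      by_contra hcon
      have h3 : p * p ≤ p * m := Nat.mul_le_mul_left _ (not_le.1 hcon).le
      nlinarith
    -- the residues modulo 3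
    have hmod : (p * m) % 3 = 2 := by omega
    have hcases : (p % 3 = 1 ∧ m % 3 = 2) ∨ (p % 3 = 2 ∧ m % 3 = 1) := by
      rw [Nat.mul_mod] at hmod
      have h1 : p % 3 < 3 := Nat.mod_lt _ (by norm_num)
      have h2 : m % 3 < 3 := Nat.mod_lt _ (by norm_num)
      interval_cases hA : p % 3 <;> interval_cases hB : m % 3 <;> simp_all
    obtain ⟨u, hu⟩ : ∃ u, 2 * p = 3 * u + m := by
      refine ⟨(2 * p - m) / 3, ?_⟩
      omega
    obtain ⟨k, hk⟩ : ∃ k, 2 * m ^ 2 = 3 * k + 2 := by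
      have h5 : (2 * m ^ 2) % 3 = 2 := by
        rcases hcases with ⟨-, h⟩ | ⟨-, h⟩
        · rw [Nat.mul_mod, Nat.pow_mod, h]
        · rw [Nat.mul_mod, Nat.pow_mod, h]
      exact ⟨(2 * m ^ 2) / 3, by omega⟩
    have hu' : 2 * (p : ℤ) = 3 * u + m := by exact_mod_cast hu
    have hk' : 2 * (m : ℤ) ^ 2 = 3 * k + 2 := by exact_mod_cast hk
    have hu1 : 1 ≤ u := by omega
    obtain ⟨r, hr⟩ : ∃ r, p * u = r + 2 := ⟨p * u - 2, by
      have : 7 ≤ p * u := by nlinarith
      omega⟩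
    have hr' : (p : ℤ) * u = r + 2 := by exact_mod_cast hr
    have h3r : 3 * r + 6 + p * m = 2 * p ^ 2 := by
      have : 3 * (r : ℤ) + 6 + p * m = 2 * (p : ℤ) ^ 2 := by
        linear_combination (-3 : ℤ) * hr' - (p : ℤ) * hu'
      exact_mod_cast this
    refine det_key (K := k) (r := r) ?_ ?_ ?_
    · have : (nn w : ℤ) = (p : ℤ) ^ 2 * k + r := by
        have h5 : 3 * (nn w : ℤ) = 3 * ((p : ℤ) ^ 2 * k + r) := by
          have h6 : 3 * (r : ℤ) + 6 + p * m = 2 * (p : ℤ) ^ 2 := by exact_mod_cast h3r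
          have h7 : 3 * (nn w : ℤ) + 6 = 2 * (p * m) ^ 2 - p * m := by
            have h8 : (p : ℤ) * m = 3 * w - 1 := by linarith
            rw [hN, h8]
            ring
          linear_combination h7 - h6 + (p : ℤ) ^ 2 * hk'
        linarith
      exact_mod_cast this
    · omega
    · omega

end Pool.Agent.H20E7
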