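import Mathlib
import Pool.Agent.H20E7.Stm

set_option autoImplicit false
set_option maxHeartbeats 4000000

namespace Pool.Agent.H20E7

open Finset

lemma cand_card (Q w0 W : ℕ) (hQ : 0 < Q) (hw : w0 < Q) : (W : ℝ) / Q - 1 ≤ #(cand Q w0 W) := by
  have h1 : cand Q w0 W = (Ico W (2 * W)).filter (fun x => x ≡ w0 [MOD Q]) := by
    unfold cand
    refine Finset.filter_congr fun x _ => ?_
    unfold Nat.ModEq
    rw [Nat.mod_eq_of_lt hw]
  rw [h1]
  have h2 := Nat.Ico_filter_modEq_card W (2 * W) (r := Q) hQ w0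
  have h3 : ((#((Ico W (2 * W)).filter (fun x => x ≡ w0 [MOD Q])) : ℤ) : ℚ) ≥ (W : ℚ) / Q - 1 := by
    rw [h2]
    have a1 := Int.le_ceil ((((2 * W : ℕ) : ℚ) - w0) / (Q : ℚ))
    have a2 := Int.ceil_lt_add_one (((W : ℚ) - w0) / (Q : ℚ))
    have a3 : (((2 * W : ℕ) : ℚ) - w0) / (Q : ℚ) = (W : ℚ) / Q + ((W : ℚ) - w0) / (Q : ℚ) := by
      push_cast; ring
    push_cast
    push_cast at a1 a3
    refine le_trans ?_ (le_max_left _ _)
    linarith
  have h4 : (W : ℚ) / Q - 1 ≤ (#((Ico W (2 * W)).filter (fun x => x ≡ w0 [MOD Q])) : ℚ) := by exact_mod_cast h3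
  have h5 : (((W : ℚ) / Q - 1 : ℚ) : ℝ) ≤ ((#((Ico W (2 * W)).filter (fun x => x ≡ w0 [MOD Q])) : ℚ) : ℝ) := by
    exact_mod_cast h4
  push_cast at h5
  exact h5

open Classical in
theorem FIN : S_FIN := by
  intro crit dec det qw med rng gap large sq
  obtain ⟨Q, w0, hA⟩ := qw 400 (by norm_num)
  have hη : (0 : ℝ) < 1 / 1000 := by norm_num
  obtain ⟨V0, hV0⟩ := sq 400 Q w0 hA (1 / 1000) hη
  obtain ⟨V1, hV1⟩ := med 400 Q w0 hA (1 / 10000) (1 / 1000) (by norm_num) (by norm_num) hη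
  obtain ⟨V2, hV2⟩ := rng 400 Q w0 hA 20 (1 / 10000) (9 / 100) (1 / 1000) (by norm_num) (by norm_num) (by norm_num)
    (by norm_num) (by norm_num) hη
  obtain ⟨V3, hV3⟩ := rng 400 Q w0 hA 10 (9 / 100) (18 / 100) (1 / 1000) (by norm_num) (by norm_num) (by norm_num)
    (by norm_num) (by norm_num) hη
  obtain ⟨V4, hV4⟩ := rng 400 Q w0 hA 7 (18 / 100) (248 / 1000) (1 / 1000) (by norm_num) (by norm_num) (by norm_num)
    (by norm_num) (by norm_num) hη
  obtain ⟨V5, hV5⟩ := rng 400 Q w0 hA 6 (248 / 1000) (284 / 1000) (1 / 1000) (by norm_num) (by norm_num) (by norm_num)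
    (by norm_num) (by norm_num) hη
  obtain ⟨V6, hV6⟩ := rng 400 Q w0 hA 5 (284 / 1000) (332 / 1000) (1 / 1000) (by norm_num) (by norm_num) (by norm_num)
    (by norm_num) (by norm_num) hη
  obtain ⟨V7, hV7⟩ := rng 400 Q w0 hA 4 (332 / 1000) (398 / 1000) (1 / 1000) (by norm_num) (by norm_num) (by norm_num)
    (by norm_num) (by norm_num) hη
  obtain ⟨V8, hV8⟩ := rng 400 Q w0 hA 3 (398 / 1000) (4999 / 10000) (1 / 1000) (by norm_num) (by norm_num)
    (by norm_num) (by norm_num) (by norm_num) hη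
  obtain ⟨V9, hV9⟩ := gap 400 Q w0 hA (4999 / 10000) (5001 / 10000) (1 / 1000) (by norm_num) (by norm_num)
    (by norm_num) hη
  obtain ⟨V10, hV10⟩ := large 400 Q w0 hA (4999 / 10000) (1 / 1000) (by norm_num) (by norm_num) hη
  obtain ⟨V11, hV11⟩ : ∃ V : ℕ, ∀ W : ℕ, V ≤ W → (24 : ℝ) ≤ (W : ℝ) ^ (2 / 10000 : ℝ) := by
    have := (tendsto_rpow_atTop (show (0 : ℝ) < 2 / 10000 by norm_num)).comp tendsto_natCast_atTop_atTop
    have h := (this.eventually_ge_atTop 24)
    obtain ⟨V, hV⟩ := Filter.eventually_atTop.1 h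
    exact ⟨V, hV⟩
  have key : ∀ W : ℕ, 2 ≤ W → V0 ≤ W → V1 ≤ W → V2 ≤ W → V3 ≤ W → V4 ≤ W → V5 ≤ W → V6 ≤ W → V7 ≤ W → V8 ≤ W →
      V9 ≤ W → V10 ≤ W → V11 ≤ W → 30 * Q ≤ W →
      ∃ w, W ≤ w ∧ (Nat.factorial (nn w + 2)) ^ 2 ∣ Nat.factorial (2 * nn w) := by
    intro W h2W g0 g1 g2 g3 g4 g5 g6 g7 g8 g9 g10 g11 gQ
    by_contra hcon
    push Not at hcon
    set C := cand Q w0 W with hC
    have hWpos : (0 : ℝ) < W := by
      have : 0 < W := by omega
      exact_mod_cast this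
    have hQpos : (0 : ℝ) < Q := by exact_mod_cast hA.Q_pos
    -- the sets
    set T0 := C.filter (fun w => ∃ p : ℕ, p.Prime ∧ 400 < p ∧ ∃ i : Fin 4, p ^ 2 ∣ fm i w) with hT0
    set T1 := C.filter (fun w => ∃ p : ℕ, p.Prime ∧ 400 < p ∧ (p : ℝ) ≤ (W : ℝ) ^ (1 / 10000 : ℝ) ∧
      ∃ i : Fin 4, p ∣ fm i w ∧ ∀ j : ℕ, 2 ≤ j → NC p w j) with hT1
    let TR : ℝ → ℝ → Finset ℕ := fun a b => C.filter (fun w => ∃ p : ℕ, p.Prime ∧ 400 < p ∧ (W : ℝ) ^ a < p ∧
      (p : ℝ) ≤ (W : ℝ) ^ b ∧ ∃ i : Fin 4, p ∣ fm i w ∧ ∀ j : ℕ, 2 ≤ j → NC p w j)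
    let TG : Fin 4 → Finset ℕ := fun i => C.filter (fun w => ∃ p : ℕ, p.Prime ∧ 400 < p ∧
      (W : ℝ) ^ (4999 / 10000 : ℝ) < p ∧ (p : ℝ) ≤ (W : ℝ) ^ (5001 / 10000 : ℝ) ∧ p ∣ fm i w)
    let TL : Finset ℕ := C.filter (fun w => ∃ p : ℕ, p.Prime ∧ 400 < p ∧
      (W : ℝ) ^ (4999 / 10000 : ℝ) < p ∧ p ∣ fm 1 w)
    have b0 := hV0 W g0 T0 (filter_subset _ _) (fun w hw => (mem_filter.1 hw).2)
    have b1 := hV1 W g1 T1 (filter_subset _ _) (fun w hw => (mem_filter.1 hw).2)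
    have b2 := hV2 W g2 (TR (1 / 10000) (9 / 100)) (filter_subset _ _) (fun w hw => (mem_filter.1 hw).2)
    have b3 := hV3 W g3 (TR (9 / 100) (18 / 100)) (filter_subset _ _) (fun w hw => (mem_filter.1 hw).2)
    have b4 := hV4 W g4 (TR (18 / 100) (248 / 1000)) (filter_subset _ _) (fun w hw => (mem_filter.1 hw).2)
    have b5 := hV5 W g5 (TR (248 / 1000) (284 / 1000)) (filter_subset _ _) (fun w hw => (mem_filter.1 hw).2)
    have b6 := hV6 W g6 (TR (284 / 1000) (332 / 1000)) (filter_subset _ _) (fun w hw => (mem_filter.1 hw).2)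
    have b7 := hV7 W g7 (TR (332 / 1000) (398 / 1000)) (filter_subset _ _) (fun w hw => (mem_filter.1 hw).2)
    have b8 := hV8 W g8 (TR (398 / 1000) (4999 / 10000)) (filter_subset _ _) (fun w hw => (mem_filter.1 hw).2)
    have c0 := hV9 W g9 0 (TG 0) (filter_subset _ _) (fun w hw => (mem_filter.1 hw).2)
    have c2 := hV9 W g9 2 (TG 2) (filter_subset _ _) (fun w hw => (mem_filter.1 hw).2)
    have c3 := hV9 W g9 3 (TG 3) (filter_subset _ _) (fun w hw => (mem_filter.1 hw).2)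
    have c1 := hV10 W g10 1 TL (filter_subset _ _) (fun w hw => (mem_filter.1 hw).2)
    have hcov : C ⊆ T0 ∪ (T1 ∪ (TR (1 / 10000) (9 / 100) ∪ (TR (9 / 100) (18 / 100) ∪ (TR (18 / 100) (248 / 1000) ∪
        (TR (248 / 1000) (284 / 1000) ∪ (TR (284 / 1000) (332 / 1000) ∪ (TR (332 / 1000) (398 / 1000) ∪
        (TR (398 / 1000) (4999 / 10000) ∪ (TG 0 ∪ (TG 2 ∪ (TG 3 ∪ TL))))))))))) := by
      intro w hw
      have hw' := hw
      rw [hC, cand, mem_filter, mem_Ico] at hw'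
      obtain ⟨⟨hw1, hw2⟩, hwQ⟩ := hw'
      obtain ⟨p, hp, hp4, i, hi⟩ := dec crit 400 Q w0 hA w (by omega) hwQ (hcon w hw1)
      simp only [mem_union]
      rcases hi with hi | ⟨hi1, hi2⟩
      · left
        exact mem_filter.2 ⟨hw, p, hp, hp4, i, hi⟩
      right
      by_cases e1 : (p : ℝ) ≤ (W : ℝ) ^ (1 / 10000 : ℝ)
      · left
        exact mem_filter.2 ⟨hw, p, hp, hp4, e1, i, hi1, hi2⟩
      right
      by_cases e2 : (p : ℝ) ≤ (W : ℝ) ^ (9 / 100 : ℝ)
      · left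
        exact mem_filter.2 ⟨hw, p, hp, hp4, not_le.1 e1, e2, i, hi1, hi2⟩
      right
      by_cases e3 : (p : ℝ) ≤ (W : ℝ) ^ (18 / 100 : ℝ)
      · left
        exact mem_filter.2 ⟨hw, p, hp, hp4, not_le.1 e2, e3, i, hi1, hi2⟩
      right
      by_cases e4 : (p : ℝ) ≤ (W : ℝ) ^ (248 / 1000 : ℝ)
      · left
        exact mem_filter.2 ⟨hw, p, hp, hp4, not_le.1 e3, e4, i, hi1, hi2⟩
      right
      by_cases e5 : (p : ℝ) ≤ (W : ℝ) ^ (284 / 1000 : ℝ)
      · left
        exact mem_filter.2 ⟨hw, p, hp, hp4, not_le.1 e4, e5, i, hi1, hi2⟩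
      right
      by_cases e6 : (p : ℝ) ≤ (W : ℝ) ^ (332 / 1000 : ℝ)
      · left
        exact mem_filter.2 ⟨hw, p, hp, hp4, not_le.1 e5, e6, i, hi1, hi2⟩
      right
      by_cases e7 : (p : ℝ) ≤ (W : ℝ) ^ (398 / 1000 : ℝ)
      · left
        exact mem_filter.2 ⟨hw, p, hp, hp4, not_le.1 e6, e7, i, hi1, hi2⟩
      right
      by_cases e8 : (p : ℝ) ≤ (W : ℝ) ^ (4999 / 10000 : ℝ)
      · left
        exact mem_filter.2 ⟨hw, p, hp, hp4, not_le.1 e7, e8, i, hi1, hi2⟩
      right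
      have e8' := not_le.1 e8
      by_cases i1 : i = 1
      · right; right; right
        subst i1
        exact mem_filter.2 ⟨hw, p, hp, hp4, e8', hi1⟩
      by_cases e9 : (p : ℝ) ≤ (W : ℝ) ^ (5001 / 10000 : ℝ)
      · have : i = 0 ∨ i = 2 ∨ i = 3 := by
          revert i1; clear * -; revert i; decide
        rcases this with h | h | h
        · left; subst h
          exact mem_filter.2 ⟨hw, p, hp, hp4, e8', e9, hi1⟩
        · right; left; subst h
          exact mem_filter.2 ⟨hw, p, hp, hp4, e8', e9, hi1⟩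
        · right; right; left; subst h
          exact mem_filter.2 ⟨hw, p, hp, hp4, e8', e9, hi1⟩
      exfalso
      have e9' := not_le.1 e9
      refine det p w hp (by omega) (by omega) ?_ i i1 hi1 (hi2 2 le_rfl)
      have hq : (12 * w : ℝ) ≤ (p : ℝ) ^ 2 := by
        have q1 : ((W : ℝ) ^ (5001 / 10000 : ℝ)) ^ 2 ≤ (p : ℝ) ^ 2 :=
          pow_le_pow_left₀ (by positivity) e9'.le 2
        have q2 : ((W : ℝ) ^ (5001 / 10000 : ℝ)) ^ 2 = (W : ℝ) ^ (2 / 10000 : ℝ) * W := by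
          rw [← Real.rpow_natCast, ← Real.rpow_mul hWpos.le]
          nth_rewrite 3 [← Real.rpow_one (W : ℝ)]
          rw [← Real.rpow_add hWpos]
          norm_num
        have q3 := hV11 W g11
        have q4 : (w : ℝ) ≤ 2 * W := by exact_mod_cast hw2.le
        nlinarith
      exact_mod_cast hq
    have hcard := card_le_card hcov
    have hsum : #C ≤ #T0 + (#T1 + (#(TR (1 / 10000) (9 / 100)) + (#(TR (9 / 100) (18 / 100)) +
        (#(TR (18 / 100) (248 / 1000)) + (#(TR (248 / 1000) (284 / 1000)) + (#(TR (284 / 1000) (332 / 1000)) +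
        (#(TR (332 / 1000) (398 / 1000)) + (#(TR (398 / 1000) (4999 / 10000)) + (#(TG 0) + (#(TG 2) +
        (#(TG 3) + #TL))))))))))) := by
      refine hcard.trans ?_
      refine (card_union_le _ _).trans (Nat.add_le_add_left ?_ _)
      refine (card_union_le _ _).trans (Nat.add_le_add_left ?_ _)
      refine (card_union_le _ _).trans (Nat.add_le_add_left ?_ _)
      refine (card_union_le _ _).trans (Nat.add_le_add_left ?_ _)
      refine (card_union_le _ _).trans (Nat.add_le_add_left ?_ _)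
      refine (card_union_le _ _).trans (Nat.add_le_add_left ?_ _)
      refine (card_union_le _ _).trans (Nat.add_le_add_left ?_ _)
      refine (card_union_le _ _).trans (Nat.add_le_add_left ?_ _)
      refine (card_union_le _ _).trans (Nat.add_le_add_left ?_ _)
      refine (card_union_le _ _).trans (Nat.add_le_add_left ?_ _)
      refine (card_union_le _ _).trans (Nat.add_le_add_left ?_ _)
      exact card_union_le _ _
    have hsumR : (#C : ℝ) ≤ #T0 + (#T1 + (#(TR (1 / 10000) (9 / 100)) + (#(TR (9 / 100) (18 / 100)) +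
        (#(TR (18 / 100) (248 / 1000)) + (#(TR (248 / 1000) (284 / 1000)) + (#(TR (284 / 1000) (332 / 1000)) +
        (#(TR (332 / 1000) (398 / 1000)) + (#(TR (398 / 1000) (4999 / 10000)) + (#(TG 0) + (#(TG 2) +
        (#(TG 3) + #TL))))))))))) := by exact_mod_cast hsum
    have hlow := cand_card Q w0 W hA.Q_pos hA.lt
    rw [← hC] at hlow
    have hX : (30 : ℝ) ≤ (W : ℝ) / Q := by
      rw [le_div_iff₀ hQpos]; exact_mod_cast gQ
    set X : ℝ := (W : ℝ) / Q with hXd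
    have L : ∀ x : ℝ, 0 < x → Real.log x ≤ x - 1 := fun x hx => Real.log_le_sub_one_of_pos hx
    have l2 := L ((9 / 100) / (1 / 10000)) (by norm_num)
    have l3 := L ((18 / 100) / (9 / 100)) (by norm_num)
    have l4 := L ((248 / 1000) / (18 / 100)) (by norm_num)
    have l5 := L ((284 / 1000) / (248 / 1000)) (by norm_num)
    have l6 := L ((332 / 1000) / (284 / 1000)) (by norm_num)
    have l7 := L ((398 / 1000) / (332 / 1000)) (by norm_num)
    have l8 := L ((4999 / 10000) / (398 / 1000)) (by norm_num)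
    have l9 := L ((5001 / 10000) / (4999 / 10000)) (by norm_num)
    have l10 : Real.log (1 / (4999 / 10000)) ≤ 0.6931471808 + 1 / 4999 := by
      have h : (1 : ℝ) / (4999 / 10000) = 2 * (5000 / 4999) := by norm_num
      rw [h, Real.log_mul (by norm_num) (by norm_num)]
      have h1 := Real.log_two_lt_d9
      have h2 := L (5000 / 4999) (by norm_num)
      norm_num at h1 h2 ⊢
      linarith
    have X0 : 0 ≤ X := by linarith
    have m : ∀ u v : ℝ, u ≤ v → X * u ≤ X * v := fun u v h => mul_le_mul_of_nonneg_left h X0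
    have tot : (#C : ℝ) ≤ X * 0.96 := by
      have r0 := b0.trans (m _ (0.01 + 0.001) (by norm_num))
      have r1 := b1.trans (m _ (0.0048 + 0.001) (by norm_num))
      have r2 := b2.trans (m _ (0.0036 + 0.001) (by norm_num at l2 ⊢; linarith))
      have r3 := b3.trans (m _ (0.004 + 0.001) (by norm_num at l3 ⊢; linarith))
      have r4 := b4.trans (m _ (0.0120 + 0.001) (by norm_num at l4 ⊢; linarith))
      have r5 := b5.trans (m _ (0.0092 + 0.001) (by norm_num at l5 ⊢; linarith))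
      have r6 := b6.trans (m _ (0.0213 + 0.001) (by norm_num at l6 ⊢; linarith))
      have r7 := b7.trans (m _ (0.0499 + 0.001) (by norm_num at l7 ⊢; linarith))
      have r8 := b8.trans (m _ (0.1282 + 0.001) (by norm_num at l8 ⊢; linarith))
      have s0 := c0.trans (m _ (0.0005 + 0.001) (by norm_num at l9 ⊢; linarith))
      have s2 := c2.trans (m _ (0.0005 + 0.001) (by norm_num at l9 ⊢; linarith))
      have s3 := c3.trans (m _ (0.0005 + 0.001) (by norm_num at l9 ⊢; linarith))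
      have s1 := c1.trans (m _ (0.6935 + 0.001) (by norm_num at l10 ⊢; linarith))
      refine hsumR.trans ?_
      norm_num at r0 r1 r2 r3 r4 r5 r6 r7 r8 s0 s1 s2 s3 ⊢
      linarith
    norm_num at tot
    linarith
  -- conclusion
  rw [Set.infinite_iff_exists_gt]
  intro N
  set W := 2 + V0 + V1 + V2 + V3 + V4 + V5 + V6 + V7 + V8 + V9 + V10 + V11 + 30 * Q + N with hW
  obtain ⟨w, hw, hgood⟩ := key W (by omega) (by omega) (by omega) (by omega) (by omega) (by omega) (by omega)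
    (by omega) (by omega) (by omega) (by omega) (by omega) (by omega) (by omega)
  refine ⟨nn w, hgood, ?_⟩
  unfold nn
  obtain ⟨v, rfl⟩ : ∃ v, w = v + 1 := ⟨w - 1, by omega⟩
  simp only [Nat.add_sub_cancel]
  nlinarith

end Pool.Agent.H20E7
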