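import Pool.Agent.H20E7.Stm

/-!
# Project E7, stub GAP (helper30): the trivial bound
-/

set_option autoImplicit false

namespace Pool.Agent.H20E7

open Finset

theorem GAP : S_GAP := by
  intro hAP hM P0 Q w0 hA a b η ha hab hb hη
  obtain ⟨W1, hW1⟩ := hM a b (η / 2) ha hab (half_pos hη)
  have hQ : (0 : ℝ) < Q := by exact_mod_cast hA.Q_pos
  have hlim : Filter.Tendsto (fun W : ℕ => (W : ℝ) ^ (1 - b)) Filter.atTop Filter.atTop :=
    (tendsto_rpow_atTop (by linarith)).comp tendsto_natCast_atTop_atTop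
  obtain ⟨W2, hW2⟩ := Filter.eventually_atTop.mp (hlim.eventually_ge_atTop (2 * Q / η))
  refine ⟨max (max W1 W2) 1, fun W hW i S hS hbad => ?_⟩
  have h1 : W1 ≤ W := le_trans (le_trans (le_max_left _ _) (le_max_left _ _)) hW
  have h2 : W2 ≤ W := le_trans (le_trans (le_max_right _ _) (le_max_left _ _)) hW
  have h3 : 1 ≤ W := le_trans (le_max_right _ _) hW
  have hWpos : (0 : ℝ) < W := by exact_mod_cast h3
  classical
  set P := (Icc 1 ⌊(W : ℝ) ^ b⌋₊).filter (fun p : ℕ => p.Prime ∧ (W : ℝ) ^ a < p) with hP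
  have hcov : S ⊆ (P.filter (fun p => P0 < p)).biUnion
      (fun p => (cand Q w0 W).filter (fun w => p ∣ fm i w)) := by
    intro w hw
    obtain ⟨p, hp, hP0, hpa, hpb, hdvd⟩ := hbad w hw
    simp only [mem_biUnion, mem_filter, P, mem_Icc]
    exact ⟨p, ⟨⟨⟨hp.one_lt.le, Nat.le_floor hpb⟩, hp, hpa⟩, hP0⟩, hS hw, hdvd⟩
  have hcard : ∀ p ∈ P.filter (fun p => P0 < p),
      (#((cand Q w0 W).filter (fun w => p ∣ fm i w)) : ℝ) ≤ W / (p * Q) + 1 := by
    intro p hp
    simp only [mem_filter, P, mem_Icc] at hp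
    obtain ⟨τ, U, _, hEq, hU, _⟩ := hAP P0 Q w0 hA W p h3 hp.1.2.1 hp.2 i
    rw [hEq]
    have : (#((range U).image (fun u => τ + p * Q * u)) : ℝ) ≤ U := by
      exact_mod_cast (card_image_le.trans (by simp))
    linarith [(abs_le.mp hU).2]
  have hPc : (#P : ℝ) ≤ W / Q * (η / 2) := by
    have e1 : (#P : ℝ) ≤ ⌊(W : ℝ) ^ b⌋₊ := by
      exact_mod_cast (card_filter_le _ _).trans (by simp)
    have e2 : ((⌊(W : ℝ) ^ b⌋₊ : ℕ) : ℝ) ≤ (W : ℝ) ^ b := Nat.floor_le (by positivity)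
    have e3 := hW2 W h2
    have e4 : (W : ℝ) ^ (1 - b) * (W : ℝ) ^ b = W := by
      rw [← Real.rpow_add hWpos]; simp
    have e5 : (0 : ℝ) < (W : ℝ) ^ b := by positivity
    have e6 : 2 * Q / η * (W : ℝ) ^ b ≤ W := by
      calc 2 * Q / η * (W : ℝ) ^ b ≤ (W : ℝ) ^ (1 - b) * (W : ℝ) ^ b := by gcongr
        _ = W := e4
    have e7 : (W : ℝ) ^ b ≤ W / Q * (η / 2) := by
      calc (W : ℝ) ^ b = (2 * Q / η * (W : ℝ) ^ b) / Q * (η / 2) := by field_simp
        _ ≤ W / Q * (η / 2) := by gcongr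
    linarith
  calc (#S : ℝ) ≤ #((P.filter (fun p => P0 < p)).biUnion
          (fun p => (cand Q w0 W).filter (fun w => p ∣ fm i w))) := by
        exact_mod_cast card_le_card hcov
    _ ≤ ∑ p ∈ P.filter (fun p => P0 < p), (#((cand Q w0 W).filter (fun w => p ∣ fm i w)) : ℝ) := by
        exact_mod_cast card_biUnion_le
    _ ≤ ∑ p ∈ P.filter (fun p => P0 < p), ((W : ℝ) / (p * Q) + 1) := sum_le_sum hcard
    _ ≤ ∑ p ∈ P, ((W : ℝ) / (p * Q) + 1) :=
        sum_le_sum_of_subset_of_nonneg (filter_subset _ _) (fun _ _ _ => by positivity)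
    _ = W / Q * ∑ p ∈ P, (1 : ℝ) / p + #P := by
        rw [sum_add_distrib, mul_sum]
        congr 1
        · apply sum_congr rfl
          intro p _
          rw [div_mul_div_comm, mul_one, mul_comm (p : ℝ)]
        · simp
    _ ≤ W / Q * (Real.log (b / a) + η / 2) + W / Q * (η / 2) := by
        have := hW1 W h1
        gcongr
    _ = W / Q * (Real.log (b / a) + η) := by ring

end Pool.Agent.H20E7
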