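import Pool.Agent.H20E7.Stm

/-! # Project E7, stub JS (helper92): the joint exponential sums -/

set_option autoImplicit false

namespace Pool.Agent.H20E7

open Finset

namespace JSaux

theorem e_add (x y : ℝ) : e (x + y) = e x * e y := by
  unfold e
  rw [← Complex.exp_add]
  congr 1
  push_cast
  ring

theorem e_int (n : ℤ) : e (n : ℝ) = 1 := by
  unfold e
  rw [Complex.exp_eq_one_iff]
  exact ⟨n, by push_cast; ring⟩

theorem e_norm (x : ℝ) : ‖e x‖ = 1 := by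
  unfold e
  have h : (2 * Real.pi * Complex.I * x : ℂ) = ((2 * Real.pi * x : ℝ) : ℂ) * Complex.I := by
    push_cast
    ring
  rw [h, Complex.norm_exp_ofReal_mul_I]

theorem e_nat_mul (n : ℕ) (x : ℝ) : e (n * x) = e x ^ n := by
  unfold e
  rw [← Complex.exp_nat_mul]
  congr 1
  push_cast
  ring

/-- geometric sums -/
theorem geo {p : ℕ} (hp : p.Prime) {b : ℤ} (hb : ¬ (p : ℤ) ∣ b) (U : ℕ) :
    ‖∑ u ∈ range U, e ((b : ℝ) / p * u)‖ ≤ p := by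
  have hp0 : (p : ℝ) ≠ 0 := by exact_mod_cast hp.ne_zero
  have h1 : ∀ u ∈ range U, e ((b : ℝ) / p * u) = e ((b : ℝ) / p) ^ u := by
    intro u _
    rw [mul_comm, e_nat_mul]
  rw [sum_congr rfl h1]
  have h2 : e ((b : ℝ) / p) ^ p = 1 := by
    rw [← e_nat_mul, mul_div_cancel₀ _ hp0, e_int]
  have h3 : e ((b : ℝ) / p) ≠ 1 := by
    intro h
    unfold e at h
    rw [Complex.exp_eq_one_iff] at h
    obtain ⟨n, hn⟩ := h
    apply hb
    refine ⟨n, ?_⟩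
    have hpi : (2 * Real.pi * Complex.I : ℂ) ≠ 0 := by simp [Real.pi_ne_zero]
    have h4 : (((b : ℝ) / p : ℝ) : ℂ) = (n : ℂ) := by
      have : (2 * Real.pi * Complex.I : ℂ) * (((b : ℝ) / p : ℝ) : ℂ) =
          (2 * Real.pi * Complex.I) * (n : ℂ) := by
        rw [hn]
        ring
      exact mul_left_cancel₀ hpi this
    have h5 : (b : ℝ) / p = (n : ℝ) := by exact_mod_cast h4
    rw [div_eq_iff hp0] at h5
    have h6 : (b : ℝ) = ((n * p : ℤ) : ℝ) := by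
      push_cast
      exact h5
    have h7 : b = n * p := by exact_mod_cast h6
    rw [h7, mul_comm]
  rw [geom_sum_eq h3, pow_eq_pow_mod U h2, ← geom_sum_eq h3]
  refine (norm_sum_le _ _).trans ?_
  have h8 : ∀ u ∈ range (U % p), ‖e ((b : ℝ) / p) ^ u‖ = 1 := by
    intro u _
    rw [norm_pow, e_norm, one_pow]
  rw [sum_congr rfl h8, sum_const, card_range, nsmul_eq_mul, mul_one]
  exact_mod_cast (Nat.mod_lt U hp.pos).le

/-- the last nonzero coefficient -/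
theorem last {R : ℕ} {h : ℕ → ℤ} (hh : ∃ i ∈ range R, h i ≠ 0) :
    ∃ i0 < R, h i0 ≠ 0 ∧ ∀ i, i0 < i → i < R → h i = 0 := by
  obtain ⟨i, hi, hi0⟩ := hh
  have hne : ((range R).filter (fun i => h i ≠ 0)).Nonempty := ⟨i, mem_filter.2 ⟨hi, hi0⟩⟩
  have hm := ((range R).filter (fun i => h i ≠ 0)).max'_mem hne
  rw [mem_filter, mem_range] at hm
  refine ⟨_, hm.1, hm.2, fun j hj hjR => ?_⟩
  by_contra hcon
  have := ((range R).filter (fun i => h i ≠ 0)).le_max' j (mem_filter.2 ⟨mem_range.2 hjR, hcon⟩)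
  omega

/-- the combined coefficient -/
def KK (p i0 : ℕ) (h : ℕ → ℤ) : ℤ := ∑ i ∈ range (i0 + 1), h i * (p : ℤ) ^ (i0 - i)

theorem KK_dvd {p i0 H : ℕ} {h : ℕ → ℤ} (hH : ∀ i, |h i| ≤ H) (hp : H < p) (h0 : h i0 ≠ 0) :
    ¬ (p : ℤ) ∣ KK p i0 h := by
  intro hd
  unfold KK at hd
  rw [sum_range_succ, Nat.sub_self, pow_zero, mul_one] at hd
  have h1 : (p : ℤ) ∣ ∑ i ∈ range i0, h i * (p : ℤ) ^ (i0 - i) := by
    refine dvd_sum fun i hi => ?_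
    have : i0 - i ≠ 0 := by
      have := mem_range.1 hi
      omega
    exact (dvd_pow_self _ this).mul_left _
  have h2 : (p : ℤ) ∣ h i0 := (dvd_add_right h1).1 hd
  have h3 := Int.le_of_dvd (abs_pos.2 h0) ((dvd_abs _ _).2 h2)
  have h4 := hH i0
  have h5 : (H : ℤ) < p := by exact_mod_cast hp
  omega

theorem KK_sum {p R i0 : ℕ} {h : ℕ → ℤ} (hp : 0 < p) (hi0 : i0 < R)
    (hl : ∀ i, i0 < i → i < R → h i = 0) (N : ℝ) :
    ∑ i ∈ range R, (h i : ℝ) * (N / (p : ℝ) ^ (i + 2)) = (KK p i0 h : ℝ) * N / (p : ℝ) ^ (i0 + 2) := by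
  have hp0 : (p : ℝ) ≠ 0 := by exact_mod_cast hp.ne'
  have h1 : ∑ i ∈ range R, (h i : ℝ) * (N / (p : ℝ) ^ (i + 2)) =
      ∑ i ∈ range (i0 + 1), (h i : ℝ) * (N / (p : ℝ) ^ (i + 2)) := by
    symm
    refine sum_subset (range_subset_range.2 hi0) fun i hi hi' => ?_
    rw [mem_range] at hi hi'
    rw [hl i (by omega) hi]
    simp
  rw [h1]
  unfold KK
  push_cast
  rw [sum_mul, sum_div]
  refine sum_congr rfl fun i hi => ?_
  have hi' : i ≤ i0 := by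
    have := mem_range.1 hi
    omega
  have h2 : (p : ℝ) ^ (i0 + 2) = (p : ℝ) ^ (i0 - i) * (p : ℝ) ^ (i + 2) := by
    rw [← pow_add]
    congr 1
    omega
  rw [h2]
  field_simp

end JSaux

open JSaux

theorem JS : S_JS := by
  intro hWS R H η hη
  obtain ⟨C, hC⟩ := hWS
  obtain ⟨C', hC'⟩ : ∃ C', C' = max C 0 := ⟨_, rfl⟩
  have hC'0 : 0 ≤ C' := by rw [hC']; exact le_max_right _ _
  have hCC' : C ≤ C' := by rw [hC']; exact le_max_left _ _
  obtain ⟨M0, hM0⟩ : ∃ M0 : ℕ, M0 = max (H + 3) (max ⌈1 / η⌉₊ ⌈C' * (2 * R + 3) / η ^ 2⌉₊) :=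
    ⟨_, rfl⟩
  have hM1 : H + 3 ≤ M0 := by rw [hM0]; exact le_max_left _ _
  have hM2 : 1 / η ≤ M0 := by
    refine (Nat.le_ceil _).trans ?_
    rw [hM0]
    exact_mod_cast (le_max_left _ _).trans (le_max_right _ _)
  have hM3 : C' * (2 * R + 3) / η ^ 2 ≤ M0 := by
    refine (Nat.le_ceil _).trans ?_
    rw [hM0]
    exact_mod_cast (le_max_right _ _).trans (le_max_right _ _)
  have hM00 : (0 : ℝ) < M0 := by exact_mod_cast (by omega : 0 < M0)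
  refine ⟨M0, ?_⟩
  intro p hp hMp A B E hA hB U hU1 hU2 h hH hh
  obtain ⟨i0, hi0, hne, hl⟩ := last hh
  have hpK := KK_dvd (i0 := i0) hH (by omega : H < p) hne
  obtain ⟨K, hK⟩ : ∃ K, K = KK p i0 h := ⟨_, rfl⟩
  have hpp : Prime (p : ℤ) := Nat.prime_iff_prime_int.1 hp
  have hp0 : (p : ℝ) ≠ 0 := by exact_mod_cast hp.ne_zero
  have hp1 : (3 : ℝ) ≤ p := by exact_mod_cast (by omega : 3 ≤ p)
  have hU1' : (M0 : ℝ) * p ≤ U := by exact_mod_cast hU1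
  have hUp : (p : ℝ) ≤ U / M0 := by
    rw [le_div_iff₀ hM00]
    linarith
  have hU0 : (0 : ℝ) ≤ U := Nat.cast_nonneg _
  rw [← hK] at hpK
  have hAK : ¬ (p : ℤ) ∣ A * K := fun hd => (hpp.dvd_or_dvd hd).elim hA hpK
  have hBK : ¬ (p : ℤ) ∣ B * K := fun hd => (hpp.dvd_or_dvd hd).elim hB hpK
  -- the phase
  have hph : ∀ u ∈ range U,
      e (∑ i ∈ range R, h i * (((A * p ^ 2 * u ^ 2 + B * p * u + E : ℤ) : ℝ) / (p : ℝ) ^ (i + 2))) =
      e ((K : ℝ) * E / (p : ℝ) ^ (i0 + 2)) *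
        e (((A * K : ℤ) : ℝ) * (u : ℝ) ^ 2 / ((p ^ i0 : ℕ) : ℝ) +
          ((B * K : ℤ) : ℝ) / (p : ℝ) ^ (i0 + 1) * u) := by
    intro u _
    rw [KK_sum hp.pos hi0 hl, ← hK, ← e_add]
    congr 1
    push_cast
    have h1 : (p : ℝ) ^ (i0 + 2) = (p : ℝ) ^ i0 * p ^ 2 := pow_add _ _ _
    have h2 : (p : ℝ) ^ (i0 + 1) = (p : ℝ) ^ i0 * p := pow_succ _ _
    rw [h1, h2]
    field_simp
    ring
  rw [sum_congr rfl hph, ← mul_sum, norm_mul, e_norm, one_mul]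
  rcases Nat.eq_zero_or_pos i0 with h00 | h00
  · -- only the position 2
    subst h00
    have h1 : ∀ u ∈ range U, e (((A * K : ℤ) : ℝ) * (u : ℝ) ^ 2 / ((p ^ 0 : ℕ) : ℝ) +
          ((B * K : ℤ) : ℝ) / (p : ℝ) ^ (0 + 1) * u) = e (((B * K : ℤ) : ℝ) / p * u) := by
      intro u _
      rw [e_add]
      have h2 : ((A * K : ℤ) : ℝ) * (u : ℝ) ^ 2 / ((p ^ 0 : ℕ) : ℝ) =
          ((A * K * u ^ 2 : ℤ) : ℝ) := by
        push_cast
        ring
      rw [h2, e_int, one_mul, zero_add, pow_one]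
    rw [sum_congr rfl h1]
    refine (geo hp hBK U).trans (hUp.trans ?_)
    rw [div_le_iff₀ hM00]
    have : 1 ≤ η * M0 := by
      rw [div_le_iff₀ hη] at hM2
      linarith
    nlinarith
  · -- Weyl's bound
    have hodd : Odd (p ^ i0) := (hp.odd_of_ne_two (by omega)).pow
    have hcop : IsCoprime (A * K) ((p ^ i0 : ℕ) : ℤ) := by
      push_cast
      exact ((hpp.irreducible.coprime_iff_not_dvd).2 hAK).symm.pow_right
    have hw := hC (p ^ i0) (A * K) (((B * K : ℤ) : ℝ) / (p : ℝ) ^ (i0 + 1)) U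
      (Nat.one_le_pow _ _ hp.pos) hodd hcop
    refine abs_le_of_sq_le_sq' (hw.trans ?_) (by positivity) |>.2
    -- numbers
    obtain ⟨lg, hlg⟩ : ∃ lg, lg = Real.log p := ⟨_, rfl⟩
    rw [← hlg] at hU2
    have hlg1 : 1 ≤ lg := by
      rw [hlg, Real.le_log_iff_exp_le (by linarith)]
      linarith [Real.exp_one_lt_d9]
    have hlgp : lg ≤ p := by
      rw [hlg]
      have := Real.log_le_sub_one_of_pos (by linarith : (0 : ℝ) < p)
      linarith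
    have hlogq : Real.log ((p ^ i0 : ℕ) : ℝ) = i0 * lg := by
      rw [hlg]
      push_cast
      rw [Real.log_pow]
    have hi0R : (i0 : ℝ) ≤ R := by exact_mod_cast hi0.le
    have hR0 : (0 : ℝ) ≤ R := Nat.cast_nonneg _
    have hlq : 1 + Real.log ((p ^ i0 : ℕ) : ℝ) ≤ (R + 1) * lg := by
      rw [hlogq]
      nlinarith
    have hlq0 : 0 ≤ 1 + Real.log ((p ^ i0 : ℕ) : ℝ) := by
      rw [hlogq]
      positivity
    have hq1 : (p : ℝ) ≤ ((p ^ i0 : ℕ) : ℝ) := by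
      push_cast
      exact le_self_pow₀ (by linarith) (by omega)
    have hq2 : ((p ^ i0 : ℕ) : ℝ) ≤ (p : ℝ) ^ (R - 1) := by
      push_cast
      exact pow_le_pow_right₀ (by linarith) (by omega)
    have hMp' : (M0 : ℝ) ≤ p := by exact_mod_cast hMp
    have t1 : (U : ℝ) ^ 2 / ((p ^ i0 : ℕ) : ℝ) ≤ (U : ℝ) ^ 2 / M0 :=
      div_le_div_of_nonneg_left (by positivity) hM00 (hMp'.trans hq1)
    have t2 : (U : ℝ) * (1 + Real.log ((p ^ i0 : ℕ) : ℝ)) ≤ (R + 1) * ((U : ℝ) ^ 2 / M0) := by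
      calc (U : ℝ) * (1 + Real.log ((p ^ i0 : ℕ) : ℝ)) ≤ U * ((R + 1) * lg) := by gcongr
        _ ≤ U * ((R + 1) * (U / M0)) := by
          gcongr
          exact hlgp.trans hUp
        _ = (R + 1) * ((U : ℝ) ^ 2 / M0) := by ring
    have t3 : ((p ^ i0 : ℕ) : ℝ) * (1 + Real.log ((p ^ i0 : ℕ) : ℝ)) ≤
        (R + 1) * ((U : ℝ) ^ 2 / M0) := by
      calc ((p ^ i0 : ℕ) : ℝ) * (1 + Real.log ((p ^ i0 : ℕ) : ℝ)) ≤
            (p : ℝ) ^ (R - 1) * ((R + 1) * lg) := by gcongr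
        _ = (R + 1) * ((p : ℝ) ^ (R - 1) * lg) := by ring
        _ ≤ (R + 1) * ((U : ℝ) ^ 2 / M0) := by
          gcongr
          rw [le_div_iff₀ hM00]
          linarith
    have t4 : (U : ℝ) ^ 2 / ((p ^ i0 : ℕ) : ℝ) + (U + ((p ^ i0 : ℕ) : ℝ)) *
        (1 + Real.log ((p ^ i0 : ℕ) : ℝ)) ≤ (2 * R + 3) * ((U : ℝ) ^ 2 / M0) := by
      nlinarith
    have t5 : 0 ≤ (U : ℝ) ^ 2 / ((p ^ i0 : ℕ) : ℝ) + (U + ((p ^ i0 : ℕ) : ℝ)) *
        (1 + Real.log ((p ^ i0 : ℕ) : ℝ)) := by positivity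
    calc C * ((U : ℝ) ^ 2 / ((p ^ i0 : ℕ) : ℝ) + (U + ((p ^ i0 : ℕ) : ℝ)) *
          (1 + Real.log ((p ^ i0 : ℕ) : ℝ)))
        ≤ C' * ((U : ℝ) ^ 2 / ((p ^ i0 : ℕ) : ℝ) + (U + ((p ^ i0 : ℕ) : ℝ)) *
          (1 + Real.log ((p ^ i0 : ℕ) : ℝ))) := mul_le_mul_of_nonneg_right hCC' t5
      _ ≤ C' * ((2 * R + 3) * ((U : ℝ) ^ 2 / M0)) := mul_le_mul_of_nonneg_left t4 hC'0
      _ = (C' * (2 * R + 3)) * ((U : ℝ) ^ 2 / M0) := by ring
      _ ≤ (M0 * η ^ 2) * ((U : ℝ) ^ 2 / M0) := by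
          refine mul_le_mul_of_nonneg_right ?_ (by positivity)
          rw [div_le_iff₀ (by positivity)] at hM3
          linarith
      _ = (η * U) ^ 2 := by
          field_simp

end Pool.Agent.H20E7
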