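import Pool.Agent.H20E7.Stm

set_option autoImplicit false

namespace Pool.Agent.H20E7

open Finset

theorem fm_le (i : Fin 4) (w : ℕ) : fm i w ≤ 6 * w := by
  fin_cases i <;> simp [fm] <;> omega

theorem fm_pos (i : Fin 4) (w : ℕ) (hw : 1 ≤ w) : 1 ≤ fm i w := by
  fin_cases i <;> simp [fm] <;> omega

/-- `pi(12 W) ≤ c W` for large `W` -/
theorem pi_small (c : ℝ) (hc : 0 < c) : ∃ W1 : ℕ, ∀ W : ℕ, W1 ≤ W →
    ((Nat.primeCounting (12 * W) : ℕ) : ℝ) ≤ c * W := by
  have h1 := Chebyshev.eventually_primeCounting_le (ε := 1) one_pos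
  have h2 := Real.tendsto_log_atTop.eventually_ge_atTop (12 * (Real.log 4 + 1) / c)
  have h3 := ((h1.and h2).and (Filter.eventually_ge_atTop (2 : ℝ)))
  have h4 : Filter.Tendsto (fun W : ℕ => (12 : ℝ) * W) Filter.atTop Filter.atTop :=
    Filter.Tendsto.const_mul_atTop (by norm_num) tendsto_natCast_atTop_atTop
  obtain ⟨W1, hW1⟩ := Filter.eventually_atTop.1 (h4.eventually h3)
  refine ⟨W1, fun W hW => ?_⟩
  obtain ⟨⟨g1, g2⟩, g3⟩ := hW1 W hW
  have hfl : ⌊(12 : ℝ) * W⌋₊ = 12 * W := by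
    have : (12 : ℝ) * W = ((12 * W : ℕ) : ℝ) := by push_cast; ring
    rw [this, Nat.floor_natCast]
  rw [hfl] at g1
  have hlog : 0 < Real.log ((12 : ℝ) * W) := Real.log_pos (by linarith)
  have hW0 : (0 : ℝ) ≤ W := Nat.cast_nonneg W
  refine g1.trans ?_
  rw [div_le_iff₀ hlog]
  have h5 : 12 * (Real.log 4 + 1) ≤ Real.log ((12 : ℝ) * W) * c := by
    rwa [div_le_iff₀ hc] at g2
  nlinarith

theorem LARGE : S_LARGE := by
  classical
  intro ap mert P0 Q w0 hA a η ha ha1 hη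
  have hQ : (0 : ℝ) < Q := by exact_mod_cast hA.Q_pos
  have hb : a < 1 + η / 3 := by linarith
  obtain ⟨W1, hW1⟩ := mert a (1 + η / 3) (η / 3) ha hb (by linarith)
  obtain ⟨W2, hW2⟩ := pi_small (η / 3 / Q) (by positivity)
  have hpow : Filter.Tendsto (fun W : ℕ => ((W : ℕ) : ℝ) ^ (η / 3)) Filter.atTop Filter.atTop :=
    (tendsto_rpow_atTop (by linarith)).comp tendsto_natCast_atTop_atTop
  obtain ⟨W3, hW3⟩ := Filter.eventually_atTop.1 (hpow.eventually_ge_atTop 12)
  refine ⟨max (max W1 W2) (max W3 1), fun W hW i S hS hSp => ?_⟩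
  have hWW1 : W1 ≤ W := (le_max_left _ _).trans ((le_max_left _ _).trans hW)
  have hWW2 : W2 ≤ W := (le_max_right _ _).trans ((le_max_left _ _).trans hW)
  have hWW3 : W3 ≤ W := (le_max_left _ _).trans ((le_max_right _ _).trans hW)
  have hW0 : 1 ≤ W := (le_max_right _ _).trans ((le_max_right _ _).trans hW)
  have hWr : (0 : ℝ) < W := by exact_mod_cast hW0
  have hM := hW1 W hWW1
  have hPi := hW2 W hWW2
  have h12 := hW3 W hWW3
  have hpowW : (12 : ℝ) * W ≤ (W : ℝ) ^ (1 + η / 3) := by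
    rw [Real.rpow_add hWr, Real.rpow_one]
    nlinarith
  -- the set of relevant primes
  set P : Finset ℕ := (Icc 1 (12 * W)).filter (fun p : ℕ => p.Prime ∧ P0 < p ∧ (W : ℝ) ^ a < p) with hP
  have hcover : S ⊆ P.biUnion (fun p => (cand Q w0 W).filter (fun w => p ∣ fm i w)) := by
    intro w hw
    obtain ⟨p, hp, hp0, hpa, hpd⟩ := hSp w hw
    have hwc := hS hw
    have hw2 : W ≤ w ∧ w < 2 * W := by
      have := (mem_filter.1 hwc).1
      exact mem_Ico.1 this
    rw [mem_biUnion]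
    refine ⟨p, ?_, mem_filter.2 ⟨hwc, hpd⟩⟩
    rw [hP, mem_filter, mem_Icc]
    refine ⟨⟨hp.one_lt.le, ?_⟩, hp, hp0, hpa⟩
    have h1 := Nat.le_of_dvd (fm_pos i w (by omega)) hpd
    have h2 := fm_le i w
    omega
  have hcard : ∀ p ∈ P, (#((cand Q w0 W).filter (fun w => p ∣ fm i w)) : ℝ) ≤ W / Q * (1 / p) + 1 := by
    intro p hp
    rw [hP, mem_filter] at hp
    obtain ⟨τ, U, -, hτ, hU, -⟩ := ap P0 Q w0 hA W p hW0 hp.2.1 hp.2.2.1 i
    rw [hτ]
    have h1 : (#((range U).image (fun u => τ + p * Q * u)) : ℝ) ≤ U := by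
      have := card_image_le (s := range U) (f := fun u => τ + p * Q * u)
      rw [card_range] at this
      exact_mod_cast this
    have h2 := (abs_le.1 hU).2
    have h3 : (W : ℝ) / (p * Q) = W / Q * (1 / p) := by
      have hp' : (p : ℝ) ≠ 0 := by
        have := hp.2.1.pos
        positivity
      field_simp
    rw [h3] at h2
    linarith
  have h1 : (#S : ℝ) ≤ ∑ p ∈ P, (W / Q * (1 / (p : ℝ)) + 1) := by
    calc (#S : ℝ) ≤ (#(P.biUnion (fun p => (cand Q w0 W).filter (fun w => p ∣ fm i w))) : ℝ) := by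
          exact_mod_cast card_le_card hcover
      _ ≤ ((∑ p ∈ P, #((cand Q w0 W).filter (fun w => p ∣ fm i w)) : ℕ) : ℝ) := by
          exact_mod_cast card_biUnion_le
      _ = ∑ p ∈ P, (#((cand Q w0 W).filter (fun w => p ∣ fm i w)) : ℝ) := by push_cast; rfl
      _ ≤ _ := sum_le_sum hcard
  rw [sum_add_distrib, ← mul_sum, sum_const, nsmul_eq_mul, mul_one] at h1
  -- number of primes
  have h2 : (#P : ℝ) ≤ η / 3 / Q * W := by
    refine le_trans ?_ hPi
    rw [← Nat.primesLE_card_eq_primeCounting]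
    have : P ⊆ Nat.primesLE (12 * W) := by
      intro p hp
      rw [hP, mem_filter, mem_Icc] at hp
      rw [Nat.mem_primesLE]
      exact ⟨hp.1.2, hp.2.1⟩
    exact_mod_cast card_le_card this
  -- Mertens
  have h3 : ∑ p ∈ P, (1 : ℝ) / p ≤ Real.log ((1 + η / 3) / a) + η / 3 := by
    refine le_trans ?_ hM
    refine sum_le_sum_of_subset_of_nonneg ?_ (fun p _ _ => by positivity)
    intro p hp
    rw [hP, mem_filter, mem_Icc] at hp
    rw [mem_filter, mem_Icc]
    refine ⟨⟨hp.1.1, ?_⟩, hp.2.1, hp.2.2.2⟩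
    refine Nat.le_floor (le_trans ?_ hpowW)
    exact_mod_cast hp.1.2
  have h4 : Real.log ((1 + η / 3) / a) ≤ Real.log (1 / a) + η / 3 := by
    rw [Real.log_div (by positivity) ha.ne', Real.log_div one_ne_zero ha.ne', Real.log_one]
    have := Real.log_le_sub_one_of_pos (show (0 : ℝ) < 1 + η / 3 by positivity)
    linarith
  have h5 : (0 : ℝ) ≤ W / Q := by positivity
  have h6 : (W : ℝ) / Q * ∑ p ∈ P, (1 : ℝ) / p ≤ W / Q * (Real.log (1 / a) + η / 3 + η / 3) :=
    mul_le_mul_of_nonneg_left (by linarith) h5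
  have h7 : η / 3 / Q * (W : ℝ) = W / Q * (η / 3) := by ring
  rw [h7] at h2
  calc (#S : ℝ) ≤ _ := h1
    _ ≤ W / Q * (Real.log (1 / a) + η / 3 + η / 3) + W / Q * (η / 3) := add_le_add h6 h2
    _ = W / Q * (Real.log (1 / a) + η) := by ring

end Pool.Agent.H20E7
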