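import Pool.Agent.H20E7.Stm

/-!
# Project E7 (helper20), stub MED (helper63): the sum over the primes `P0 < p ≤ W^δ`
-/

set_option autoImplicit false

namespace Pool.Agent.H20E7

open Finset Filter

lemma MED_pow (n : ℕ) : (n : ℝ) ≤ (3 / 2 : ℝ) ^ n := by
  induction n with
  | zero => norm_num
  | succ k ih =>
    rcases Nat.lt_or_ge k 2 with h | h
    · interval_cases k <;> norm_num
    · have h2 : (2 : ℝ) ≤ k := by exact_mod_cast h
      rw [pow_succ]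
      push_cast
      nlinarith

/-- the bound for one prime and one form -/
lemma MED_one {p U W Q : ℕ} (hp : 2 ≤ p) (hQ : 1 ≤ Q) {V : ℝ} (hV1 : 1 ≤ V) (hV4 : V ^ 4 = W) (hpV : (p : ℝ) ≤ V)
    (hQV : 2 * (Q : ℝ) ≤ V) (hlW : 0 < Real.log W) (hU : |(U : ℝ) - W / (p * Q)| ≤ 1) :
    U ≠ 0 ∧ 2 * (U : ℝ) * (2 / 3 : ℝ) ^ (Nat.log p U) ≤ 12 * (W / Q) * (Real.log p / p) / Real.log W := by
  have hp0 : (0 : ℝ) < p := by exact_mod_cast (by omega : 0 < p)
  have hp1 : (1 : ℝ) < p := by exact_mod_cast (by omega : 1 < p)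
  have hQ0 : (0 : ℝ) < Q := by exact_mod_cast (by omega : 0 < Q)
  have hpQ : (0 : ℝ) < p * Q := by positivity
  have hV0 : 0 < V := by linarith
  have hW0 : (0 : ℝ) ≤ W := Nat.cast_nonneg _
  -- `W/(pQ) ≥ 2 V^2`
  have h1 : 2 * V ^ 2 ≤ W / (p * Q) := by
    rw [le_div_iff₀ hpQ, ← hV4]
    have h2 : (p : ℝ) * (2 * Q) ≤ V * V := mul_le_mul hpV hQV (by positivity) hV0.le
    have h3 : 0 ≤ V ^ 2 := by positivity
    nlinarith [mul_le_mul_of_nonneg_left h2 h3]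
  have h2 := abs_le.mp hU
  have hV2 : 1 ≤ V ^ 2 := one_le_pow₀ hV1
  have h3 : V ^ 2 ≤ U := by linarith [h2.1]
  have hU0 : (0 : ℝ) < U := by linarith
  have hUne : U ≠ 0 := by
    rintro rfl
    simp at hU0
  refine ⟨hUne, ?_⟩
  have h4 : (U : ℝ) ≤ 2 * (W / (p * Q)) := by linarith [h2.2]
  set r := Nat.log p U with hr
  have h5 : U < p ^ (r + 1) := Nat.lt_pow_succ_log_self (by omega) U
  have hlp : 0 < Real.log p := Real.log_pos hp1
  have h6 : Real.log U ≤ (r + 1) * Real.log p := by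
    have : Real.log U ≤ Real.log ((p : ℝ) ^ (r + 1)) := Real.log_le_log hU0 (by exact_mod_cast h5.le)
    rw [Real.log_pow] at this
    push_cast at this
    exact this
  have h7 : Real.log W / 2 ≤ Real.log U := by
    have h8 : Real.log (V ^ 2) ≤ Real.log U := Real.log_le_log (by positivity) h3
    rw [← hV4, Real.log_pow]
    rw [Real.log_pow] at h8
    push_cast at h8 ⊢
    linarith
  have hr0 : (0 : ℝ) < (r : ℝ) + 1 := by positivity
  have h8 : (2 / 3 : ℝ) ^ r ≤ 3 / 2 / (r + 1) := by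
    have h9 := MED_pow (r + 1)
    push_cast at h9
    have h10 : (2 / 3 : ℝ) ^ r * (3 / 2 : ℝ) ^ (r + 1) = 3 / 2 := by
      rw [pow_succ, ← mul_assoc, ← mul_pow]
      norm_num
    rw [le_div_iff₀ hr0, ← h10]
    exact mul_le_mul_of_nonneg_left h9 (by positivity)
  have h9 : (2 / 3 : ℝ) ^ r ≤ 3 * Real.log p / Real.log W := by
    refine h8.trans ?_
    rw [div_le_div_iff₀ hr0 hlW]
    nlinarith
  calc 2 * (U : ℝ) * (2 / 3 : ℝ) ^ r ≤ 2 * (2 * (W / (p * Q))) * (3 * Real.log p / Real.log W) := by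
        refine mul_le_mul (by linarith) h9 (by positivity) (by positivity)
    _ = _ := by
      field_simp
      ring

theorem MED : S_MED := by
  classical
  intro hAP hM1 hML P0 Q w0 hA δ η hδ hδ4 hη
  obtain ⟨C, hC⟩ := hML
  have tz : Tendsto (fun W : ℕ => (W : ℝ)) atTop atTop := tendsto_natCast_atTop_atTop
  have e1 : ∀ᶠ W : ℕ in atTop, 2 * (Q : ℝ) ≤ (W : ℝ) ^ (1 / 4 : ℝ) :=
    ((tendsto_rpow_atTop (by norm_num)).comp tz).eventually_ge_atTop _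
  have e2 : ∀ᶠ W : ℕ in atTop, 48 * C / η ≤ Real.log W :=
    (Real.tendsto_log_atTop.comp tz).eventually_ge_atTop _
  obtain ⟨W1, hW1⟩ := eventually_atTop.mp (e1.and (e2.and (eventually_ge_atTop 2)))
  refine ⟨W1, fun W hW S hS hbad => ?_⟩
  obtain ⟨f1, f2, f3⟩ := hW1 W hW
  have hW2 : (2 : ℝ) ≤ W := by exact_mod_cast f3
  have hQ1 : 1 ≤ Q := hA.Q_pos
  have hQ0 : (0 : ℝ) < Q := by exact_mod_cast hA.Q_pos
  set V : ℝ := (W : ℝ) ^ (1 / 4 : ℝ) with hV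
  have hV1 : 1 ≤ V := Real.one_le_rpow (by linarith) (by norm_num)
  have hV4 : V ^ 4 = W := by
    rw [hV, ← Real.rpow_natCast, ← Real.rpow_mul (by linarith)]
    norm_num
  have hlW : 0 < Real.log W := Real.log_pos (by linarith)
  have hWδ : (W : ℝ) ^ δ ≤ V := Real.rpow_le_rpow_of_exponent_le (by linarith) hδ4
  set Pr : Finset ℕ := (Icc 1 ⌊(W : ℝ) ^ δ⌋₊).filter (fun p => p.Prime ∧ P0 < p) with hPr
  have key : ∀ p ∈ Pr, ∀ i : Fin 4,
      (#(S.filter (fun w => p ∣ fm i w ∧ ∀ j : ℕ, 2 ≤ j → NC p w j)) : ℝ) ≤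
        12 * (W / Q) * (Real.log p / p) / Real.log W := by
    intro p hp i
    obtain ⟨hp1, hpp, hpP⟩ := mem_filter.mp hp
    have hpW : (p : ℝ) ≤ (W : ℝ) ^ δ :=
      (Nat.cast_le.mpr (mem_Icc.mp hp1).2).trans (Nat.floor_le (by positivity))
    have hp2 := hpp.two_le
    have hp3 : 3 ≤ p := by
      have := hA.P0_ge
      omega
    obtain ⟨τ, U, hτ, himg, hU, hnd⟩ := hAP P0 Q w0 hA W p (by omega) hpp hpP i
    obtain ⟨hU0, hbd⟩ := MED_one hp2 hQ1 hV1 hV4 (hpW.trans hWδ) f1 hlW hU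
    set r := Nat.log p U with hr
    have hB : ¬ (p : ℤ) ∣ (Q : ℤ) * (12 * (τ : ℤ) - 5) := by
      intro h
      rcases (Nat.prime_iff_prime_int.mp hpp).dvd_or_dvd h with h1 | h1
      · exact hA.big p hpp hpP (by exact_mod_cast h1)
      · exact hnd h1
    have h1 := hM1 p hpp hp3 (6 * (Q : ℤ) ^ 2) ((Q : ℤ) * (12 * (τ : ℤ) - 5)) (((τ : ℤ) - 1) * (6 * τ + 1)) hB U r
      (Nat.pow_log_le_self p hU0)
    have h2 : #(S.filter (fun w => p ∣ fm i w ∧ ∀ j : ℕ, 2 ≤ j → NC p w j)) ≤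
        #((range U).filter (fun u : ℕ => ∀ j ∈ Icc 2 (r + 1),
          2 * ((6 * (Q : ℤ) ^ 2 * p ^ 2 * u ^ 2 + (Q : ℤ) * (12 * (τ : ℤ) - 5) * p * u +
            ((τ : ℤ) - 1) * (6 * τ + 1)) % (p : ℤ) ^ j) < (p : ℤ) ^ j)) := by
      refine (card_le_card (t := ((range U).filter (fun u : ℕ => ∀ j ∈ Icc 2 (r + 1),
          2 * ((6 * (Q : ℤ) ^ 2 * p ^ 2 * u ^ 2 + (Q : ℤ) * (12 * (τ : ℤ) - 5) * p * u +
            ((τ : ℤ) - 1) * (6 * τ + 1)) % (p : ℤ) ^ j) < (p : ℤ) ^ j)).image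
              (fun u => τ + p * Q * u)) ?_).trans card_image_le
      intro w hw
      obtain ⟨hwS, hwp, hwNC⟩ := mem_filter.mp hw
      have hw1 : w ∈ (range U).image (fun u => τ + p * Q * u) := by
        rw [← himg]
        exact mem_filter.mpr ⟨hS hwS, hwp⟩
      obtain ⟨u, hu, rfl⟩ := mem_image.mp hw1
      refine mem_image.mpr ⟨u, mem_filter.mpr ⟨hu, fun j hj => ?_⟩, rfl⟩
      have h3 := hwNC j (mem_Icc.mp hj).1
      unfold NC at h3
      have h4 : ((nn (τ + p * Q * u) : ℕ) : ℤ) = 6 * (Q : ℤ) ^ 2 * p ^ 2 * u ^ 2 +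
          (Q : ℤ) * (12 * (τ : ℤ) - 5) * p * u + ((τ : ℤ) - 1) * (6 * τ + 1) := by
        unfold nn
        have h5 : 1 ≤ τ + p * Q * u := le_trans (by omega) (Nat.le_add_right _ _)
        rw [Nat.cast_mul, Nat.cast_sub h5]
        push_cast
        ring
      rw [← h4]
      exact_mod_cast h3
    exact (Nat.cast_le.mpr h2).trans (h1.trans hbd)
  -- union bound
  have hsub : S ⊆ Pr.biUnion (fun p => (univ : Finset (Fin 4)).biUnion (fun i =>
      S.filter (fun w => p ∣ fm i w ∧ ∀ j : ℕ, 2 ≤ j → NC p w j))) := by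
    intro w hw
    obtain ⟨p, hpp, hpP, hpW, i, h1, h2⟩ := hbad w hw
    refine mem_biUnion.mpr ⟨p, mem_filter.mpr ⟨mem_Icc.mpr ⟨hpp.one_le, Nat.le_floor hpW⟩, hpp, hpP⟩,
      mem_biUnion.mpr ⟨i, mem_univ _, mem_filter.mpr ⟨hw, h1, h2⟩⟩⟩
  have hcard : (#S : ℝ) ≤ ∑ p ∈ Pr, ∑ _i : Fin 4, 12 * (W / Q) * (Real.log p / p) / Real.log W := by
    have h1 : #S ≤ ∑ p ∈ Pr, ∑ i : Fin 4, #(S.filter (fun w => p ∣ fm i w ∧ ∀ j : ℕ, 2 ≤ j → NC p w j)) :=
      (card_le_card hsub).trans (card_biUnion_le.trans (sum_le_sum fun p _ => card_biUnion_le))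
    have h2 : (#S : ℝ) ≤ ∑ p ∈ Pr, ∑ i : Fin 4,
        (#(S.filter (fun w => p ∣ fm i w ∧ ∀ j : ℕ, 2 ≤ j → NC p w j)) : ℝ) := by exact_mod_cast h1
    exact h2.trans (sum_le_sum fun p hp => sum_le_sum fun i _ => key p hp i)
  have hN1 : 1 ≤ ⌊(W : ℝ) ^ δ⌋₊ := by
    rw [Nat.one_le_floor_iff]
    exact Real.one_le_rpow (by linarith) hδ.le
  have hsum : ∑ p ∈ Pr, Real.log p / p ≤ δ * Real.log W + C := by
    have h1 : ∑ p ∈ Pr, Real.log p / p ≤ ∑ p ∈ (Icc 1 ⌊(W : ℝ) ^ δ⌋₊).filter Nat.Prime, Real.log p / p := by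
      refine sum_le_sum_of_subset_of_nonneg (fun p hp => ?_) fun p hp _ => ?_
      · obtain ⟨h2, h3, _⟩ := mem_filter.mp hp
        exact mem_filter.mpr ⟨h2, h3⟩
      · have h3 : (1 : ℝ) ≤ p := by exact_mod_cast (mem_filter.mp hp).2.one_le
        exact div_nonneg (Real.log_nonneg h3) (by linarith)
    have h2 := (abs_le.mp (hC _ hN1)).2
    have h3 : Real.log (⌊(W : ℝ) ^ δ⌋₊ : ℝ) ≤ δ * Real.log W := by
      rw [← Real.log_rpow (by linarith)]
      refine Real.log_le_log (by exact_mod_cast hN1) (Nat.floor_le (by positivity))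
    linarith
  have hCη : 48 * C ≤ η * Real.log W := by
    rw [div_le_iff₀ hη] at f2
    linarith
  have hWQ : 0 ≤ (W : ℝ) / Q := by positivity
  calc (#S : ℝ) ≤ ∑ p ∈ Pr, ∑ _i : Fin 4, 12 * (W / Q) * (Real.log p / p) / Real.log W := hcard
    _ = (W : ℝ) / Q * (48 * (∑ p ∈ Pr, Real.log p / p) / Real.log W) := by
      simp only [sum_const, card_univ, Fintype.card_fin, nsmul_eq_mul]
      rw [mul_sum, sum_div, mul_sum]
      refine sum_congr rfl fun p _ => ?_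
      push_cast
      ring
    _ ≤ (W : ℝ) / Q * (48 * δ + η) := by
      refine mul_le_mul_of_nonneg_left ?_ hWQ
      rw [div_le_iff₀ hlW]
      nlinarith

end Pool.Agent.H20E7
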