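import Pool.Agent.H20E7.Stm

set_option autoImplicit false

namespace Pool.Agent.H20E7

open Finset

namespace MED1x

/-- all digits are small -/
def good (p : ℕ) (E0 : ℤ) (r : ℕ) (x : ℤ) : Prop :=
  ∀ j ∈ Icc 1 r, 2 * (E0 + p * (x % (p : ℤ) ^ j)) < (p : ℤ) ^ (j + 1)

open Classical in
/-- classes all of whose digits are small -/
noncomputable def T (p : ℕ) (E0 : ℤ) (r : ℕ) : Finset ℤ := (Ico (0 : ℤ) ((p : ℤ) ^ r)).filter (good p E0 r)

lemma mem_T (p : ℕ) (E0 : ℤ) (r : ℕ) (x : ℤ) : x ∈ T p E0 r ↔ (0 ≤ x ∧ x < (p : ℤ) ^ r) ∧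
    ∀ j ∈ Icc 1 r, 2 * (E0 + p * (x % (p : ℤ) ^ j)) < (p : ℤ) ^ (j + 1) := by
  classical
  unfold T
  rw [mem_filter, mem_Ico]
  rfl

lemma card_T (p : ℕ) (hp : 0 < p) (E0 : ℤ) (h0 : 0 ≤ E0) (r : ℕ) : #(T p E0 r) ≤ ((p + 1) / 2) ^ r := by
  have hpz : (0 : ℤ) < p := by exact_mod_cast hp
  induction r with
  | zero =>
    classical
    unfold T
    refine (card_filter_le _ _).trans ?_
    simp
  | succ r ih =>
    have hpr : (0 : ℤ) < (p : ℤ) ^ r := by positivity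
    have h : #(T p E0 (r + 1)) ≤ #(T p E0 r ×ˢ range ((p + 1) / 2)) := by
      refine Finset.card_le_card_of_injOn (fun x => (x % (p : ℤ) ^ r, (x / (p : ℤ) ^ r).toNat)) ?_ ?_
      · intro x hx
        rw [Finset.mem_coe] at hx
        rw [Finset.mem_coe]
        rw [mem_T] at hx
        obtain ⟨⟨hx0, hx1⟩, hxj⟩ := hx
        rw [mem_product]
        constructor
        · rw [mem_T]
          refine ⟨⟨Int.emod_nonneg _ hpr.ne', Int.emod_lt_of_pos _ hpr⟩, fun j hj => ?_⟩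
          rw [mem_Icc] at hj
          rw [Int.emod_emod_of_dvd _ (pow_dvd_pow _ hj.2)]
          exact hxj j (mem_Icc.2 ⟨hj.1, by omega⟩)
        · rw [mem_range]
          have h1 := hxj (r + 1) (mem_Icc.2 ⟨by omega, le_rfl⟩)
          rw [Int.emod_eq_of_lt hx0 hx1] at h1
          change (x / (p : ℤ) ^ r).toNat < (p + 1) / 2
          have hd0 : 0 ≤ x / (p : ℤ) ^ r := Int.ediv_nonneg hx0 hpr.le
          have hle : (p : ℤ) ^ r * (x / (p : ℤ) ^ r) ≤ x := Int.mul_ediv_self_le hpr.ne'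
          generalize x / (p : ℤ) ^ r = d at hd0 hle
          have h2 : 2 * d < p := by
            by_contra hcon
            push Not at hcon
            have : (p : ℤ) ^ (r + 1 + 1) ≤ 2 * (E0 + p * x) := by
              calc (p : ℤ) ^ (r + 1 + 1) = p * (p ^ r * p) := by ring
                _ ≤ p * (p ^ r * (2 * d)) := by gcongr
                _ = 2 * (0 + p * (p ^ r * d)) := by ring
                _ ≤ 2 * (E0 + p * x) := by gcongr
            linarith
          omega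
      · intro x hx y hy hxy
        rw [Finset.mem_coe, mem_T] at hx hy
        simp only [Prod.mk.injEq] at hxy
        have hdx : 0 ≤ x / (p : ℤ) ^ r := Int.ediv_nonneg hx.1.1 hpr.le
        have hdy : 0 ≤ y / (p : ℤ) ^ r := Int.ediv_nonneg hy.1.1 hpr.le
        have h3 : x / (p : ℤ) ^ r = y / (p : ℤ) ^ r := by omega
        rw [← Int.emod_add_mul_ediv x ((p : ℤ) ^ r), ← Int.emod_add_mul_ediv y ((p : ℤ) ^ r), hxy.1, h3]
    rw [card_product, card_range] at h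
    calc #(T p E0 (r + 1)) ≤ #(T p E0 r) * ((p + 1) / 2) := h
      _ ≤ ((p + 1) / 2) ^ r * ((p + 1) / 2) := Nat.mul_le_mul_right _ ih
      _ = ((p + 1) / 2) ^ (r + 1) := by rw [pow_succ]

lemma emod_aux (p : ℤ) (hp : 0 < p) (E0 g : ℤ) (h0 : 0 ≤ E0) (h1 : E0 < p) (m : ℤ) (hm : 0 < m) :
    (E0 + p * g) % (p * m) = E0 + p * (g % m) := by
  have e : E0 + p * g = (E0 + p * (g % m)) + (p * m) * (g / m) := by
    conv_lhs => rw [← Int.emod_add_mul_ediv g m]
    ring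
  rw [e, Int.add_mul_emod_self_left]
  have h2 := Int.emod_nonneg g hm.ne'
  have h3 : g % m + 1 ≤ m := Int.emod_lt_of_pos g hm
  refine Int.emod_eq_of_lt (by positivity) ?_
  nlinarith

/-- the quadratic map is injective modulo powers of `p` -/
lemma inj_aux (p : ℕ) (hp : p.Prime) (A B E1 : ℤ) (hB : ¬ (p : ℤ) ∣ B) (r : ℕ) (u v : ℤ)
    (h : (A * p * u ^ 2 + B * u + E1) % (p : ℤ) ^ r = (A * p * v ^ 2 + B * v + E1) % (p : ℤ) ^ r) :
    u % (p : ℤ) ^ r = v % (p : ℤ) ^ r := by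
  have h1 : (p : ℤ) ^ r ∣ (u - v) * (A * p * (u + v) + B) := by
    have h2 := Int.emod_emod_of_dvd
    have h3 : (p : ℤ) ^ r ∣ (A * p * v ^ 2 + B * v + E1) - (A * p * u ^ 2 + B * u + E1) :=
      (Int.modEq_iff_dvd).1 h
    have h4 := (dvd_neg.2 h3)
    have e : -((A * p * v ^ 2 + B * v + E1) - (A * p * u ^ 2 + B * u + E1)) = (u - v) * (A * p * (u + v) + B) := by
      ring
    rwa [e] at h4
  have hc : IsCoprime ((p : ℤ) ^ r) (A * p * (u + v) + B) := by
    apply IsCoprime.pow_left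
    have hpi : Prime (p : ℤ) := Nat.prime_iff_prime_int.1 hp
    refine (hpi.coprime_iff_not_dvd).2 fun hd => hB ?_
    have h5 : (p : ℤ) ∣ A * p * (u + v) := ⟨A * (u + v), by ring⟩
    exact (Int.dvd_add_right h5).1 hd
  have h6 : (p : ℤ) ^ r ∣ u - v := hc.dvd_of_dvd_mul_right h1
  exact ((Int.modEq_iff_dvd).2 h6).symm

end MED1x

open MED1x in
theorem MED1 : S_MED1 := by
  intro p hp hp3 A B E hB U r hU
  have hp0 : 0 < p := hp.pos
  have hpz : (0 : ℤ) < p := by exact_mod_cast hp0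
  set E0 : ℤ := E % p with hE0
  set E1 : ℤ := E / p with hE1
  have hE : E = E0 + p * E1 := (Int.emod_add_mul_ediv E p).symm
  have h00 : 0 ≤ E0 := Int.emod_nonneg _ hpz.ne'
  have h01 : E0 < p := Int.emod_lt_of_pos _ hpz
  set g : ℕ → ℤ := fun u => A * p * (u : ℤ) ^ 2 + B * u + E1 with hg
  set s := (range U).filter (fun u : ℕ => ∀ j ∈ Icc 2 (r + 1),
      2 * ((A * p ^ 2 * u ^ 2 + B * p * u + E) % (p : ℤ) ^ j) < (p : ℤ) ^ j) with hs
  set f : ℕ → ℤ := fun u => g u % (p : ℤ) ^ r with hf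
  have hprz : (0 : ℤ) < (p : ℤ) ^ r := by positivity
  have himg : s.image f ⊆ T p E0 r := by
    intro x hx
    rw [mem_image] at hx
    obtain ⟨u, hu, rfl⟩ := hx
    rw [hs, mem_filter] at hu
    rw [mem_T]
    refine ⟨⟨Int.emod_nonneg _ hprz.ne', Int.emod_lt_of_pos _ hprz⟩, fun j hj => ?_⟩
    rw [mem_Icc] at hj
    have h1 := hu.2 (j + 1) (mem_Icc.2 ⟨by omega, by omega⟩)
    have e1 : A * (p : ℤ) ^ 2 * (u : ℤ) ^ 2 + B * p * u + E = E0 + p * g u := by
      rw [hE, hg]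
      ring
    rw [e1, pow_succ' (p : ℤ) j, emod_aux p hpz E0 (g u) h00 h01 _ (by positivity)] at h1
    rw [hf]
    simp only
    rw [Int.emod_emod_of_dvd _ (pow_dvd_pow _ hj.2), pow_succ' (p : ℤ) j]
    exact h1
  have hfib : ∀ a ∈ s.image f, #(s.filter (fun x => f x = a)) ≤ U / p ^ r + 1 := by
    intro a _
    have : #(s.filter (fun x => f x = a)) ≤ #(range (U / p ^ r + 1)) := by
      refine Finset.card_le_card_of_injOn (fun u => u / p ^ r) ?_ ?_
      · intro u hu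
        rw [Finset.mem_coe, mem_filter, hs, mem_filter, mem_range] at hu
        rw [Finset.mem_coe, mem_range]
        exact Nat.lt_succ_of_le (Nat.div_le_div_right hu.1.1.le)
      · intro u hu v hv huv
        rw [Finset.mem_coe, mem_filter] at hu hv
        have h1 : f u = f v := hu.2.trans hv.2.symm
        have h2 := inj_aux p hp A B E1 hB r u v h1
        have h3 : u % p ^ r = v % p ^ r := by exact_mod_cast h2
        simp only at huv
        rw [← Nat.mod_add_div u (p ^ r), ← Nat.mod_add_div v (p ^ r), h3, huv]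
    rwa [card_range] at this
  have h1 := Finset.card_le_mul_card_image s (U / p ^ r + 1) hfib
  have h2 : #(s.image f) ≤ ((p + 1) / 2) ^ r := (card_le_card himg).trans (card_T p hp0 E0 h00 r)
  have h3 : (#s : ℝ) ≤ (((U / p ^ r : ℕ) : ℝ) + 1) * ((((p + 1) / 2 : ℕ) : ℝ)) ^ r := by
    have : #s ≤ (U / p ^ r + 1) * ((p + 1) / 2) ^ r := h1.trans (Nat.mul_le_mul_left _ h2)
    exact_mod_cast this
  have hprR : (0 : ℝ) < (p : ℝ) ^ r := by positivity
  have h4 : (((U / p ^ r : ℕ) : ℝ) + 1) ≤ 2 * (U / (p : ℝ) ^ r) := by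
    have h5 : ((U / p ^ r : ℕ) : ℝ) ≤ (U : ℝ) / ((p ^ r : ℕ) : ℝ) := Nat.cast_div_le
    push_cast at h5
    have h6 : (1 : ℝ) ≤ U / (p : ℝ) ^ r := by
      rw [le_div_iff₀ hprR, one_mul]
      exact_mod_cast hU
    linarith
  have h7 : (((p + 1) / 2 : ℕ) : ℝ) ≤ (2 / 3) * p := by
    have h8 : (((p + 1) / 2 : ℕ) : ℝ) ≤ ((p + 1 : ℕ) : ℝ) / (2 : ℕ) := Nat.cast_div_le
    push_cast at h8
    have h9 : (3 : ℝ) ≤ p := by exact_mod_cast hp3
    linarith
  calc (#s : ℝ) ≤ (((U / p ^ r : ℕ) : ℝ) + 1) * ((((p + 1) / 2 : ℕ) : ℝ)) ^ r := h3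
    _ ≤ (2 * (U / (p : ℝ) ^ r)) * ((2 / 3) * p) ^ r := by
        gcongr
    _ = 2 * U * (2 / 3 : ℝ) ^ r := by
        rw [mul_pow]
        field_simp

end Pool.Agent.H20E7
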