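import Pool.Agent.H20E7.Stm

set_option autoImplicit false

namespace Pool.Agent.H20E7

open Finset

/-- One block. -/
theorem mert_block (C : ℝ)
    (hC : ∀ N : ℕ, 1 ≤ N → |∑ p ∈ (Icc 1 N).filter Nat.Prime, Real.log p / p - Real.log N| ≤ C)
    (W : ℕ) (hW : 2 ≤ W) (x y : ℝ) (hx : 0 < x) (hxy : x ≤ y) :
    ∑ p ∈ (Icc 1 ⌊(W : ℝ) ^ y⌋₊).filter (fun p : ℕ => p.Prime ∧ (W : ℝ) ^ x < p), (1 : ℝ) / p ≤
      (y - x) / x + (2 * C + Real.log 2) / (x * Real.log W) := by
  have hW1 : (1 : ℝ) < W := by exact_mod_cast (by omega : 1 < W)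
  have hW0 : (0 : ℝ) < W := by linarith
  have hL : 0 < Real.log W := Real.log_pos hW1
  have hxL : 0 < x * Real.log W := mul_pos hx hL
  obtain ⟨N1, hN1⟩ : ∃ N : ℕ, N = ⌊(W : ℝ) ^ x⌋₊ := ⟨_, rfl⟩
  obtain ⟨N2, hN2⟩ : ∃ N : ℕ, N = ⌊(W : ℝ) ^ y⌋₊ := ⟨_, rfl⟩
  have hx1 : (1 : ℝ) ≤ (W : ℝ) ^ x := Real.one_le_rpow hW1.le hx.le
  have hy1 : (1 : ℝ) ≤ (W : ℝ) ^ y := Real.one_le_rpow hW1.le (hx.le.trans hxy)
  have hxy' : (W : ℝ) ^ x ≤ (W : ℝ) ^ y := Real.rpow_le_rpow_of_exponent_le hW1.le hxy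
  have hN11 : 1 ≤ N1 := by rw [hN1]; exact Nat.le_floor (by simpa using hx1)
  have hN21 : 1 ≤ N2 := by rw [hN2]; exact Nat.le_floor (by simpa using hy1)
  have hN12 : N1 ≤ N2 := by rw [hN1, hN2]; exact Nat.floor_le_floor hxy'
  have h1 : Real.log N2 ≤ y * Real.log W := by
    rw [← Real.log_rpow hW0]
    apply Real.log_le_log (by exact_mod_cast hN21)
    rw [hN2]; exact Nat.floor_le (by linarith)
  have h2 : x * Real.log W - Real.log 2 ≤ Real.log N1 := by
    rw [← Real.log_rpow hW0, ← Real.log_div (by linarith) (by norm_num)]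
    apply Real.log_le_log (by linarith)
    have h3 : (W : ℝ) ^ x < N1 + 1 := by rw [hN1]; exact Nat.lt_floor_add_one _
    have h4 : (1 : ℝ) ≤ N1 := by exact_mod_cast hN11
    linarith
  have h5 := (abs_le.1 (hC N1 hN11)).1
  have h6 := (abs_le.1 (hC N2 hN21)).2
  have hset : (Icc 1 N2).filter (fun p : ℕ => p.Prime ∧ (W : ℝ) ^ x < p) =
      (Icc 1 N2).filter Nat.Prime \ (Icc 1 N1).filter Nat.Prime := by
    ext p
    simp only [mem_filter, mem_sdiff, mem_Icc]
    constructor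
    · rintro ⟨hp, hpp, hlt⟩
      refine ⟨⟨hp, hpp⟩, fun h => ?_⟩
      have h7 : (p : ℝ) ≤ (W : ℝ) ^ x := by
        refine le_trans ?_ (Nat.floor_le (by linarith : (0 : ℝ) ≤ (W : ℝ) ^ x))
        rw [← hN1]; exact_mod_cast h.1.2
      linarith
    · rintro ⟨⟨hp, hpp⟩, h⟩
      refine ⟨hp, hpp, ?_⟩
      by_contra hle
      push Not at hle
      apply h
      refine ⟨⟨hp.1, ?_⟩, hpp⟩
      rw [hN1]; exact Nat.le_floor hle
  have hsub : (Icc 1 N1).filter Nat.Prime ⊆ (Icc 1 N2).filter Nat.Prime :=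
    filter_subset_filter _ (Icc_subset_Icc_right hN12)
  have hsum : ∑ p ∈ (Icc 1 N2).filter (fun p : ℕ => p.Prime ∧ (W : ℝ) ^ x < p), Real.log p / p ≤
      (y - x) * Real.log W + (2 * C + Real.log 2) := by
    rw [hset]
    have := Finset.sum_sdiff (f := fun p : ℕ => Real.log p / (p : ℝ)) hsub
    nlinarith
  rw [← hN2]
  calc ∑ p ∈ (Icc 1 N2).filter (fun p : ℕ => p.Prime ∧ (W : ℝ) ^ x < p), (1 : ℝ) / p
      ≤ ∑ p ∈ (Icc 1 N2).filter (fun p : ℕ => p.Prime ∧ (W : ℝ) ^ x < p),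
        (Real.log p / p) / (x * Real.log W) := by
        apply Finset.sum_le_sum
        intro p hp
        rw [mem_filter] at hp
        obtain ⟨hp1, hp2, hp3⟩ := hp
        have hp0 : (0 : ℝ) < p := by exact_mod_cast hp2.pos
        have h8 : x * Real.log W ≤ Real.log p := by
          rw [← Real.log_rpow hW0]
          exact Real.log_le_log (by linarith) hp3.le
        rw [div_div, div_le_div_iff₀ hp0 (by positivity)]
        nlinarith
    _ = (∑ p ∈ (Icc 1 N2).filter (fun p : ℕ => p.Prime ∧ (W : ℝ) ^ x < p), Real.log p / p) /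
        (x * Real.log W) := by rw [Finset.sum_div]
    _ ≤ ((y - x) * Real.log W + (2 * C + Real.log 2)) / (x * Real.log W) := by gcongr
    _ = (y - x) / x + (2 * C + Real.log 2) / (x * Real.log W) := by
        field_simp

/-- MERT -/
theorem MERT : S_MERT := by
  rintro ⟨C, hC⟩ a b η ha hab hη
  have hC0 : 0 ≤ C := (abs_nonneg _).trans (hC 1 le_rfl)
  have hlog2 : 0 < Real.log 2 := Real.log_pos (by norm_num)
  obtain ⟨L, hLd⟩ : ∃ L : ℝ, L = Real.log (b / a) := ⟨_, rfl⟩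
  have hL0 : 0 < L := by
    rw [hLd]; exact Real.log_pos (by rw [lt_div_iff₀ ha]; linarith)
  -- the number of blocks
  obtain ⟨k, hk⟩ := exists_nat_gt (max L (2 * L ^ 2 / η))
  have hk1 : L < k := (le_max_left _ _).trans_lt hk
  have hk2 : 2 * L ^ 2 / η < k := (le_max_right _ _).trans_lt hk
  have hk0 : (0 : ℝ) < k := hL0.trans hk1
  obtain ⟨r, hr⟩ : ∃ r : ℝ, r = Real.exp (L / k) := ⟨_, rfl⟩
  have hr1 : 1 < r := by rw [hr]; exact Real.one_lt_exp_iff.2 (div_pos hL0 hk0)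
  have hr2 : r - 1 ≤ L / k + (L / k) ^ 2 := by
    have h1 : |L / k| ≤ 1 := by
      rw [abs_of_pos (div_pos hL0 hk0), div_le_one hk0]; exact hk1.le
    have h2 := Real.abs_exp_sub_one_sub_id_le h1
    rw [← hr] at h2
    have := (abs_le.1 h2).2
    linarith
  have hr3 : k * (r - 1) ≤ L + η / 2 := by
    calc k * (r - 1) ≤ k * (L / k + (L / k) ^ 2) := by gcongr
      _ = L + L ^ 2 / k := by field_simp
      _ ≤ L + η / 2 := by
          have : L ^ 2 / k ≤ η / 2 := by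
            rw [div_lt_iff₀ hη] at hk2
            rw [div_le_div_iff₀ hk0 (by norm_num)]
            nlinarith
          linarith
  have hrk : a * r ^ k = b := by
    rw [hr, ← Real.exp_nat_mul, mul_div_cancel₀ _ hk0.ne', hLd, Real.exp_log (div_pos (ha.trans hab) ha)]
    field_simp
  -- the induction
  have hind : ∀ W : ℕ, 2 ≤ W → ∀ i : ℕ,
      ∑ p ∈ (Icc 1 ⌊(W : ℝ) ^ (a * r ^ i)⌋₊).filter (fun p : ℕ => p.Prime ∧ (W : ℝ) ^ a < p),
        (1 : ℝ) / p ≤ i * ((r - 1) + (2 * C + Real.log 2) / (a * Real.log W)) := by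
    intro W hW i
    have hW1 : (1 : ℝ) < W := by exact_mod_cast (by omega : 1 < W)
    have hLW : 0 < Real.log W := Real.log_pos hW1
    induction i with
    | zero =>
      simp only [pow_zero, mul_one, Nat.cast_zero, zero_mul]
      apply le_of_eq
      apply Finset.sum_eq_zero
      intro p hp
      exfalso
      rw [mem_filter, mem_Icc] at hp
      have h1 : (p : ℝ) ≤ (W : ℝ) ^ a :=
        (Nat.le_floor_iff (by positivity)).1 hp.1.2
      linarith [hp.2.2]
    | succ i ih =>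
      have hri : (1 : ℝ) ≤ r ^ i := one_le_pow₀ hr1.le
      have hai : a ≤ a * r ^ i := by nlinarith
      have hai0 : 0 < a * r ^ i := by positivity
      have hb := mert_block C hC W hW (a * r ^ i) (a * r ^ (i + 1)) hai0
        (by rw [pow_succ]; nlinarith [mul_pos ha (show (0 : ℝ) < r ^ i by positivity)])
      have hb1 : (a * r ^ (i + 1) - a * r ^ i) / (a * r ^ i) = r - 1 := by
        rw [pow_succ]; field_simp
      have hb2 : (2 * C + Real.log 2) / (a * r ^ i * Real.log W) ≤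
          (2 * C + Real.log 2) / (a * Real.log W) := by gcongr
      have hsub : (Icc 1 ⌊(W : ℝ) ^ (a * r ^ (i + 1))⌋₊).filter
          (fun p : ℕ => p.Prime ∧ (W : ℝ) ^ a < p) ⊆
          (Icc 1 ⌊(W : ℝ) ^ (a * r ^ i)⌋₊).filter (fun p : ℕ => p.Prime ∧ (W : ℝ) ^ a < p) ∪
          (Icc 1 ⌊(W : ℝ) ^ (a * r ^ (i + 1))⌋₊).filter
            (fun p : ℕ => p.Prime ∧ (W : ℝ) ^ (a * r ^ i) < p) := by
        intro p hp
        rw [mem_filter, mem_Icc] at hp
        rw [mem_union, mem_filter, mem_filter, mem_Icc, mem_Icc]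
        by_cases h : (W : ℝ) ^ (a * r ^ i) < p
        · exact Or.inr ⟨hp.1, hp.2.1, h⟩
        · left
          push Not at h
          exact ⟨⟨hp.1.1, Nat.le_floor h⟩, hp.2⟩
      have hle := Finset.sum_le_sum_of_subset_of_nonneg hsub
        (f := fun p : ℕ => (1 : ℝ) / p) (fun p _ _ => by positivity)
      have hui := Finset.sum_union_inter (f := fun p : ℕ => (1 : ℝ) / p)
        (s₁ := (Icc 1 ⌊(W : ℝ) ^ (a * r ^ i)⌋₊).filter (fun p : ℕ => p.Prime ∧ (W : ℝ) ^ a < p))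
        (s₂ := (Icc 1 ⌊(W : ℝ) ^ (a * r ^ (i + 1))⌋₊).filter
            (fun p : ℕ => p.Prime ∧ (W : ℝ) ^ (a * r ^ i) < p))
      have hin : 0 ≤ ∑ p ∈ (Icc 1 ⌊(W : ℝ) ^ (a * r ^ i)⌋₊).filter
          (fun p : ℕ => p.Prime ∧ (W : ℝ) ^ a < p) ∩
          (Icc 1 ⌊(W : ℝ) ^ (a * r ^ (i + 1))⌋₊).filter
            (fun p : ℕ => p.Prime ∧ (W : ℝ) ^ (a * r ^ i) < p), (1 : ℝ) / p :=
        Finset.sum_nonneg fun p _ => by positivity
      push_cast
      linarith
  -- the choice of `W1`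
  obtain ⟨W1, hW1⟩ := exists_nat_gt (Real.exp (2 * k * (2 * C + Real.log 2) / (a * η)))
  refine ⟨max W1 2, fun W hW => ?_⟩
  have hWW1 : W1 ≤ W := (le_max_left _ _).trans hW
  have hW2 : 2 ≤ W := (le_max_right _ _).trans hW
  have hW1' : (1 : ℝ) < W := by exact_mod_cast (by omega : 1 < W)
  have hLW : 0 < Real.log W := Real.log_pos hW1'
  have h1 := hind W hW2 k
  rw [hrk] at h1
  have h2 : 2 * k * (2 * C + Real.log 2) / (a * η) < Real.log W := by
    rw [Real.lt_log_iff_exp_lt (by linarith)]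
    exact hW1.trans_le (by exact_mod_cast hWW1)
  have h3 : k * ((2 * C + Real.log 2) / (a * Real.log W)) ≤ η / 2 := by
    rw [div_lt_iff₀ (by positivity)] at h2
    rw [← mul_div_assoc, div_le_div_iff₀ (by positivity) (by norm_num)]
    nlinarith
  rw [← hLd]
  calc _ ≤ _ := h1
    _ = k * (r - 1) + k * ((2 * C + Real.log 2) / (a * Real.log W)) := by ring
    _ ≤ L + η := by linarith

end Pool.Agent.H20E7
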