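import Pool.Agent.H20E7.Stm

/-! # QW: existence of an admissible class -/

set_option autoImplicit false

namespace Pool.Agent.H20E7

open Finset

theorem QW : S_QW := by
  intro P0 h7
  set M : ℕ := ∏ p ∈ (Icc 3 P0).filter Nat.Prime, p with hM
  have hMpos : 0 < M := Finset.prod_pos fun p hp => (Finset.mem_filter.1 hp).2.pos
  have hco : Nat.Coprime 16 M := by
    rw [hM]
    refine Nat.Coprime.prod_right fun p hp => ?_
    have hp2 := (Finset.mem_filter.1 hp).2
    have hp3 := (Finset.mem_Icc.1 (Finset.mem_filter.1 hp).1).1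
    have : Nat.Coprime 2 p := (Nat.coprime_primes Nat.prime_two hp2).2 (by omega)
    exact Nat.Coprime.pow_left 4 this
  obtain ⟨k, hk1, hk2⟩ := Nat.chineseRemainder hco 5 1
  have hQ : 0 < 16 * M := by omega
  refine ⟨16 * M, k % (16 * M), ?_⟩
  constructor
  · exact h7
  · exact hQ
  · exact Nat.mod_lt _ hQ
  · exact Dvd.intro _ rfl
  · rw [Nat.mod_mul_right_mod]
    exact hk1
  · intro p hp hp2 hpP
    have hdM : p ∣ M := by
      rw [hM]
      apply Finset.dvd_prod_of_mem
      rw [Finset.mem_filter, Finset.mem_Icc]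
      have := hp.two_le
      exact ⟨⟨by omega, hpP⟩, hp⟩
    have hdQ : p ∣ 16 * M := hdM.mul_left 16
    refine ⟨hdQ, ?_⟩
    rw [Nat.mod_mod_of_dvd _ hdQ]
    have h1 : k ≡ 1 [MOD p] := Nat.ModEq.of_dvd hdM hk2
    have h2 : k % p = 1 % p := h1
    rw [h2, Nat.mod_eq_of_lt hp.one_lt]
  · intro p hp hpP hdvd
    rcases (Nat.Prime.dvd_mul hp).1 hdvd with h | h
    · have : p ∣ 2 ^ 4 := by simpa using h
      have := Nat.le_of_dvd (by norm_num) (hp.dvd_of_dvd_pow this)
      omega
    · rw [hM] at h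
      obtain ⟨q, hq, hpq⟩ := (hp.prime.dvd_finset_prod_iff _).1 h
      have hq' := Finset.mem_filter.1 hq
      have := (Nat.prime_dvd_prime_iff_eq hp hq'.2).1 hpq
      have := (Finset.mem_Icc.1 hq'.1).2
      omega

end Pool.Agent.H20E7
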