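import Pool.Agent.H20E7.Stm

/-!
# Project E7 (helper20), stub RANGE (helper93): the primes in `(W^a, W^b]`
-/

set_option autoImplicit false

namespace Pool.Agent.H20E7

open Finset Filter Topology

namespace RangeAux

/-- the polynomial identity -/
lemma nn_eq (τ p Q u : ℕ) (h : 1 ≤ τ) : ((nn (τ + p * Q * u) : ℕ) : ℤ) =
    (6 * (Q : ℤ) ^ 2) * (p : ℤ) ^ 2 * (u : ℤ) ^ 2 + ((Q : ℤ) * (12 * τ - 5)) * p * u +
      (6 * (τ : ℤ) ^ 2 - 5 * τ - 1) := by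
  obtain ⟨s, rfl⟩ : ∃ s, τ = s + 1 := ⟨τ - 1, by omega⟩
  have e : nn (s + 1 + p * Q * u) = (s + p * Q * u) * (6 * (s + 1 + p * Q * u) + 1) := by
    unfold nn
    congr 1
    omega
  rw [e]
  push_cast
  ring

lemma NC_iff (τ p Q u j : ℕ) (h : 1 ≤ τ) : NC p (τ + p * Q * u) j ↔
    2 * (((6 * (Q : ℤ) ^ 2) * (p : ℤ) ^ 2 * (u : ℤ) ^ 2 + ((Q : ℤ) * (12 * τ - 5)) * p * u +
      (6 * (τ : ℤ) ^ 2 - 5 * τ - 1)) % (p : ℤ) ^ j) < (p : ℤ) ^ j := by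
  rw [← nn_eq τ p Q u h]
  unfold NC
  have e : (((nn (τ + p * Q * u) % p ^ j : ℕ)) : ℤ) =
      ((nn (τ + p * Q * u) : ℕ) : ℤ) % (p : ℤ) ^ j := by
    push_cast
    rfl
  rw [← e]
  constructor
  · intro h1
    exact_mod_cast h1
  · intro h1
    exact_mod_cast h1

/-- the digits in the positions `2, ..., R + 1` are small -/
def Gd (p R w : ℕ) : Prop := ∀ j ∈ Icc 2 (R + 1), NC p w j

open Classical in
/-- one prime and one form -/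
lemma one (hAP : S_AP) {P0 Q w0 : ℕ} (hA : Adm P0 Q w0) {W p : ℕ} (hW : 1 ≤ W) (hp : p.Prime)
    (hP0 : P0 < p) {R M0 : ℕ} {η : ℝ} (hη : 0 < η)
    (hWeyl : ∀ A B E : ℤ, ¬ (p : ℤ) ∣ A → ¬ (p : ℤ) ∣ B → ∀ U : ℕ, M0 * p ≤ U →
      M0 * (p : ℝ) ^ (R - 1) * Real.log p ≤ (U : ℝ) ^ 2 →
      (#((range U).filter (fun u : ℕ => ∀ j ∈ Icc 2 (R + 1),
        2 * ((A * p ^ 2 * u ^ 2 + B * p * u + E) % (p : ℤ) ^ j) < (p : ℤ) ^ j)) : ℝ) ≤
        ((1 / 2 : ℝ) ^ R + η) * U)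
    (h1 : ∀ U : ℕ, |(U : ℝ) - W / (p * Q)| ≤ 1 → M0 * p ≤ U ∧
      M0 * (p : ℝ) ^ (R - 1) * Real.log p ≤ (U : ℝ) ^ 2) (i : Fin 4) :
    (#(((cand Q w0 W).filter (fun w => p ∣ fm i w)).filter
      (fun w : ℕ => Gd p R w)) : ℝ) ≤
      ((1 / 2 : ℝ) ^ R + η) * ((W : ℝ) / Q * (1 / p) + 1) := by
  obtain ⟨τ, U, hτ, hset, hU, hnd⟩ := hAP P0 Q w0 hA W p hW hp hP0 i
  obtain ⟨hU1, hU2⟩ := h1 U hU
  have hτ1 : 1 ≤ τ := hW.trans hτ
  have hpZ : Prime (p : ℤ) := Nat.prime_iff_prime_int.1 hp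
  have hpQ : ¬ (p : ℤ) ∣ (Q : ℤ) := by
    intro h
    exact hA.big p hp hP0 (Int.natCast_dvd_natCast.1 h)
  have hp6 : ¬ (p : ℤ) ∣ 6 := by
    intro h
    have h2 := Int.le_of_dvd (by norm_num) h
    have h3 := hA.P0_ge
    omega
  have hA1 : ¬ (p : ℤ) ∣ 6 * (Q : ℤ) ^ 2 := by
    intro h
    rcases hpZ.dvd_or_dvd h with h2 | h2
    · exact hp6 h2
    · exact hpQ (hpZ.dvd_of_dvd_pow h2)
  have hB1 : ¬ (p : ℤ) ∣ (Q : ℤ) * (12 * τ - 5) := by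
    intro h
    rcases hpZ.dvd_or_dvd h with h2 | h2
    · exact hpQ h2
    · exact hnd h2
  have h3 := hWeyl (6 * (Q : ℤ) ^ 2) ((Q : ℤ) * (12 * τ - 5)) (6 * (τ : ℤ) ^ 2 - 5 * τ - 1) hA1 hB1
    U hU1 hU2
  have h4 : #(((cand Q w0 W).filter (fun w => p ∣ fm i w)).filter
      (fun w : ℕ => Gd p R w)) ≤
      #((range U).filter (fun u : ℕ => ∀ j ∈ Icc 2 (R + 1),
        2 * (((6 * (Q : ℤ) ^ 2) * p ^ 2 * u ^ 2 + ((Q : ℤ) * (12 * τ - 5)) * p * u +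
          (6 * (τ : ℤ) ^ 2 - 5 * τ - 1)) % (p : ℤ) ^ j) < (p : ℤ) ^ j)) := by
    rw [hset, filter_image]
    refine card_image_le.trans (card_le_card fun u hu => ?_)
    rw [mem_filter] at hu ⊢
    refine ⟨hu.1, fun j hj => ?_⟩
    exact (NC_iff τ p Q u j hτ1).1 (hu.2 j hj)
  have h5 : (0:ℝ) ≤ (1 / 2 : ℝ) ^ R + η := by positivity
  have h6 : (U : ℝ) ≤ (W : ℝ) / Q * (1 / p) + 1 := by
    have h7 := (abs_le.1 hU).2
    have h8 : (W : ℝ) / (p * Q) = (W : ℝ) / Q * (1 / p) := by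
      rw [div_mul_div_comm, mul_one, mul_comm (Q : ℝ)]
    rw [h8] at h7
    linarith
  calc (#(((cand Q w0 W).filter (fun w => p ∣ fm i w)).filter
      (fun w : ℕ => Gd p R w)) : ℝ)
      ≤ (#((range U).filter (fun u : ℕ => ∀ j ∈ Icc 2 (R + 1),
        2 * (((6 * (Q : ℤ) ^ 2) * p ^ 2 * u ^ 2 + ((Q : ℤ) * (12 * τ - 5)) * p * u +
          (6 * (τ : ℤ) ^ 2 - 5 * τ - 1)) % (p : ℤ) ^ j) < (p : ℤ) ^ j)) : ℝ) := by
        exact_mod_cast h4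
    _ ≤ ((1 / 2 : ℝ) ^ R + η) * U := h3
    _ ≤ _ := mul_le_mul_of_nonneg_left h6 h5

/-- the conditions for large `x` -/
lemma large {Q : ℕ} (hQ : 0 < Q) (P0 R M0 : ℕ) {a b η : ℝ} (ha : 0 < a) (hb0 : 0 < b)
    (hb : b < 1 / 2) (hbR : b * (R + 1) < 2) (hη : 0 < η) : ∀ᶠ x : ℝ in atTop, 1 ≤ x ∧
    (M0 : ℝ) ≤ x ^ a ∧ (P0 : ℝ) ≤ x ^ a ∧ 2 * Q * (M0 + 1) * (x ^ b) ^ 2 ≤ x ∧
    4 * Q ^ 2 * M0 * (x ^ b) ^ (R + 1) * Real.log x ≤ x ^ 2 ∧ x ^ b ≤ η * (x / Q) := by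
  have t1 : Tendsto (fun x : ℝ => x ^ a) atTop atTop := tendsto_rpow_atTop ha
  have hQ' : (0:ℝ) < Q := by exact_mod_cast hQ
  have e1 : ∀ᶠ x : ℝ in atTop, 2 * Q * ((M0 : ℝ) + 1) * x ^ (-(1 - 2 * b)) < 1 := by
    have h1 : Tendsto (fun x : ℝ => 2 * Q * ((M0 : ℝ) + 1) * x ^ (-(1 - 2 * b))) atTop
        (𝓝 (2 * Q * ((M0 : ℝ) + 1) * 0)) :=
      (tendsto_rpow_neg_atTop (by linarith)).const_mul _
    rw [mul_zero] at h1
    exact h1.eventually_lt_const one_pos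
  have e2 : ∀ᶠ x : ℝ in atTop, Q * x ^ (-(1 - b)) < η := by
    have h1 : Tendsto (fun x : ℝ => Q * x ^ (-(1 - b))) atTop (𝓝 ((Q : ℝ) * 0)) :=
      (tendsto_rpow_neg_atTop (by linarith)).const_mul _
    rw [mul_zero] at h1
    exact h1.eventually_lt_const hη
  obtain ⟨s, hs⟩ : ∃ s : ℝ, s = 2 - b * (R + 1) := ⟨_, rfl⟩
  have hs0 : 0 < s := by rw [hs]; linarith
  obtain ⟨C, hC⟩ : ∃ C : ℝ, C = 4 * Q ^ 2 * M0 + 1 := ⟨_, rfl⟩
  have hC0 : 0 < C := by rw [hC]; positivity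
  have e3 := (isLittleO_log_rpow_atTop hs0).bound (inv_pos.2 hC0)
  filter_upwards [e1, e2, e3, eventually_ge_atTop 1, t1.eventually_ge_atTop (M0 : ℝ),
    t1.eventually_ge_atTop (P0 : ℝ)] with x g1 g2 g3 g4 g5 g6
  have hx : 0 < x := by linarith
  refine ⟨g4, g5, g6, ?_, ?_, ?_⟩
  · have h1 : x ^ (-(1 - 2 * b)) * x = (x ^ b) ^ 2 := by
      rw [← Real.rpow_natCast (x ^ b) 2, ← Real.rpow_mul hx.le]
      nth_rewrite 2 [← Real.rpow_one x]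
      rw [← Real.rpow_add hx]
      congr 1
      push_cast
      ring
    rw [← h1]
    calc 2 * Q * ((M0 : ℝ) + 1) * (x ^ (-(1 - 2 * b)) * x) =
        (2 * Q * ((M0 : ℝ) + 1) * x ^ (-(1 - 2 * b))) * x := by ring
      _ ≤ 1 * x := mul_le_mul_of_nonneg_right g1.le hx.le
      _ = x := one_mul x
  · have hlog : 0 ≤ Real.log x := Real.log_nonneg g4
    rw [Real.norm_of_nonneg hlog, Real.norm_of_nonneg (Real.rpow_nonneg hx.le _)] at g3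
    have h1 : (x ^ b) ^ (R + 1) * x ^ s = x ^ 2 := by
      rw [← Real.rpow_natCast (x ^ b) (R + 1), ← Real.rpow_mul hx.le, ← Real.rpow_add hx,
        ← Real.rpow_natCast x 2]
      congr 1
      rw [hs]
      push_cast
      ring
    have h2 : C * Real.log x ≤ x ^ s := by
      calc C * Real.log x ≤ C * (C⁻¹ * x ^ s) := mul_le_mul_of_nonneg_left g3 hC0.le
        _ = x ^ s := by field_simp
    have h3 : 4 * (Q : ℝ) ^ 2 * M0 ≤ C := by rw [hC]; linarith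
    have h4 : (0:ℝ) ≤ (x ^ b) ^ (R + 1) := by positivity
    calc 4 * (Q : ℝ) ^ 2 * M0 * (x ^ b) ^ (R + 1) * Real.log x =
        (x ^ b) ^ (R + 1) * (4 * (Q : ℝ) ^ 2 * M0 * Real.log x) := by ring
      _ ≤ (x ^ b) ^ (R + 1) * (C * Real.log x) :=
          mul_le_mul_of_nonneg_left (mul_le_mul_of_nonneg_right h3 hlog) h4
      _ ≤ (x ^ b) ^ (R + 1) * x ^ s := mul_le_mul_of_nonneg_left h2 h4
      _ = x ^ 2 := h1
  · have h1 : x ^ (-(1 - b)) * x = x ^ b := by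
      nth_rewrite 2 [← Real.rpow_one x]
      rw [← Real.rpow_add hx]
      congr 1
      ring
    rw [← mul_div_assoc, le_div_iff₀ hQ', ← h1]
    calc x ^ (-(1 - b)) * x * Q = (Q * x ^ (-(1 - b))) * x := by ring
      _ ≤ η * x := mul_le_mul_of_nonneg_right g2.le hx.le

end RangeAux

open RangeAux in
open Classical in
/-- **RANGE.** -/
theorem RANGE : S_RANGE := by
  intro hAP hWc hMc P0 Q w0 hA R a b η hR ha hab hb hbR hη
  have hQ := hA.Q_pos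
  have hQ' : (0:ℝ) < Q := by exact_mod_cast hQ
  obtain ⟨L, hL⟩ : ∃ L : ℝ, L = Real.log (b / a) := ⟨_, rfl⟩
  have hL0 : 0 < L := by
    rw [hL]
    refine Real.log_pos ?_
    rw [lt_div_iff₀ ha]
    linarith
  obtain ⟨ε, hε⟩ : ∃ ε : ℝ, ε = min 1 (η / (16 + 4 * L)) := ⟨_, rfl⟩
  have hε0 : 0 < ε := by
    rw [hε]
    exact lt_min one_pos (by positivity)
  have hε1 : ε ≤ 1 := by rw [hε]; exact min_le_left _ _
  have hε2 : ε * (16 + 4 * L) ≤ η := by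
    have : ε ≤ η / (16 + 4 * L) := by rw [hε]; exact min_le_right _ _
    rwa [le_div_iff₀ (by positivity)] at this
  obtain ⟨M0, hM0⟩ := hWc R ε hε0
  obtain ⟨W1, hW1⟩ := hMc a b ε ha hab hε0
  obtain ⟨X, hX⟩ := eventually_atTop.1 (large hQ P0 R M0 ha (ha.trans hab) hb hbR hε0)
  refine ⟨max W1 ⌈X⌉₊, ?_⟩
  intro W hW S hS hbad
  have hWX : X ≤ (W : ℝ) := (Nat.le_ceil X).trans (by exact_mod_cast (le_max_right _ _).trans hW)
  obtain ⟨g1, g2, g3, g4, g5, g6⟩ := hX W hWX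
  obtain ⟨x, hx⟩ : ∃ x : ℝ, x = (W : ℝ) := ⟨_, rfl⟩
  have hW0 : 1 ≤ W := by exact_mod_cast g1
  have hsum := hW1 W ((le_max_left _ _).trans hW)
  obtain ⟨PP, hPP⟩ : ∃ PP : Finset ℕ, PP = (Icc 1 ⌊(W : ℝ) ^ b⌋₊).filter
      (fun p : ℕ => p.Prime ∧ (W : ℝ) ^ a < p) := ⟨_, rfl⟩
  rw [← hPP, ← hL] at hsum
  rw [← hL]
  -- the covering
  have hsub : S ⊆ (univ : Finset (Fin 4)).biUnion fun i => PP.biUnion fun p =>
      ((cand Q w0 W).filter (fun w => p ∣ fm i w)).filter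
        (fun w : ℕ => Gd p R w) := by
    intro w hw
    obtain ⟨p, hp, hP0, hpa, hpb, i, hi, hnc⟩ := hbad w hw
    rw [mem_biUnion]
    refine ⟨i, mem_univ _, ?_⟩
    rw [mem_biUnion]
    refine ⟨p, ?_, ?_⟩
    · rw [hPP, mem_filter, mem_Icc]
      exact ⟨⟨hp.one_le, Nat.le_floor hpb⟩, hp, hpa⟩
    · rw [mem_filter, mem_filter]
      exact ⟨⟨hS hw, hi⟩, fun j hj => hnc j (mem_Icc.1 hj).1⟩
  -- each piece
  have hpiece : ∀ p ∈ PP, ∀ i : Fin 4, (#(((cand Q w0 W).filter (fun w => p ∣ fm i w)).filter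
      (fun w : ℕ => Gd p R w)) : ℝ) ≤
      ((1 / 2 : ℝ) ^ R + ε) * ((W : ℝ) / Q * (1 / p) + 1) := by
    intro p hp i
    rw [hPP, mem_filter, mem_Icc] at hp
    obtain ⟨⟨hp1, hp2⟩, hpp, hpa⟩ := hp
    have hpb : (p : ℝ) ≤ (W : ℝ) ^ b := (Nat.le_floor_iff (by positivity)).1 hp2
    have hP0 : P0 < p := by exact_mod_cast g3.trans_lt hpa
    have hMp : M0 ≤ p := by exact_mod_cast (g2.trans hpa.le)
    have hp1' : (1:ℝ) ≤ p := by exact_mod_cast hp1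
    have hp0 : (0:ℝ) < p := by linarith
    have hM00 : (0:ℝ) ≤ M0 := Nat.cast_nonneg _
    refine one hAP hA hW0 hpp hP0 hε0 (hM0 p hpp hMp) ?_ i
    intro U hU
    have k1 : 2 * Q * (M0 + 1) * (p : ℝ) ^ 2 ≤ W := by
      refine le_trans ?_ g4
      have : (p : ℝ) ^ 2 ≤ ((W : ℝ) ^ b) ^ 2 := pow_le_pow_left₀ hp0.le hpb 2
      exact mul_le_mul_of_nonneg_left this (by positivity)
    have hpQ : (0:ℝ) < p * Q := by positivity
    obtain ⟨y, hy⟩ : ∃ y : ℝ, y = (W : ℝ) / (p * Q) := ⟨_, rfl⟩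
    rw [← hy] at hU
    have hyW : y * (p * Q) = W := by rw [hy]; field_simp
    -- y ≥ 2 (M0 + 1) p
    have k2 : 2 * (M0 + 1) * p ≤ y := by
      rw [hy, le_div_iff₀ hpQ]
      calc 2 * ((M0 : ℝ) + 1) * p * (p * Q) = 2 * Q * (M0 + 1) * (p : ℝ) ^ 2 := by ring
        _ ≤ W := k1
    have k3 : y / 2 ≤ (U : ℝ) := by
      have h1 := (abs_le.1 hU).1
      have h2 : (2:ℝ) ≤ y := by nlinarith
      linarith
    have k4 : ((M0 : ℝ) + 1) * p ≤ U := by linarith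
    refine ⟨?_, ?_⟩
    · have : (M0 : ℝ) * p ≤ U := by nlinarith
      exact_mod_cast this
    · have k5 : 4 * (Q : ℝ) ^ 2 * M0 * (p : ℝ) ^ (R + 1) * Real.log p ≤ (W : ℝ) ^ 2 := by
        refine le_trans ?_ g5
        have h1 : (p : ℝ) ^ (R + 1) ≤ ((W : ℝ) ^ b) ^ (R + 1) := pow_le_pow_left₀ hp0.le hpb _
        have h2 : Real.log p ≤ Real.log W := by
          refine Real.log_le_log hp0 (hpb.trans ?_)
          calc (W : ℝ) ^ b ≤ (W : ℝ) ^ (1 : ℝ) :=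
                Real.rpow_le_rpow_of_exponent_le g1 (by linarith)
            _ = W := Real.rpow_one _
        have h3 : 0 ≤ Real.log (p : ℝ) := Real.log_nonneg hp1'
        have h4 : (0:ℝ) ≤ 4 * (Q : ℝ) ^ 2 * M0 := by positivity
        exact mul_le_mul (mul_le_mul_of_nonneg_left h1 h4) h2 h3 (by positivity)
      have k6 : (y / 2) ^ 2 ≤ (U : ℝ) ^ 2 := pow_le_pow_left₀ (by rw [hy]; positivity) k3 2
      refine le_trans ?_ k6
      have k7 : (W : ℝ) ^ 2 = (y / 2) ^ 2 * (4 * (Q : ℝ) ^ 2 * (p : ℝ) ^ 2) := by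
        rw [← hyW]
        ring
      have k8 : (0:ℝ) < 4 * (Q : ℝ) ^ 2 * (p : ℝ) ^ 2 := by positivity
      refine le_of_mul_le_mul_right ?_ k8
      rw [← k7]
      refine le_trans (le_of_eq ?_) k5
      obtain ⟨r, hr⟩ : ∃ r, R = r + 1 := ⟨R - 1, by omega⟩
      rw [hr, Nat.add_sub_cancel]
      ring
  -- the sum
  have hcard : (#S : ℝ) ≤ ∑ i : Fin 4, ∑ p ∈ PP, ((1 / 2 : ℝ) ^ R + ε) * ((W : ℝ) / Q * (1 / p) + 1) := by
    have h1 : #S ≤ ∑ i : Fin 4, ∑ p ∈ PP, #(((cand Q w0 W).filter (fun w => p ∣ fm i w)).filter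
        (fun w : ℕ => Gd p R w)) := by
      refine (card_le_card hsub).trans (card_biUnion_le.trans ?_)
      exact sum_le_sum fun i _ => card_biUnion_le
    calc (#S : ℝ) ≤ ((∑ i : Fin 4, ∑ p ∈ PP, #(((cand Q w0 W).filter (fun w => p ∣ fm i w)).filter
        (fun w : ℕ => Gd p R w)) : ℕ) : ℝ) := by exact_mod_cast h1
      _ = ∑ i : Fin 4, ∑ p ∈ PP, (#(((cand Q w0 W).filter (fun w => p ∣ fm i w)).filter
        (fun w : ℕ => Gd p R w)) : ℝ) := by push_cast; rfl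
      _ ≤ _ := sum_le_sum fun i _ => sum_le_sum fun p hp => hpiece p hp i
  have hPc : (#PP : ℝ) ≤ (W : ℝ) ^ b := by
    have h1 : #PP ≤ ⌊(W : ℝ) ^ b⌋₊ := by
      rw [hPP]
      refine (card_filter_le _ _).trans ?_
      rw [Nat.card_Icc, Nat.add_sub_cancel]
    exact (Nat.le_floor_iff (by positivity)).1 h1
  have hWQ : (0:ℝ) ≤ (W : ℝ) / Q := by positivity
  obtain ⟨c, hc⟩ : ∃ c : ℝ, c = (1 / 2 : ℝ) ^ R := ⟨_, rfl⟩
  have hc0 : 0 ≤ c := by rw [hc]; positivity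
  have hc1 : c ≤ 1 := by
    rw [hc]
    exact pow_le_one₀ (by norm_num) (by norm_num)
  rw [← hc] at hcard ⊢
  have hin : ∑ p ∈ PP, (c + ε) * ((W : ℝ) / Q * (1 / p) + 1) ≤
      (W : ℝ) / Q * ((c + ε) * (L + 2 * ε)) := by
    rw [← mul_sum, sum_add_distrib, ← mul_sum, sum_const, nsmul_eq_mul, mul_one]
    have h1 : (W : ℝ) / Q * ∑ p ∈ PP, (1:ℝ) / p + #PP ≤ (W : ℝ) / Q * (L + 2 * ε) := by
      have h2 := mul_le_mul_of_nonneg_left hsum hWQ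
      have h3 := hPc.trans g6
      nlinarith
    calc (c + ε) * ((W : ℝ) / Q * ∑ p ∈ PP, (1:ℝ) / p + #PP) ≤
        (c + ε) * ((W : ℝ) / Q * (L + 2 * ε)) := mul_le_mul_of_nonneg_left h1 (by linarith)
      _ = _ := by ring
  refine hcard.trans ?_
  rw [sum_const, card_univ, Fintype.card_fin, nsmul_eq_mul]
  have h5 : ((4 : ℕ) : ℝ) * ∑ p ∈ PP, (c + ε) * ((W : ℝ) / Q * (1 / p) + 1) ≤
      4 * ((W : ℝ) / Q * ((c + ε) * (L + 2 * ε))) := by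
    push_cast
    linarith
  refine h5.trans ?_
  have h6 : 4 * ((c + ε) * (L + 2 * ε)) ≤ 4 * c * L + η := by
    nlinarith [mul_nonneg hc0 hε0.le, mul_nonneg hε0.le hε0.le, mul_le_mul_of_nonneg_left hc1 hε0.le,
      mul_le_mul_of_nonneg_left hε1 hε0.le]
  calc 4 * ((W : ℝ) / Q * ((c + ε) * (L + 2 * ε))) = (W : ℝ) / Q * (4 * ((c + ε) * (L + 2 * ε))) := by
        ring
    _ ≤ (W : ℝ) / Q * (4 * c * L + η) := mul_le_mul_of_nonneg_left h6 hWQ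

end Pool.Agent.H20E7
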