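import Pool.Agent.H20E7.Stm

set_option autoImplicit false

namespace Pool.Agent.H20E7

open Finset

namespace SQx

theorem fm_modEq {P0 Q w0 : ℕ} (hA : Adm P0 Q w0) {p : ℕ} (hp : p.Prime) (hP : P0 < p)
    (i : Fin 4) {w w' : ℕ} (hw : 1 ≤ w) (hw' : 1 ≤ w') (h : p ^ 2 ∣ fm i w) (h' : p ^ 2 ∣ fm i w') :
    w ≡ w' [MOD p ^ 2] := by
  have h7 := hA.P0_ge
  have hc2 : Nat.Coprime (p ^ 2) 2 :=
    Nat.Coprime.pow_left 2 ((Nat.coprime_primes hp Nat.prime_two).2 (by omega))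
  have hc3 : Nat.Coprime (p ^ 2) 3 :=
    Nat.Coprime.pow_left 2 ((Nat.coprime_primes hp Nat.prime_three).2 (by omega))
  have hc6 : Nat.Coprime (p ^ 2) 6 := Nat.Coprime.mul_right hc2 hc3
  have key : ∀ c d : ℕ, Nat.Coprime (p ^ 2) c → ((p ^ 2 : ℕ) : ℤ) ∣ c * w - d →
      ((p ^ 2 : ℕ) : ℤ) ∣ c * w' - d → w ≡ w' [MOD p ^ 2] := by
    intro c d hc h1 h2
    refine (Nat.modEq_iff_dvd).2 ?_
    have h3 : ((p ^ 2 : ℕ) : ℤ) ∣ (c : ℤ) * ((w' : ℤ) - w) := by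
      have := dvd_sub h2 h1
      have e : (c : ℤ) * w' - d - (c * w - d) = (c : ℤ) * ((w' : ℤ) - w) := by ring
      rwa [e] at this
    exact (Nat.isCoprime_iff_coprime.2 hc).dvd_of_dvd_mul_left h3
  have hz : ∀ n : ℕ, p ^ 2 ∣ n → ((p ^ 2 : ℕ) : ℤ) ∣ (n : ℤ) := fun n hn => by exact_mod_cast hn
  fin_cases i
  · refine key 1 0 (Nat.coprime_one_right _) ?_ ?_
    · have := hz _ h
      simpa [fm] using this
    · have := hz _ h'
      simpa [fm] using this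
  · refine key 6 5 hc6 ?_ ?_
    · have := hz _ h
      have e : ((fm ((fun i => i) ⟨1, by norm_num⟩) w : ℕ) : ℤ) = ((6 : ℕ) : ℤ) * w - (5 : ℕ) := by
        simp only [fm, Fin.mk_one, Matrix.cons_val_one, Matrix.cons_val_zero]
        omega
      rw [← e]; exact this
    · have := hz _ h'
      have e : ((fm ((fun i => i) ⟨1, by norm_num⟩) w' : ℕ) : ℤ) = ((6 : ℕ) : ℤ) * w' - (5 : ℕ) := by
        simp only [fm, Fin.mk_one, Matrix.cons_val_one, Matrix.cons_val_zero]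
        omega
      rw [← e]; exact this
  · refine key 2 1 hc2 ?_ ?_
    · have := hz _ h
      have e : ((fm ((fun i => i) ⟨2, by norm_num⟩) w : ℕ) : ℤ) = ((2 : ℕ) : ℤ) * w - (1 : ℕ) := by
        have : fm ((fun i => i) ⟨2, by norm_num⟩) w = 2 * w - 1 := rfl
        rw [this]
        omega
      rw [← e]; exact this
    · have := hz _ h'
      have e : ((fm ((fun i => i) ⟨2, by norm_num⟩) w' : ℕ) : ℤ) = ((2 : ℕ) : ℤ) * w' - (1 : ℕ) := by
        have : fm ((fun i => i) ⟨2, by norm_num⟩) w' = 2 * w' - 1 := rfl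
        rw [this]
        omega
      rw [← e]; exact this
  · refine key 3 1 hc3 ?_ ?_
    · have := hz _ h
      have e : ((fm ((fun i => i) ⟨3, by norm_num⟩) w : ℕ) : ℤ) = ((3 : ℕ) : ℤ) * w - (1 : ℕ) := by
        have : fm ((fun i => i) ⟨3, by norm_num⟩) w = 3 * w - 1 := rfl
        rw [this]
        omega
      rw [← e]; exact this
    · have := hz _ h'
      have e : ((fm ((fun i => i) ⟨3, by norm_num⟩) w' : ℕ) : ℤ) = ((3 : ℕ) : ℤ) * w' - (1 : ℕ) := by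
        have : fm ((fun i => i) ⟨3, by norm_num⟩) w' = 3 * w' - 1 := rfl
        rw [this]
        omega
      rw [← e]; exact this

theorem fm_bd (i : Fin 4) {w : ℕ} (hw : 1 ≤ w) : 1 ≤ fm i w ∧ fm i w ≤ 6 * w := by
  fin_cases i
  · have : fm ((fun i => i) ⟨0, by norm_num⟩) w = w := rfl
    rw [this]; omega
  · have : fm ((fun i => i) ⟨1, by norm_num⟩) w = 6 * w - 5 := rfl
    rw [this]; omega
  · have : fm ((fun i => i) ⟨2, by norm_num⟩) w = 2 * w - 1 := rfl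
    rw [this]; omega
  · have : fm ((fun i => i) ⟨3, by norm_num⟩) w = 3 * w - 1 := rfl
    rw [this]; omega

theorem card_T {P0 Q w0 : ℕ} (hA : Adm P0 Q w0) {W : ℕ} (hW : 1 ≤ W) {p : ℕ} (hp : p.Prime)
    (hP : P0 < p) (i : Fin 4) :
    (#((cand Q w0 W).filter (fun w => p ^ 2 ∣ fm i w)) : ℝ) ≤ W / Q * ((p : ℝ) ^ 2)⁻¹ + 1 := by
  have hQ := hA.Q_pos
  have hp0 : 0 < p := hp.pos
  have hM : 0 < p ^ 2 * Q := by positivity
  have hcop : Nat.Coprime (p ^ 2) Q :=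
    Nat.Coprime.pow_left 2 ((Nat.Prime.coprime_iff_not_dvd hp).2 (hA.big p hp hP))
  have h1 : #((cand Q w0 W).filter (fun w => p ^ 2 ∣ fm i w)) ≤
      #(range ((W - 1) / (p ^ 2 * Q) + 1)) := by
    refine card_le_card_of_injOn (fun w => (w - W) / (p ^ 2 * Q)) ?_ ?_
    · intro w hw
      simp only [cand, coe_filter, mem_filter, mem_Ico, Set.mem_ofPred_eq] at hw
      simp only [coe_range, Set.mem_Iio]
      have : (w - W) / (p ^ 2 * Q) ≤ (W - 1) / (p ^ 2 * Q) := Nat.div_le_div_right (by omega)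
      omega
    · intro w hw w' hw' heq
      simp only [cand, coe_filter, mem_filter, mem_Ico, Set.mem_ofPred_eq] at hw hw'
      simp only at heq
      have m1 : w ≡ w' [MOD p ^ 2] :=
        fm_modEq hA hp hP i (by omega) (by omega) hw.2 hw'.2
      have m2 : w ≡ w' [MOD Q] := by
        unfold Nat.ModEq
        rw [hw.1.2, hw'.1.2]
      have m3 : w ≡ w' [MOD p ^ 2 * Q] := (Nat.modEq_and_modEq_iff_modEq_mul hcop).1 ⟨m1, m2⟩
      have m4 : (w - W) ≡ (w' - W) [MOD p ^ 2 * Q] := by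
        refine Nat.ModEq.add_right_cancel' W ?_
        rw [Nat.sub_add_cancel hw.1.1.1, Nat.sub_add_cancel hw'.1.1.1]
        exact m3
      unfold Nat.ModEq at m4
      have e1 := Nat.div_add_mod (w - W) (p ^ 2 * Q)
      have e2 := Nat.div_add_mod (w' - W) (p ^ 2 * Q)
      rw [heq, m4] at e1
      have : w - W = w' - W := e1.symm.trans e2
      omega
  rw [card_range] at h1
  have h2 : (((W - 1) / (p ^ 2 * Q) + 1 : ℕ) : ℝ) ≤ W / Q * ((p : ℝ) ^ 2)⁻¹ + 1 := by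
    push_cast
    have h3 : (((W - 1) / (p ^ 2 * Q) : ℕ) : ℝ) ≤ ((W - 1 : ℕ) : ℝ) / ((p ^ 2 * Q : ℕ) : ℝ) :=
      Nat.cast_div_le
    have h4 : ((W - 1 : ℕ) : ℝ) / ((p ^ 2 * Q : ℕ) : ℝ) ≤ (W : ℝ) / ((p ^ 2 * Q : ℕ) : ℝ) := by
      gcongr
      omega
    have h5 : (W : ℝ) / ((p ^ 2 * Q : ℕ) : ℝ) = W / Q * ((p : ℝ) ^ 2)⁻¹ := by
      push_cast
      have : (Q : ℝ) ≠ 0 := by positivity
      have : (p : ℝ) ≠ 0 := by positivity
      field_simp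
    linarith
  calc _ ≤ (((W - 1) / (p ^ 2 * Q) + 1 : ℕ) : ℝ) := by exact_mod_cast h1
    _ ≤ _ := h2

end SQx

open SQx in
theorem SQ : S_SQ := by
  intro P0 Q w0 hA η hη
  have hQ : (0 : ℝ) < Q := by exact_mod_cast hA.Q_pos
  have h7 := hA.P0_ge
  obtain ⟨W1, hW1⟩ := exists_nat_ge ((14 * Q / η) ^ 2)
  refine ⟨W1 + 1, fun W hW S hS hbad => ?_⟩
  have hWpos : 1 ≤ W := by omega
  set N := Nat.sqrt (12 * W) with hN
  classical
  have hsub : S ⊆ ((Ioc P0 N).filter Nat.Prime).biUnion fun p =>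
      (univ : Finset (Fin 4)).biUnion fun i => (cand Q w0 W).filter (fun w => p ^ 2 ∣ fm i w) := by
    intro w hw
    obtain ⟨p, hp, hP, i, hi⟩ := hbad w hw
    have hwc := hS hw
    simp only [mem_biUnion, mem_univ, true_and, mem_filter, mem_Ioc]
    refine ⟨p, ⟨⟨hP, ?_⟩, hp⟩, i, hwc, hi⟩
    rw [hN, Nat.le_sqrt']
    simp only [cand, mem_filter, mem_Ico] at hwc
    have hb := fm_bd i (w := w) (by omega)
    have := Nat.le_of_dvd (by omega) hi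
    omega
  have h1 : (#S : ℝ) ≤ ∑ p ∈ (Ioc P0 N).filter Nat.Prime, ∑ i : Fin 4,
      (#((cand Q w0 W).filter (fun w => p ^ 2 ∣ fm i w)) : ℝ) := by
    have := (card_le_card hsub).trans card_biUnion_le
    have h2 : #S ≤ ∑ p ∈ (Ioc P0 N).filter Nat.Prime, ∑ i : Fin 4,
      #((cand Q w0 W).filter (fun w => p ^ 2 ∣ fm i w)) :=
      this.trans (sum_le_sum fun p _ => card_biUnion_le)
    exact_mod_cast h2
  have h2 : ∑ p ∈ (Ioc P0 N).filter Nat.Prime, ∑ i : Fin 4,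
      (#((cand Q w0 W).filter (fun w => p ^ 2 ∣ fm i w)) : ℝ) ≤
      ∑ p ∈ (Ioc P0 N).filter Nat.Prime, 4 * ((W : ℝ) / Q * ((p : ℝ) ^ 2)⁻¹ + 1) := by
    refine sum_le_sum fun p hp => ?_
    simp only [mem_filter, mem_Ioc] at hp
    refine (sum_le_sum fun i _ => card_T hA hWpos hp.2 hp.1.1 i).trans ?_
    rw [sum_const, card_univ, Fintype.card_fin, nsmul_eq_mul]
    push_cast
    exact le_refl _
  have h3 : ∑ p ∈ (Ioc P0 N).filter Nat.Prime, 4 * ((W : ℝ) / Q * ((p : ℝ) ^ 2)⁻¹ + 1) ≤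
      ∑ p ∈ Ioc P0 N, 4 * ((W : ℝ) / Q * ((p : ℝ) ^ 2)⁻¹ + 1) :=
    sum_le_sum_of_subset_of_nonneg (filter_subset _ _) fun p _ _ => by positivity
  have h4 : ∑ p ∈ Ioc P0 N, 4 * ((W : ℝ) / Q * ((p : ℝ) ^ 2)⁻¹ + 1) =
      4 * (W / Q * ∑ p ∈ Ioc P0 N, ((p : ℝ) ^ 2)⁻¹) + 4 * ((N - P0 : ℕ) : ℝ) := by
    rw [← mul_sum, sum_add_distrib, ← mul_sum, sum_const, Nat.card_Ioc, nsmul_eq_mul, mul_one]
    ring
  have h5 : ∑ p ∈ Ioc P0 N, ((p : ℝ) ^ 2)⁻¹ ≤ (P0 : ℝ)⁻¹ := by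
    rcases le_or_gt P0 N with h | h
    · have := sum_Ioc_inv_sq_le_sub (α := ℝ) (by omega : P0 ≠ 0) h
      have h0 : (0 : ℝ) ≤ (N : ℝ)⁻¹ := by positivity
      linarith
    · rw [Ioc_eq_empty (by omega)]
      simp
  have h6 : 4 * (N : ℝ) ≤ W / Q * η := by
    have hn : (N : ℝ) ^ 2 ≤ 12 * W := by
      have := Nat.sqrt_le' (12 * W)
      rw [← hN] at this
      exact_mod_cast this
    have hw1 : (14 * Q / η) ^ 2 ≤ (W : ℝ) := by
      refine hW1.trans ?_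
      exact_mod_cast (by omega : W1 ≤ W)
    have hW0 : (0 : ℝ) < W := by exact_mod_cast hWpos
    refine (pow_le_pow_iff_left₀ (by positivity) (by positivity) two_ne_zero).1 ?_
    have e1 : (W / Q * η : ℝ) ^ 2 = W * (W * η ^ 2 / Q ^ 2) := by
      field_simp
    have e2 : 196 ≤ W * η ^ 2 / (Q : ℝ) ^ 2 := by
      rw [le_div_iff₀ (by positivity)]
      have : (14 * Q / η) ^ 2 * η ^ 2 ≤ (W : ℝ) * η ^ 2 := by gcongr
      have e3 : (14 * Q / η) ^ 2 * η ^ 2 = 196 * (Q : ℝ) ^ 2 := by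
        field_simp
        ring
      linarith
    rw [e1]
    nlinarith
  have h7' : ((N - P0 : ℕ) : ℝ) ≤ N := by exact_mod_cast Nat.sub_le _ _
  have h8 : 4 * (W / Q * ∑ p ∈ Ioc P0 N, ((p : ℝ) ^ 2)⁻¹) ≤ 4 * (W / Q * (P0 : ℝ)⁻¹) := by
    gcongr
  have e : (W : ℝ) / Q * (4 / P0 + η) = 4 * (W / Q * (P0 : ℝ)⁻¹) + W / Q * η := by
    rw [div_eq_mul_inv 4 (P0 : ℝ)]
    ring
  rw [e]
  linarith

end Pool.Agent.H20E7
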