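import Pool.Agent.H20E7.Stm

/-!
# TRIG: trigonometric approximation of a majorant of the indicator function of `[0, 1/2] + ℤ`
-/

set_option autoImplicit false

namespace Pool.Agent.H20E7

open Finset MeasureTheory

namespace TRIGaux

/-- the majorant on the circle -/
noncomputable def G (ε : ℝ) (x : UnitAddCircle) : ℝ :=
  max 0 (min 1 (1 - (‖x - ((1 / 4 : ℝ) : UnitAddCircle)‖ - 1 / 4) / ε))

lemma G_cont (ε : ℝ) : Continuous (G ε) := by
  unfold G
  fun_prop

lemma G_nonneg (ε : ℝ) (x : UnitAddCircle) : 0 ≤ G ε x := le_max_left _ _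

lemma G_le_one (ε : ℝ) (x : UnitAddCircle) : G ε x ≤ 1 :=
  max_le zero_le_one (min_le_left _ _)

lemma G_one {ε : ℝ} (hε : 0 < ε) {x : UnitAddCircle}
    (h : ‖x - ((1 / 4 : ℝ) : UnitAddCircle)‖ ≤ 1 / 4) : G ε x = 1 := by
  unfold G
  have : (‖x - ((1 / 4 : ℝ) : UnitAddCircle)‖ - 1 / 4) / ε ≤ 0 :=
    div_nonpos_of_nonpos_of_nonneg (by linarith) hε.le
  rw [min_eq_left (by linarith), max_eq_right zero_le_one]

lemma G_zero {ε : ℝ} (hε : 0 < ε) {x : UnitAddCircle}
    (h : 1 / 4 + ε ≤ ‖x - ((1 / 4 : ℝ) : UnitAddCircle)‖) : G ε x = 0 := by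
  unfold G
  have : 1 ≤ (‖x - ((1 / 4 : ℝ) : UnitAddCircle)‖ - 1 / 4) / ε := by
    rw [le_div_iff₀ hε]
    linarith
  rw [max_eq_left]
  exact (min_le_right _ _).trans (by linarith)

lemma G_integrable (ε : ℝ) : Integrable (G ε) (volume : Measure UnitAddCircle) :=
  (G_cont ε).integrable_of_hasCompactSupport (HasCompactSupport.of_compactSpace _)

lemma int_G {ε : ℝ} (hε : 0 < ε) : ∫ x : UnitAddCircle, G ε x ≤ 1 / 2 + 2 * ε := by
  have h1 : ∫ x : UnitAddCircle, G ε x ≤
      ∫ x : UnitAddCircle, (Metric.closedBall ((1 / 4 : ℝ) : UnitAddCircle)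
        (1 / 4 + ε)).indicator (fun _ => (1 : ℝ)) x := by
    refine integral_mono (G_integrable ε) ?_ ?_
    · exact (integrable_const (1 : ℝ)).indicator measurableSet_closedBall
    · intro x
      by_cases hx : x ∈ Metric.closedBall ((1 / 4 : ℝ) : UnitAddCircle) (1 / 4 + ε)
      · simp only [Set.indicator_of_mem hx]
        exact G_le_one ε x
      · simp only [Set.indicator_of_notMem hx]
        rw [G_zero hε]
        rw [Metric.mem_closedBall, dist_eq_norm, not_le] at hx
        exact hx.le
  refine h1.trans ?_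
  rw [integral_indicator measurableSet_closedBall]
  simp only [integral_const, smul_eq_mul, mul_one]
  rw [Measure.real, Measure.restrict_apply_univ, AddCircle.volume_closedBall]
  rw [ENNReal.toReal_ofReal (le_min (by norm_num) (by positivity))]
  refine (min_le_right _ _).trans (by linarith)

lemma int_fourier {n : ℤ} (hn : n ≠ 0) : ∫ x : UnitAddCircle, (fourier n x : ℂ) = 0 :=
  integral_eq_zero_of_add_right_eq_neg (μ := volume) (fourier_add_half_inv_index hn one_pos)

end TRIGaux

open TRIGaux

theorem TRIG : S_TRIG := by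
  intro η hη
  set ε : ℝ := η / 3 with hεdef
  have hε : 0 < ε := by positivity
  let GC : C(UnitAddCircle, ℂ) := ⟨fun x => (G ε x : ℂ), Complex.continuous_ofReal.comp (G_cont ε)⟩
  have hmem : GC ∈ (Submodule.span ℂ (Set.range (@fourier (1 : ℝ)))).topologicalClosure := by
    rw [span_fourier_closure_eq_top]
    trivial
  rw [← SetLike.mem_coe, Submodule.topologicalClosure_coe, Metric.mem_closure_iff] at hmem
  obtain ⟨F, hF, hFG⟩ := hmem ε hε
  rw [SetLike.mem_coe, Finsupp.mem_span_range_iff_exists_finsupp] at hF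
  obtain ⟨c, hc⟩ := hF
  have hFx : ∀ x : UnitAddCircle, F x = ∑ n ∈ c.support, c n * fourier n x := by
    intro x
    rw [← hc, Finsupp.sum]
    simp [ContinuousMap.coe_sum, Finset.sum_apply]
  have hnorm : ∀ x : UnitAddCircle, ‖F x - (G ε x : ℂ)‖ ≤ ε := by
    intro x
    have h1 := ContinuousMap.dist_apply_le_dist (f := GC) (g := F) x
    rw [dist_comm, dist_eq_norm] at h1
    exact h1.trans hFG.le
  refine ⟨c.support.sup Int.natAbs, fun n => c n, fun x => G ε (x : UnitAddCircle), ?_, ?_, ?_, ?_⟩
  · intro x hx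
    apply G_one hε
    rw [← AddCircle.coe_sub, UnitAddCircle.norm_eq]
    refine (round_le (x - 1 / 4) ⌊x⌋).trans ?_
    have h0 := Int.fract_nonneg x
    have h1 : x - 1 / 4 - (⌊x⌋ : ℝ) = Int.fract x - 1 / 4 := by
      rw [Int.fract]; ring
    rw [h1, abs_le]
    constructor <;> linarith
  · intro x
    exact ⟨G_nonneg _ _, G_le_one _ _⟩
  · intro x
    have h1 : (∑ h ∈ Icc (-((c.support.sup Int.natAbs : ℕ) : ℤ)) ((c.support.sup Int.natAbs : ℕ) : ℤ),
        c h * e (h * x)) = F (x : UnitAddCircle) := by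
      rw [hFx]
      have hs : c.support ⊆ Icc (-((c.support.sup Int.natAbs : ℕ) : ℤ))
          ((c.support.sup Int.natAbs : ℕ) : ℤ) := by
        intro n hn
        have h2 : n.natAbs ≤ c.support.sup Int.natAbs := Finset.le_sup (f := Int.natAbs) hn
        rw [Finset.mem_Icc]
        omega
      rw [Finset.sum_subset hs]
      · refine Finset.sum_congr rfl fun n _ => ?_
        congr 1
        rw [fourier_coe_apply, e]
        congr 1
        push_cast
        ring
      · intro n _ hn
        rw [Finsupp.notMem_support_iff.mp hn, zero_mul]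
    rw [h1]
    exact (hnorm _).trans (by rw [hεdef]; linarith)
  · have hvol : (volume : Measure UnitAddCircle).real Set.univ = 1 := by
      rw [Measure.real, UnitAddCircle.measure_univ, ENNReal.toReal_one]
    have h2 : ∫ x : UnitAddCircle, F x = c 0 := by
      have h3 : ∀ n : ℤ, Integrable (fun x : UnitAddCircle => c n * fourier n x) volume := fun n =>
        ((by fun_prop : Continuous fun x : UnitAddCircle => c n * fourier n x)).integrable_of_hasCompactSupport
          (HasCompactSupport.of_compactSpace _)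
      simp_rw [hFx]
      rw [integral_finsetSum _ (fun n _ => h3 n)]
      simp_rw [integral_const_mul]
      rw [Finset.sum_eq_single 0]
      · simp [hvol]
      · intro n _ hn
        rw [int_fourier hn, mul_zero]
      · intro h0
        rw [Finsupp.notMem_support_iff.mp h0, zero_mul]
    have hGi : Integrable (fun x : UnitAddCircle => (G ε x : ℂ)) volume :=
      (G_integrable ε).ofReal
    have hFi : Integrable (fun x : UnitAddCircle => F x) volume :=
      F.continuous.integrable_of_hasCompactSupport (HasCompactSupport.of_compactSpace _)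
    have h4 : c 0 = (∫ x : UnitAddCircle, (G ε x : ℂ)) + ∫ x : UnitAddCircle, (F x - (G ε x : ℂ)) := by
      rw [integral_sub hFi hGi, h2]
      ring
    have h5 : ‖∫ x : UnitAddCircle, (G ε x : ℂ)‖ ≤ 1 / 2 + 2 * ε := by
      rw [integral_complex_ofReal, Complex.norm_real, Real.norm_of_nonneg (integral_nonneg (G_nonneg ε))]
      exact int_G hε
    have h6 : ‖∫ x : UnitAddCircle, (F x - (G ε x : ℂ))‖ ≤ ε := by
      refine (norm_integral_le_of_norm_le_const (Filter.Eventually.of_forall hnorm)).trans ?_
      rw [hvol, mul_one]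
    show ‖c 0‖ ≤ 1 / 2 + η
    rw [h4]
    refine (norm_add_le _ _).trans ?_
    rw [hεdef] at *
    linarith

end Pool.Agent.H20E7
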