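import Pool.Agent.H20E7.Stm

set_option autoImplicit false

namespace Pool.Agent.H20E7

open Finset Filter Topology

namespace WeylAux

lemma e_zero : e 0 = 1 := by simp [e]

lemma e_add (x y : ℝ) : e (x + y) = e x * e y := by
  unfold e
  rw [← Complex.exp_add]
  congr 1
  push_cast
  ring

lemma e_sum {ι : Type*} (s : Finset ι) (f : ι → ℝ) : e (∑ i ∈ s, f i) = ∏ i ∈ s, e (f i) := by
  classical
  induction s using Finset.induction_on with
  | empty => simp [e_zero]
  | insert a s ha ih => rw [sum_insert ha, prod_insert ha, e_add, ih]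

lemma prod_close {ι : Type*} (s : Finset ι) (F g : ι → ℂ) {t : ℝ} (ht : 0 ≤ t)
    (hg : ∀ i ∈ s, ‖g i‖ ≤ 1) (hF : ∀ i ∈ s, ‖F i - g i‖ ≤ t) :
    ‖∏ i ∈ s, F i - ∏ i ∈ s, g i‖ ≤ (1 + t) ^ #s - 1 := by
  classical
  induction s using Finset.induction_on with
  | empty => simp
  | insert a s ha ih =>
    have ih' := ih (fun i hi => hg i (mem_insert_of_mem hi)) (fun i hi => hF i (mem_insert_of_mem hi))
    have h1 := hF a (mem_insert_self _ _)
    have h2 := hg a (mem_insert_self _ _)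
    rw [prod_insert ha, prod_insert ha, card_insert_of_notMem ha]
    have hFa : ‖F a‖ ≤ 1 + t := by
      calc ‖F a‖ = ‖g a + (F a - g a)‖ := by congr 1; ring
        _ ≤ ‖g a‖ + ‖F a - g a‖ := norm_add_le _ _
        _ ≤ 1 + t := add_le_add h2 h1
    have hgp : ‖∏ i ∈ s, g i‖ ≤ 1 := by
      rw [norm_prod]
      exact prod_le_one (fun _ _ => norm_nonneg _) (fun i hi => hg i (mem_insert_of_mem hi))
    have e1 : F a * ∏ i ∈ s, F i - g a * ∏ i ∈ s, g i =
        F a * (∏ i ∈ s, F i - ∏ i ∈ s, g i) + (F a - g a) * ∏ i ∈ s, g i := by ring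
    rw [e1]
    calc ‖F a * (∏ i ∈ s, F i - ∏ i ∈ s, g i) + (F a - g a) * ∏ i ∈ s, g i‖
        ≤ ‖F a‖ * ‖∏ i ∈ s, F i - ∏ i ∈ s, g i‖ + ‖F a - g a‖ * ‖∏ i ∈ s, g i‖ := by
          refine (norm_add_le _ _).trans ?_
          rw [norm_mul, norm_mul]
      _ ≤ (1 + t) * ((1 + t) ^ #s - 1) + t * 1 := by
          have h3 : (0 : ℝ) ≤ (1 + t) ^ #s - 1 := (norm_nonneg _).trans ih'
          gcongr
      _ = (1 + t) ^ (#s + 1) - 1 := by ring

end WeylAux

open WeylAux

theorem WEYL : S_WEYL := by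
  intro ws js0 trig R η hη
  have js := js0 ws
  -- choice of `t`
  obtain ⟨t, ht, htR⟩ : ∃ t : ℝ, 0 < t ∧
      (1 / 2 + t) ^ R + ((1 + t) ^ R - 1) ≤ (1 / 2) ^ R + η / 2 := by
    have hc : Continuous fun t : ℝ => (1 / 2 + t) ^ R + ((1 + t) ^ R - 1) := by fun_prop
    have h0 : (fun t : ℝ => (1 / 2 + t) ^ R + ((1 + t) ^ R - 1)) 0 < (1 / 2) ^ R + η / 2 := by
      simp only [add_zero, one_pow, sub_self]
      linarith
    have h1 := (hc.tendsto 0).eventually (gt_mem_nhds h0)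
    have h2 : ∀ᶠ t : ℝ in 𝓝[>] 0, (1 / 2 + t) ^ R + ((1 + t) ^ R - 1) < (1 / 2) ^ R + η / 2 :=
      h1.filter_mono nhdsWithin_le_nhds
    obtain ⟨t, h3, h4⟩ := (h2.and self_mem_nhdsWithin).exists
    exact ⟨t, h4, h3.le⟩
  obtain ⟨H, c, g, hg1, hg01, hF, hc0⟩ := trig t ht
  set I : Finset ℤ := Icc (-(H : ℤ)) H with hI
  set C : ℝ := ∑ h ∈ I, ‖c h‖ with hC
  have hC0 : 0 ≤ C := sum_nonneg fun _ _ => norm_nonneg _
  have hcC : ∀ h ∈ I, ‖c h‖ ≤ C := fun h hh =>
    single_le_sum (f := fun h => ‖c h‖) (fun _ _ => norm_nonneg _) hh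
  set T : ℝ := (#(Fintype.piFinset fun _ : Fin R => I) : ℝ) * C ^ R + 1 with hT
  have hT0 : 0 < T := by positivity
  obtain ⟨M0, hM0⟩ := js R H (η / (2 * T)) (by positivity)
  refine ⟨M0, fun p hp hpM A B E hA hB U hU1 hU2 => ?_⟩
  set N : ℕ → ℤ := fun u => A * p ^ 2 * u ^ 2 + B * p * u + E with hN
  set x : ℕ → Fin R → ℝ := fun u i => (N u : ℝ) / (p : ℝ) ^ ((i : ℕ) + 2) with hx
  have hp0 : (0 : ℝ) < p := by exact_mod_cast hp.pos
  -- the majorant
  have hcount : (#((range U).filter (fun u : ℕ => ∀ j ∈ Icc 2 (R + 1),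
      2 * ((A * p ^ 2 * u ^ 2 + B * p * u + E) % (p : ℤ) ^ j) < (p : ℤ) ^ j)) : ℝ) ≤
      ∑ u ∈ range U, ∏ i : Fin R, g (x u i) := by
    rw [card_eq_sum_ones]
    push_cast
    rw [sum_filter]
    refine sum_le_sum fun u _ => ?_
    split_ifs with hu
    · have h1 : ∀ i : Fin R, g (x u i) = 1 := by
        intro i
        apply hg1
        have h2 : 2 * (N u % (p : ℤ) ^ ((i : ℕ) + 2)) < (p : ℤ) ^ ((i : ℕ) + 2) :=
          hu ((i : ℕ) + 2) (by rw [mem_Icc]; omega)
        have h3 : Int.fract (x u i) =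
            ((N u % ((p ^ ((i : ℕ) + 2) : ℕ) : ℤ) : ℤ) : ℝ) / ((p ^ ((i : ℕ) + 2) : ℕ) : ℝ) := by
          rw [← Int.fract_div_intCast_eq_div_intCast_mod]
          simp only [hx]
          push_cast
          rfl
        rw [h3]
        rw [div_le_iff₀ (by push_cast; positivity)]
        push_cast at h2 ⊢
        have h4 : ((2 * (N u % (p : ℤ) ^ ((i : ℕ) + 2)) : ℤ) : ℝ) < (((p : ℤ) ^ ((i : ℕ) + 2) : ℤ) : ℝ) := by
          exact_mod_cast h2
        push_cast at h4
        linarith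
      simp [h1]
    · exact prod_nonneg fun i _ => (hg01 _).1
  refine hcount.trans ?_
  -- pass to trigonometric polynomials
  set F : ℝ → ℂ := fun y => ∑ h ∈ I, c h * e (h * y) with hFdef
  have hdiff : ∀ u, ‖∏ i : Fin R, F (x u i) - ∏ i : Fin R, ((g (x u i) : ℝ) : ℂ)‖ ≤ (1 + t) ^ R - 1 := by
    intro u
    have := prod_close (univ : Finset (Fin R)) (fun i => F (x u i))
      (fun i => ((g (x u i) : ℝ) : ℂ)) ht.le
      (fun i _ => by
        rw [Complex.norm_real, Real.norm_eq_abs, abs_of_nonneg (hg01 _).1]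
        exact (hg01 _).2)
      (fun i _ => hF _)
    simpa using this
  have hexp : ∀ u, ∏ i : Fin R, F (x u i) =
      ∑ φ ∈ Fintype.piFinset (fun _ : Fin R => I), (∏ i, c (φ i)) * e (∑ i, φ i * x u i) := by
    intro u
    simp only [hFdef]
    rw [Finset.prod_univ_sum]
    refine sum_congr rfl fun φ _ => ?_
    rw [prod_mul_distrib, e_sum]
  have hterm : ∀ φ ∈ Fintype.piFinset (fun _ : Fin R => I), φ ≠ 0 →
      ‖∑ u ∈ range U, (∏ i, c (φ i)) * e (∑ i, φ i * x u i)‖ ≤ C ^ R * (η / (2 * T) * U) := by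
    intro φ hφ hne
    rw [← mul_sum, norm_mul]
    have h1 : ‖∏ i, c (φ i)‖ ≤ C ^ R := by
      rw [norm_prod]
      calc ∏ i : Fin R, ‖c (φ i)‖ ≤ ∏ _i : Fin R, C :=
            prod_le_prod (fun _ _ => norm_nonneg _)
              (fun i _ => hcC _ (Fintype.mem_piFinset.1 hφ i))
        _ = C ^ R := by simp
    set h : ℕ → ℤ := fun i => if hi : i < R then φ ⟨i, hi⟩ else 0 with hh
    have h2 : ∀ i, |h i| ≤ H := by
      intro i
      simp only [hh]
      split_ifs with hi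
      · have := Fintype.mem_piFinset.1 hφ ⟨i, hi⟩
        rw [hI, mem_Icc] at this
        exact abs_le.2 this
      · simp
    have h3 : ∃ i ∈ range R, h i ≠ 0 := by
      by_contra hcon
      push Not at hcon
      apply hne
      funext i
      have := hcon i (mem_range.2 i.2)
      simp only [hh, i.2, dif_pos] at this
      exact this
    have h4 := hM0 p hp hpM A B E hA hB U hU1 hU2 h h2 h3
    have h5 : ∀ u : ℕ, (∑ i ∈ range R, h i * (((A * p ^ 2 * u ^ 2 + B * p * u + E : ℤ) : ℝ) /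
        (p : ℝ) ^ (i + 2))) = ∑ i : Fin R, φ i * x u i := by
      intro u
      rw [Finset.sum_range]
      refine sum_congr rfl fun i _ => ?_
      simp only [hh, i.2, dif_pos, hx, hN]
    simp_rw [h5] at h4
    exact mul_le_mul h1 h4 (norm_nonneg _) (by positivity)
  have h0term : ‖∑ u ∈ range U, (∏ i : Fin R, c ((0 : Fin R → ℤ) i)) *
      e (∑ i, ((0 : Fin R → ℤ) i : ℝ) * x u i)‖ ≤ (1 / 2 + t) ^ R * U := by
    simp only [Pi.zero_apply, Int.cast_zero, zero_mul, sum_const_zero, e_zero, mul_one,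
      prod_const, card_univ, Fintype.card_fin, sum_const, card_range, nsmul_eq_mul]
    rw [norm_mul, norm_pow, mul_comm, Complex.norm_natCast]
    gcongr
  have hall : ‖∑ u ∈ range U, ∏ i : Fin R, F (x u i)‖ ≤ (1 / 2 + t) ^ R * U + η / 2 * U := by
    simp_rw [hexp]
    rw [sum_comm]
    have hmem : (0 : Fin R → ℤ) ∈ Fintype.piFinset (fun _ : Fin R => I) := by
      rw [Fintype.mem_piFinset]
      intro i
      rw [hI, mem_Icc]
      simp
    rw [← add_sum_erase _ _ hmem]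
    refine (norm_add_le _ _).trans (add_le_add h0term ?_)
    refine (norm_sum_le _ _).trans ?_
    calc ∑ φ ∈ (Fintype.piFinset fun _ : Fin R => I).erase 0,
          ‖∑ u ∈ range U, (∏ i, c (φ i)) * e (∑ i, φ i * x u i)‖
        ≤ ∑ φ ∈ (Fintype.piFinset fun _ : Fin R => I).erase 0, C ^ R * (η / (2 * T) * U) :=
          sum_le_sum fun φ hφ => hterm φ (mem_of_mem_erase hφ) (ne_of_mem_erase hφ)
      _ ≤ (#(Fintype.piFinset fun _ : Fin R => I) : ℝ) * (C ^ R * (η / (2 * T) * U)) := by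
          rw [sum_const, nsmul_eq_mul]
          gcongr
          exact erase_subset _ _
      _ = ((#(Fintype.piFinset fun _ : Fin R => I) : ℝ) * C ^ R) / T * (η / 2 * U) := by
          field_simp
      _ ≤ 1 * (η / 2 * U) := by
          gcongr
          rw [div_le_one hT0, hT]
          linarith
      _ = η / 2 * U := one_mul _
  have hsum : ∑ u ∈ range U, ∏ i : Fin R, g (x u i) ≤
      ‖∑ u ∈ range U, ∏ i : Fin R, F (x u i)‖ + ((1 + t) ^ R - 1) * U := by
    have h1 : ((∑ u ∈ range U, ∏ i : Fin R, g (x u i) : ℝ) : ℂ) =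
        ∑ u ∈ range U, ∏ i : Fin R, F (x u i) -
          ∑ u ∈ range U, (∏ i : Fin R, F (x u i) - ∏ i : Fin R, ((g (x u i) : ℝ) : ℂ)) := by
      rw [sum_sub_distrib]
      push_cast
      ring
    have h2 : ∑ u ∈ range U, ∏ i : Fin R, g (x u i) ≤
        ‖((∑ u ∈ range U, ∏ i : Fin R, g (x u i) : ℝ) : ℂ)‖ := by
      rw [Complex.norm_real]
      exact le_abs_self _
    refine h2.trans ?_
    rw [h1]
    refine (norm_sub_le _ _).trans (add_le_add le_rfl ?_)
    refine (norm_sum_le _ _).trans ?_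
    calc ∑ u ∈ range U, ‖∏ i : Fin R, F (x u i) - ∏ i : Fin R, ((g (x u i) : ℝ) : ℂ)‖
        ≤ ∑ _u ∈ range U, ((1 + t) ^ R - 1) := sum_le_sum fun u _ => hdiff u
      _ = ((1 + t) ^ R - 1) * U := by
          rw [sum_const, nsmul_eq_mul, card_range]
          ring
  have hU0 : (0 : ℝ) ≤ U := Nat.cast_nonneg _
  calc ∑ u ∈ range U, ∏ i : Fin R, g (x u i)
      ≤ (1 / 2 + t) ^ R * U + η / 2 * U + ((1 + t) ^ R - 1) * U := by linarith
    _ = ((1 / 2 + t) ^ R + ((1 + t) ^ R - 1)) * U + η / 2 * U := by ring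
    _ ≤ ((1 / 2) ^ R + η / 2) * U + η / 2 * U := by gcongr
    _ = ((1 / 2) ^ R + η) * U := by ring

end Pool.Agent.H20E7
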