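import Pool.Agent.H20E7.Stm

/-!
# WS: Weyl's bound for quadratic sums (helper16 for project E7)
-/

set_option autoImplicit false

namespace Pool.Agent.H20E7
namespace WSp

open Finset

lemma e_add (x y : ℝ) : e (x + y) = e x * e y := by
  unfold e
  rw [← Complex.exp_add]
  congr 1
  push_cast
  ring

lemma e_norm (x : ℝ) : ‖e x‖ = 1 := by
  unfold e
  have h : (2 * (Real.pi : ℂ) * Complex.I * (x : ℂ)) = ((2 * Real.pi * x : ℝ) : ℂ) * Complex.I := by
    push_cast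
    ring
  rw [h]
  exact Complex.norm_exp_ofReal_mul_I _

lemma e_conj (x : ℝ) : (starRingEnd ℂ) (e x) = e (-x) := by
  unfold e
  rw [← Complex.exp_conj]
  congr 1
  have h2 : (starRingEnd ℂ) 2 = 2 := map_ofNat _ 2
  simp only [map_mul, Complex.conj_ofReal, Complex.conj_I, h2, Complex.ofReal_neg]
  ring

lemma e_sub_one (x : ℝ) : ‖e x - 1‖ = 2 * |Real.sin (Real.pi * x)| := by
  unfold e
  have h : (2 * (Real.pi : ℂ) * Complex.I * (x : ℂ)) = Complex.I * ((2 * Real.pi * x : ℝ) : ℂ) := by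
    push_cast
    ring
  rw [h, Complex.norm_exp_I_mul_ofReal_sub_one, norm_mul]
  have h2 : 2 * Real.pi * x / 2 = Real.pi * x := by ring
  rw [h2]
  simp

lemma geo (x : ℝ) (m n : ℤ) (h : m ≤ n) :
    (e x - 1) * ∑ v ∈ Ico m n, e (x * v) = e (x * n) - e (x * m) := by
  induction n, h using Int.le_induction with
  | base => simp
  | succ n hmn ih =>
    have h1 : Ico m (n + 1) = insert n (Ico m n) := by
      ext z
      simp only [mem_Ico, mem_insert]
      omega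
    rw [h1, sum_insert (by simp), mul_add, ih]
    have h2 : x * ((n + 1 : ℤ) : ℝ) = x + x * n := by
      push_cast
      ring
    rw [h2, e_add]
    ring

lemma geo_bound (x : ℝ) (m n : ℤ) (hx : Real.sin (Real.pi * x) ≠ 0) :
    ‖∑ v ∈ Ico m n, e (x * v)‖ ≤ 1 / |Real.sin (Real.pi * x)| := by
  rcases le_total m n with h | h
  · have h1 := geo x m n h
    have h2 : ‖e x - 1‖ * ‖∑ v ∈ Ico m n, e (x * v)‖ ≤ 2 := by
      rw [← norm_mul, h1]
      calc ‖e (x * n) - e (x * m)‖ ≤ ‖e (x * n)‖ + ‖e (x * m)‖ := norm_sub_le _ _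
        _ = 2 := by rw [e_norm, e_norm]; norm_num
    rw [e_sub_one] at h2
    have h3 : 0 < |Real.sin (Real.pi * x)| := abs_pos.mpr hx
    rw [le_div_iff₀ h3]
    nlinarith
  · rw [Ico_eq_empty (by omega)]
    simp

/-- the phase -/
noncomputable def ph (q : ℕ) (a : ℤ) (β : ℝ) (u : ℤ) : ℝ := a * (u : ℝ) ^ 2 / q + β * u

/-- the bound for a single `h` -/
noncomputable def gg (q U : ℕ) (s : ℤ) : ℝ := if s = 0 then (U : ℝ) else 1 / |Real.sin (Real.pi * (s / q))|

lemma gg_nonneg (q U : ℕ) (s : ℤ) : 0 ≤ gg q U s := by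
  unfold gg
  split_ifs <;> positivity

lemma sum_conv (q : ℕ) (a : ℤ) (β : ℝ) (U : ℕ) :
    ∑ u ∈ range U, e (a * (u : ℝ) ^ 2 / q + β * u) = ∑ u ∈ Ico (0 : ℤ) U, e (ph q a β u) := by
  unfold ph
  refine sum_nbij' (fun u : ℕ => (u : ℤ)) (fun z : ℤ => z.toNat) ?_ ?_ ?_ ?_ ?_
  · intro u hu
    simp only [mem_range] at hu
    simp only [mem_Ico]
    omega
  · intro z hz
    simp only [mem_Ico] at hz
    simp only [mem_range]
    omega
  · intro u hu
    simp
  · intro z hz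
    simp only [mem_Ico] at hz
    show ((z.toNat : ℕ) : ℤ) = z
    omega
  · intro u hu
    simp

lemma sq_eq (q : ℕ) (a : ℤ) (β : ℝ) (U : ℕ) :
    ‖∑ u ∈ Ico (0 : ℤ) U, e (ph q a β u)‖ ^ 2 =
      ‖∑ h ∈ Ioo (-(U : ℤ)) U, ∑ v ∈ Ico (max 0 (-h)) (min (U : ℤ) (U - h)),
        e (ph q a β (v + h) - ph q a β v)‖ := by
  have h1 : ∀ z : ℂ, ‖z‖ ^ 2 = ‖(starRingEnd ℂ) z * z‖ := by
    intro z
    rw [norm_mul, RCLike.norm_conj]
    ring
  rw [h1]
  congr 1
  rw [map_sum, sum_mul_sum]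
  have h2 : ∀ v ∈ Ico (0 : ℤ) U, ∑ u ∈ Ico (0 : ℤ) U, (starRingEnd ℂ) (e (ph q a β v)) * e (ph q a β u) =
      ∑ h ∈ Ico (-v) ((U : ℤ) - v), e (ph q a β (v + h) - ph q a β v) := by
    intro v hv
    refine sum_nbij' (fun u : ℤ => u - v) (fun h : ℤ => v + h) ?_ ?_ ?_ ?_ ?_
    · intro u hu
      simp only [mem_Ico] at hu ⊢
      omega
    · intro u hu
      simp only [mem_Ico] at hu ⊢
      omega
    · intro u hu
      simp
    · intro u hu
      simp
    · intro u hu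
      rw [e_conj]
      have h3 : v + (u - v) = u := by ring
      rw [h3, sub_eq_add_neg, e_add, mul_comm]
  rw [sum_congr rfl h2]
  refine sum_comm' ?_
  intro v h
  simp only [mem_Ico, mem_Ioo, max_le_iff, lt_min_iff]
  omega

lemma abs_sin_mod (q : ℕ) (hq : 1 ≤ q) (z : ℤ) :
    |Real.sin (Real.pi * (z / q))| = |Real.sin (Real.pi * (((z % (q : ℤ) : ℤ) : ℝ) / q))| := by
  have hq0 : (q : ℝ) ≠ 0 := by positivity
  have h1 : (z : ℝ) = ((z % (q : ℤ) : ℤ) : ℝ) + q * ((z / (q : ℤ) : ℤ) : ℝ) := by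
    have := Int.emod_add_mul_ediv z (q : ℤ)
    exact_mod_cast this.symm
  have h2 : Real.pi * ((z : ℝ) / q) = Real.pi * (((z % (q : ℤ) : ℤ) : ℝ) / q) + ((z / (q : ℤ) : ℤ) : ℝ) * Real.pi := by
    rw [h1]
    field_simp
  rw [h2, Real.sin_add_int_mul_pi, abs_mul]
  simp

lemma sin_lower (q : ℕ) (s : ℤ) (h0 : 0 < s) (h1 : s < q) :
    1 / |Real.sin (Real.pi * (s / q))| ≤ (q : ℝ) / 2 * (1 / s + 1 / (q - s)) := by
  have hq : (0 : ℝ) < q := by exact_mod_cast (lt_trans h0 h1)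
  have hs : (0 : ℝ) < s := by exact_mod_cast h0
  have hs1 : (0 : ℝ) < (q : ℝ) - s := by
    have : (s : ℝ) < q := by exact_mod_cast h1
    linarith
  have hpi := Real.pi_pos
  rcases le_total (2 * (s : ℝ)) q with h | h
  · have h3 : 2 / Real.pi * (Real.pi * (s / q)) ≤ Real.sin (Real.pi * (s / q)) := by
      apply Real.mul_le_sin (by positivity)
      have h9 : (s : ℝ) / q ≤ 1 / 2 := by
        rw [div_le_div_iff₀ hq (by norm_num)]
        linarith
      nlinarith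
    have h4 : 2 / Real.pi * (Real.pi * ((s : ℝ) / q)) = 2 * s / q := by
      field_simp
    rw [h4] at h3
    have h5 : 0 < 2 * (s : ℝ) / q := by positivity
    rw [abs_of_pos (lt_of_lt_of_le h5 h3)]
    calc 1 / Real.sin (Real.pi * (s / q)) ≤ 1 / (2 * s / q) := one_div_le_one_div_of_le h5 h3
      _ = (q : ℝ) / 2 * (1 / s) := by field_simp
      _ ≤ _ := by
        have : 0 < 1 / ((q : ℝ) - s) := by positivity
        gcongr
        linarith
  · have h6 : Real.sin (Real.pi * (s / q)) = Real.sin (Real.pi * ((q - s) / q)) := by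
      rw [← Real.sin_pi_sub]
      congr 1
      field_simp
    rw [h6]
    have h3 : 2 / Real.pi * (Real.pi * (((q : ℝ) - s) / q)) ≤ Real.sin (Real.pi * ((q - s) / q)) := by
      apply Real.mul_le_sin (by positivity)
      have h9 : ((q : ℝ) - s) / q ≤ 1 / 2 := by
        rw [div_le_div_iff₀ hq (by norm_num)]
        linarith
      nlinarith
    have h4 : 2 / Real.pi * (Real.pi * (((q : ℝ) - s) / q)) = 2 * (q - s) / q := by
      field_simp
    rw [h4] at h3
    have h5 : 0 < 2 * ((q : ℝ) - s) / q := by positivity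
    rw [abs_of_pos (lt_of_lt_of_le h5 h3)]
    calc 1 / Real.sin (Real.pi * ((q - s) / q)) ≤ 1 / (2 * ((q : ℝ) - s) / q) := one_div_le_one_div_of_le h5 h3
      _ = (q : ℝ) / 2 * (1 / (q - s)) := by field_simp
      _ ≤ _ := by
        have : 0 < 1 / (s : ℝ) := by positivity
        gcongr
        linarith

lemma inner_bound (q : ℕ) (hq : 1 ≤ q) (a : ℤ) (β : ℝ) (U : ℕ) (h : ℤ) :
    ‖∑ v ∈ Ico (max 0 (-h)) (min (U : ℤ) (U - h)), e (ph q a β (v + h) - ph q a β v)‖ ≤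
      gg q U ((2 * a * h) % (q : ℤ)) := by
  have hq0 : (q : ℝ) ≠ 0 := by positivity
  have h1 : ∀ v : ℤ, e (ph q a β (v + h) - ph q a β v) =
      e (a * (h : ℝ) ^ 2 / q + β * h) * e ((((2 * a * h : ℤ) : ℝ) / q) * v) := by
    intro v
    rw [← e_add]
    congr 1
    unfold ph
    push_cast
    field_simp
    ring
  rw [sum_congr rfl (fun v _ => h1 v), ← mul_sum, norm_mul, e_norm, one_mul]
  unfold gg
  split_ifs with h0
  · refine (norm_sum_le _ _).trans ?_
    simp only [e_norm]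
    simp only [sum_const, Int.card_Ico, nsmul_eq_mul, mul_one]
    have : (min (U : ℤ) (U - h) - max 0 (-h)).toNat ≤ U := by omega
    exact_mod_cast this
  · rw [← abs_sin_mod q hq]
    apply geo_bound
    intro hs
    rw [Real.sin_eq_zero_iff] at hs
    obtain ⟨n, hn⟩ := hs
    apply h0
    have h2 : (n : ℝ) * q = ((2 * a * h : ℤ) : ℝ) := by
      have hpi := Real.pi_ne_zero
      have h3 : (n : ℝ) * Real.pi * q = Real.pi * ((2 * a * h : ℤ) : ℝ) := by
        rw [hn]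
        field_simp
      have h4 : Real.pi * ((n : ℝ) * q) = Real.pi * ((2 * a * h : ℤ) : ℝ) := by
        rw [← h3]; ring
      exact mul_left_cancel₀ hpi h4
    have h5 : n * (q : ℤ) = 2 * a * h := by exact_mod_cast h2
    rw [← h5]
    simp

lemma fiber_card (q : ℕ) (hq : 1 ≤ q) (ho : Odd q) (a : ℤ) (hc : IsCoprime a (q : ℤ)) (U : ℕ) (s : ℤ) :
    (#((Ioo (-(U : ℤ)) U).filter (fun h => (2 * a * h) % (q : ℤ) = s)) : ℝ) ≤ 2 * U / q + 1 := by
  have hqr : (0 : ℝ) < q := by positivity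
  rcases ((Ioo (-(U : ℤ)) U).filter (fun h => (2 * a * h) % (q : ℤ) = s)).eq_empty_or_nonempty with h | h
  · rw [h]
    simp
    positivity
  · obtain ⟨h0, hh0⟩ := h
    rw [mem_filter] at hh0
    have hsub : (Ioo (-(U : ℤ)) U).filter (fun h => (2 * a * h) % (q : ℤ) = s) ⊆
        (Ico (-(U : ℤ)) U).filter (fun h => h ≡ h0 [ZMOD q]) := by
      intro h hh
      rw [mem_filter] at hh ⊢
      refine ⟨?_, ?_⟩
      · have := hh.1
        simp only [mem_Ioo, mem_Ico] at this ⊢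
        omega
      · have h1 : (2 * a * h) % (q : ℤ) = (2 * a * h0) % (q : ℤ) := by rw [hh.2, hh0.2]
        have h2 : (q : ℤ) ∣ 2 * a * (h - h0) := by
          have := Int.ModEq.dvd (show 2 * a * h0 ≡ 2 * a * h [ZMOD q] from h1.symm)
          have h3 : 2 * a * (h - h0) = 2 * a * h - 2 * a * h0 := by ring
          rwa [h3]
        have hc2 : IsCoprime (q : ℤ) (2 * a) := by
          apply IsCoprime.mul_right _ hc.symm
          have : Nat.Coprime q 2 := Nat.Coprime.symm (Nat.coprime_two_left.mpr ho)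
          exact_mod_cast Nat.isCoprime_iff_coprime.mpr this
        have h4 : (q : ℤ) ∣ h - h0 := hc2.dvd_of_dvd_mul_left h2
        exact (Int.modEq_iff_dvd.mpr h4).symm
    have hcard := card_le_card hsub
    have h5 := Int.Ico_filter_modEq_card (-(U : ℤ)) (U : ℤ) (r := (q : ℤ)) (by exact_mod_cast hq) h0
    have h6 : ((#((Ico (-(U : ℤ)) U).filter (fun h => h ≡ h0 [ZMOD q])) : ℤ) : ℝ) ≤ 2 * U / q + 1 := by
      rw [h5]
      have h8 := Int.ceil_lt_add_one ((((U : ℤ) : ℚ) - h0) / ((q : ℤ) : ℚ))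
      have h9 := Int.le_ceil ((((-(U : ℤ) : ℤ) : ℚ) - h0) / ((q : ℤ) : ℚ))
      generalize ⌈(((U : ℤ) : ℚ) - h0) / ((q : ℤ) : ℚ)⌉ = c1 at *
      generalize ⌈(((-(U : ℤ) : ℤ) : ℚ) - h0) / ((q : ℤ) : ℚ)⌉ = c2 at *
      have h10 : ((c1 - c2 : ℤ) : ℚ) ≤ 2 * U / q + 1 := by
        push_cast at *
        have h11 : 2 * (U : ℚ) / q = ((U : ℚ) - h0) / q - (-(U : ℚ) - h0) / q := by ring
        rw [h11]
        linarith
      have h7 : ((c1 - c2 : ℤ) : ℝ) ≤ 2 * U / q + 1 := by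
        have := (Rat.cast_le (K := ℝ)).mpr h10
        push_cast at this ⊢
        exact this
      rw [Int.cast_max]
      apply max_le h7
      rw [Int.cast_zero]
      positivity
    have h12 : (#((Ioo (-(U : ℤ)) U).filter (fun h => (2 * a * h) % (q : ℤ) = s)) : ℝ) ≤
      ((#((Ico (-(U : ℤ)) U).filter (fun h => h ≡ h0 [ZMOD q])) : ℤ) : ℝ) := by exact_mod_cast hcard
    exact h12.trans h6

lemma inv_sum (q : ℕ) (hq : 1 ≤ q) : ∑ s ∈ Ico (1 : ℤ) q, (1 : ℝ) / s ≤ 1 + Real.log q := by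
  have h1 := harmonic_le_one_add_log q
  rw [harmonic_eq_sum_Icc] at h1
  refine le_trans ?_ h1
  push_cast
  have h2 : ∑ s ∈ Ico (1 : ℤ) q, (1 : ℝ) / s = ∑ s ∈ Ico 1 q, ((s : ℕ) : ℝ)⁻¹ := by
    refine sum_nbij' (fun z : ℤ => z.toNat) (fun u : ℕ => (u : ℤ)) ?_ ?_ ?_ ?_ ?_
    · intro z hz
      simp only [mem_Ico] at hz ⊢
      omega
    · intro u hu
      simp only [mem_Ico] at hu ⊢
      omega
    · intro z hz
      simp only [mem_Ico] at hz
      show ((z.toNat : ℕ) : ℤ) = z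
      omega
    · intro u hu
      simp
    · intro z hz
      simp only [mem_Ico] at hz
      have : ((z.toNat : ℕ) : ℝ) = (z : ℝ) := by
        have h3 : ((z.toNat : ℕ) : ℤ) = z := Int.toNat_of_nonneg (by omega)
        exact_mod_cast h3
      rw [this]
      simp
  rw [h2]
  apply sum_le_sum_of_subset_of_nonneg
  · intro x hx
    simp only [mem_Ico, mem_Icc] at hx ⊢
    omega
  · intros
    positivity

lemma inv_sum' (q : ℕ) (hq : 1 ≤ q) : ∑ s ∈ Ico (1 : ℤ) q, (1 : ℝ) / (q - s) ≤ 1 + Real.log q := by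
  refine le_trans (le_of_eq ?_) (inv_sum q hq)
  refine sum_nbij' (fun z : ℤ => q - z) (fun z : ℤ => q - z) ?_ ?_ ?_ ?_ ?_
  · intro z hz
    simp only [mem_Ico] at hz ⊢
    omega
  · intro z hz
    simp only [mem_Ico] at hz ⊢
    omega
  · intro z hz
    simp
  · intro z hz
    simp
  · intro z hz
    push_cast
    rfl

lemma gg_sum (q : ℕ) (hq : 1 ≤ q) (U : ℕ) :
    ∑ s ∈ Ico (0 : ℤ) q, gg q U s ≤ U + q * (1 + Real.log q) := by
  have h1 : Ico (0 : ℤ) q = insert 0 (Ico (1 : ℤ) q) := by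
    ext z
    simp only [mem_Ico, mem_insert]
    omega
  rw [h1, sum_insert (by simp)]
  have h2 : gg q U 0 = U := by simp [gg]
  rw [h2]
  have h3 : ∑ s ∈ Ico (1 : ℤ) q, gg q U s ≤ ∑ s ∈ Ico (1 : ℤ) q, (q : ℝ) / 2 * (1 / s + 1 / (q - s)) := by
    apply sum_le_sum
    intro s hs
    simp only [mem_Ico] at hs
    unfold gg
    rw [if_neg (by omega)]
    exact sin_lower q s (by omega) (by omega)
  rw [← mul_sum, sum_add_distrib] at h3
  have h4 := inv_sum q hq
  have h5 := inv_sum' q hq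
  have h6 : (q : ℝ) / 2 * (∑ s ∈ Ico (1 : ℤ) q, (1 : ℝ) / s + ∑ s ∈ Ico (1 : ℤ) q, (1 : ℝ) / (q - s)) ≤
      (q : ℝ) / 2 * ((1 + Real.log q) + (1 + Real.log q)) := by
    gcongr
  linarith

lemma total (q : ℕ) (hq : 1 ≤ q) (ho : Odd q) (a : ℤ) (hc : IsCoprime a (q : ℤ)) (U : ℕ) :
    ∑ h ∈ Ioo (-(U : ℤ)) U, gg q U ((2 * a * h) % (q : ℤ)) ≤
      (2 * U / q + 1) * (U + q * (1 + Real.log q)) := by
  have hq1 : (0 : ℤ) < q := by exact_mod_cast hq
  have hmaps : ∀ h ∈ Ioo (-(U : ℤ)) U, (2 * a * h) % (q : ℤ) ∈ Ico (0 : ℤ) q := by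
    intro h _
    rw [mem_Ico]
    exact ⟨Int.emod_nonneg _ hq1.ne', Int.emod_lt_of_pos _ hq1⟩
  rw [← sum_fiberwise_of_maps_to hmaps]
  calc ∑ s ∈ Ico (0 : ℤ) q, ∑ h ∈ (Ioo (-(U : ℤ)) U).filter (fun h => (2 * a * h) % (q : ℤ) = s),
        gg q U ((2 * a * h) % (q : ℤ))
      ≤ ∑ s ∈ Ico (0 : ℤ) q, (2 * U / q + 1) * gg q U s := by
        apply sum_le_sum
        intro s _
        have h1 : ∑ h ∈ (Ioo (-(U : ℤ)) U).filter (fun h => (2 * a * h) % (q : ℤ) = s),
            gg q U ((2 * a * h) % (q : ℤ)) =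
            ∑ h ∈ (Ioo (-(U : ℤ)) U).filter (fun h => (2 * a * h) % (q : ℤ) = s), gg q U s := by
          apply sum_congr rfl
          intro h hh
          rw [mem_filter] at hh
          rw [hh.2]
        rw [h1, sum_const, nsmul_eq_mul]
        exact mul_le_mul_of_nonneg_right (fiber_card q hq ho a hc U s) (gg_nonneg q U s)
    _ = (2 * U / q + 1) * ∑ s ∈ Ico (0 : ℤ) q, gg q U s := by rw [mul_sum]
    _ ≤ _ := by
        apply mul_le_mul_of_nonneg_left (gg_sum q hq U)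
        positivity

end WSp

open WSp Finset in
theorem WS : S_WS := by
  refine ⟨3, ?_⟩
  intro q a β U hq ho hc
  have hqr : (0 : ℝ) < q := by positivity
  rw [sum_conv, sq_eq]
  have hlog : 0 ≤ Real.log q := Real.log_nonneg (by exact_mod_cast hq)
  calc ‖∑ h ∈ Ioo (-(U : ℤ)) U, ∑ v ∈ Ico (max 0 (-h)) (min (U : ℤ) (U - h)),
        e (ph q a β (v + h) - ph q a β v)‖
      ≤ ∑ h ∈ Ioo (-(U : ℤ)) U, gg q U ((2 * a * h) % (q : ℤ)) := by
        refine (norm_sum_le _ _).trans ?_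
        exact sum_le_sum (fun h _ => inner_bound q hq a β U h)
    _ ≤ (2 * U / q + 1) * (U + q * (1 + Real.log q)) := total q hq ho a hc U
    _ ≤ 3 * ((U : ℝ) ^ 2 / q + (U + q) * (1 + Real.log q)) := by
        have h1 : (2 * (U : ℝ) / q + 1) * (U + q * (1 + Real.log q)) =
            2 * ((U : ℝ) ^ 2 / q) + 2 * U * (1 + Real.log q) + U + q * (1 + Real.log q) := by
          field_simp
          ring
        rw [h1]
        have h2 : 0 ≤ (U : ℝ) ^ 2 / q := by positivity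
        have h3 : 0 ≤ (U : ℝ) * Real.log q := by positivity
        have h4 : 0 ≤ (q : ℝ) * Real.log q := by positivity
        nlinarith

end Pool.Agent.H20E7
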